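import Pool.Agent.H7.Heil.Basic

/-!
Heilbronn class functions: derived tools.
-/

open Finset

namespace Pool.Agent.H7.HB

theorem sum_comp_surj {K R : Type*} [Group K] [Fintype K] [Group R] [Fintype R] (f : K →* R)
    (hf : Function.Surjective f) (F : R → ℂ) :
    ∃ c : ℕ, Fintype.card K = c * Fintype.card R ∧ ∑ k : K, F (f k) = c * ∑ h : R, F h := by
  classical
  let c := (Finset.univ.filter fun k : K => f k = 1).card
  have hfib : ∀ h : R, (Finset.univ.filter fun k : K => f k = h).card = c := fun h =>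
    MonoidHom.card_fiber_eq_of_mem_range f (hf h) (hf 1)
  refine ⟨c, ?_, ?_⟩
  · have h1 : Fintype.card K = ∑ h : R, (Finset.univ.filter fun k : K => f k = h).card := by
      rw [← Finset.card_univ]
      exact Finset.card_eq_sum_card_fiberwise fun _ _ => Finset.mem_coe.2 (Finset.mem_univ _)
    rw [h1]
    simp only [hfib, sum_const, card_univ, smul_eq_mul]
    ring
  · rw [← Finset.sum_fiberwise_of_maps_to (s := Finset.univ) (t := Finset.univ) (g := f)
      (fun _ _ => Finset.mem_univ _), Finset.mul_sum]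
    refine Finset.sum_congr rfl fun h _ => ?_
    rw [Finset.sum_congr rfl (g := fun _ => F h)]
    · rw [sum_const, hfib, nsmul_eq_mul]
    · intro k hk
      rw [(Finset.mem_filter.1 hk).2]

/-- From subgroups to homomorphisms. -/
theorem heil_of_subgroup {G : Type} [Group G] [Finite G] {θ : G → ℂ}
    (hconj : ∀ g x : G, θ (g * x * g⁻¹) = θ x)
    (hcoeff : ∀ (H : Subgroup G) [Fintype H] (ψ : H →* ℂˣ), ∃ m : ℕ,
      ∑ h : H, θ h * (((ψ h)⁻¹ : ℂˣ) : ℂ) = m * (Fintype.card H : ℂ)) : Heil θ where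
  conj := hconj
  coeff K _ _ φ ψ := by
    classical
    by_cases hk : φ.ker ≤ ψ.ker
    · let R := φ.range
      let _ : Fintype R := Fintype.ofFinite R
      let f : K →* R := φ.rangeRestrict
      have hf : Function.Surjective f := φ.rangeRestrict_surjective
      have hker : f.ker ≤ ψ.ker := by
        rw [MonoidHom.ker_rangeRestrict]; exact hk
      let ψ' : R →* ℂˣ := f.liftOfSurjective hf ⟨ψ, hker⟩
      have hψ' : ∀ k, ψ' (f k) = ψ k := fun k =>
        MonoidHom.liftOfRightInverse_comp_apply f _ _ ⟨ψ, hker⟩ k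
      obtain ⟨m, hm⟩ := hcoeff R ψ'
      obtain ⟨c, hc1, hc2⟩ := sum_comp_surj f hf (fun h => θ h * (((ψ' h)⁻¹ : ℂˣ) : ℂ))
      refine ⟨m, ?_⟩
      have : ∑ k : K, θ (φ k) * (((ψ k)⁻¹ : ℂˣ) : ℂ)
          = ∑ k : K, θ (f k) * (((ψ' (f k))⁻¹ : ℂˣ) : ℂ) := by
        refine Finset.sum_congr rfl fun k _ => ?_
        rw [hψ']
        rfl
      rw [this, hc2, hm, hc1]
      push_cast
      ring
    · obtain ⟨b, hb1, hb2⟩ := Set.not_subset.1 hk
      refine ⟨0, ?_⟩
      have hφ : φ b = 1 := MonoidHom.mem_ker.1 hb1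
      have hψ : (((ψ b)⁻¹ : ℂˣ) : ℂ) ≠ 1 := by
        intro h
        apply hb2
        have : (ψ b)⁻¹ = 1 := Units.ext h
        exact MonoidHom.mem_ker.2 (inv_eq_one.1 this)
      have h1 : ∑ k : K, θ (φ k) * (((ψ k)⁻¹ : ℂˣ) : ℂ)
          = (((ψ b)⁻¹ : ℂˣ) : ℂ) * ∑ k : K, θ (φ k) * (((ψ k)⁻¹ : ℂˣ) : ℂ) := by
        conv_lhs => rw [← Equiv.sum_comp (Equiv.mulLeft b)]
        rw [Finset.mul_sum]
        refine Finset.sum_congr rfl fun k _ => ?_
        simp only [Equiv.coe_mulLeft, map_mul, mul_inv, Units.val_mul, hφ, one_mul]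
        ring
      have h2 : ((((ψ b)⁻¹ : ℂˣ) : ℂ) - 1) * ∑ k : K, θ (φ k) * (((ψ k)⁻¹ : ℂˣ) : ℂ) = 0 := by
        rw [sub_mul, one_mul, ← h1, sub_self]
      rcases mul_eq_zero.1 h2 with h' | h'
      · exact absurd (sub_eq_zero.1 h') hψ
      · rw [h']; simp

variable {G : Type} [Group G] {θ : G → ℂ}

theorem mult_le_comp (h : Heil θ) {A B : Type} [CommGroup A] [Fintype A] [CommGroup B] [Fintype B]
    (φ : A →* G) (i : B →* A) (κ : A →* ℂˣ) :
    mult h φ κ ≤ mult h (φ.comp i) (κ.comp i) := by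
  classical
  have h1 : ∀ b : B, θ ((φ.comp i) b) = ∑ χ : B →* ℂˣ,
      ((∑ κ' ∈ Finset.univ.filter (fun κ' : A →* ℂˣ => κ'.comp i = χ), mult h φ κ' : ℕ) : ℂ)
        * ((χ b : ℂˣ) : ℂ) := by
    intro b
    rw [MonoidHom.comp_apply, expand h φ (i b)]
    rw [← Finset.sum_fiberwise_of_maps_to (s := Finset.univ) (t := Finset.univ)
      (g := fun κ' : A →* ℂˣ => κ'.comp i) (fun _ _ => Finset.mem_univ _)]
    refine Finset.sum_congr rfl fun χ _ => ?_
    push_cast
    rw [Finset.sum_mul]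
    refine Finset.sum_congr rfl fun κ' hκ' => ?_
    rw [← (Finset.mem_filter.1 hκ').2]
    rfl
  have h2 := coef_unique _ _ h1 (κ.comp i)
  rw [mult_spec] at h2
  have h3 : mult h (φ.comp i) (κ.comp i)
      = ∑ κ' ∈ Finset.univ.filter (fun κ' : A →* ℂˣ => κ'.comp i = κ.comp i), mult h φ κ' := by
    exact_mod_cast h2
  rw [h3]
  exact Finset.single_le_sum (f := fun κ' => mult h φ κ') (fun _ _ => Nat.zero_le _)
    (Finset.mem_filter.2 ⟨Finset.mem_univ _, rfl⟩)

/-- Shift lemma (disjoint supports). -/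
theorem disjoint_shift [Finite G] (h : Heil θ) {V : Type} [CommGroup V] [Fintype V] (φ : V →* G)
    (x : G) (hcomm : ∀ v, x * φ v * x⁻¹ = φ v) (hodd : Odd (orderOf x))
    (hinv : ∀ v, θ (φ v * x⁻¹) = θ (φ v * x))
    (hval : ∀ v, v ≠ 1 → θ (φ v) = θ 1 - Fintype.card V) :
    ∀ v, v ≠ 1 → θ (φ v * x) = θ x - Fintype.card V := by
  classical
  have hm1 : ∀ κ : V →* ℂˣ, κ ≠ 1 → mult h φ κ = 1 := by
    intro κ hκ
    have h1 := mult_sum h φ κ
    have h2 : ∑ a : V, θ (φ a) * (((κ a)⁻¹ : ℂˣ) : ℂ)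
        = (θ 1 - Fintype.card V) * ∑ a : V, (((κ⁻¹) a : ℂˣ) : ℂ) + Fintype.card V := by
      rw [Finset.mul_sum]
      have h3 : ∀ a : V, θ (φ a) * (((κ a)⁻¹ : ℂˣ) : ℂ)
          = (θ 1 - Fintype.card V) * (((κ⁻¹) a : ℂˣ) : ℂ)
            + if a = 1 then (Fintype.card V : ℂ) else 0 := by
        intro a
        by_cases ha : a = 1
        · subst ha; simp
        · rw [if_neg ha, hval a ha, add_zero]; rfl
      simp_rw [h3]
      rw [Finset.sum_add_distrib, Finset.sum_ite_eq' Finset.univ (1 : V)]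
      simp
    have hκ' : κ⁻¹ ≠ 1 := fun h' => hκ (MonoidHom.ext fun v => by
      have h'' := DFunLike.congr_fun h' v
      simpa using h'')
    rw [h2, sum_elt, if_neg hκ', mul_zero, zero_add] at h1
    have h4 : (Fintype.card V : ℂ) ≠ 0 := card_ne_zero'
    have h5 : (mult h φ κ : ℂ) = 1 := by
      field_simp at h1
      exact h1.symm
    exact_mod_cast h5
  -- the cyclic group generated by x
  let C : Subgroup G := Subgroup.zpowers x
  let _ : Fintype C := Fintype.ofFinite C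
  let _ : CommGroup C := { (inferInstance : Group C) with
    mul_comm := fun a b => by
      obtain ⟨a, i, rfl⟩ := a
      obtain ⟨b, j, rfl⟩ := b
      apply Subtype.ext
      simp only [Subgroup.coe_mul]
      rw [← zpow_add, ← zpow_add, add_comm] }
  have hcoef : ∀ κ : V →* ℂˣ, κ ≠ 1 → coef (fun v => θ (φ v * x)) κ = 1 := by
    intro κ hκ
    obtain ⟨m, hm⟩ := twisted h φ C.subtype (1 : C →* MulAut V) (by
      have : C ≤ Subgroup.centralizer (Set.range φ) := by
        rw [Subgroup.zpowers_le]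
        rw [Subgroup.mem_centralizer_iff]
        rintro _ ⟨v, rfl⟩
        have := hcomm v
        rw [mul_inv_eq_iff_eq_mul] at this
        exact this.symm
      intro c e
      have h1 := Subgroup.mem_centralizer_iff.1 (this c.2) (φ e) ⟨e, rfl⟩
      rw [MonoidHom.one_apply, MulAut.one_apply, mul_inv_eq_iff_eq_mul]
      exact h1.symm) κ (by intro c e; simp)
    have h1 := hm 1
    simp only [map_one, mul_one, Units.val_one] at h1
    rw [mult_spec h φ κ, hm1 κ hκ] at h1
    have h2 : ∑ χ : C →* ℂˣ, m χ = 1 := by exact_mod_cast h1.symm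
    obtain ⟨χ0, hχ0⟩ : ∃ χ0, m χ0 ≠ 0 := by
      by_contra hcon
      push Not at hcon
      simp [hcon] at h2
    have h3 : ∀ χ, χ ≠ χ0 → m χ = 0 := by
      intro χ hχ
      by_contra hne
      have h4 : m χ + m χ0 ≤ ∑ χ : C →* ℂˣ, m χ := by
        rw [← Finset.sum_pair hχ]
        exact Finset.sum_le_sum_of_subset (Finset.subset_univ _)
      omega
    have h4 : m χ0 = 1 := by
      rw [← h2]
      exact (Finset.sum_eq_single χ0 (fun χ _ hχ => h3 χ hχ)
        (fun h => absurd (Finset.mem_univ _) h)).symm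
    have h5 : ∀ c : C, coef (fun v => θ (φ v * (c : G))) κ = ((χ0 c : ℂˣ) : ℂ) := by
      intro c
      have := hm c
      rw [Finset.sum_eq_single χ0 (fun χ _ hχ => by rw [h3 χ hχ]; simp)
        (fun h => absurd (Finset.mem_univ _) h), h4, Nat.cast_one, one_mul] at this
      exact this
    let xc : C := ⟨x, Subgroup.mem_zpowers x⟩
    have h6 : coef (fun v => θ (φ v * x)) κ = ((χ0 xc : ℂˣ) : ℂ) := h5 xc
    have h7 : coef (fun v => θ (φ v * x⁻¹)) κ = ((χ0 xc⁻¹ : ℂˣ) : ℂ) := h5 xc⁻¹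
    simp_rw [hinv] at h7
    have h8 : χ0 xc = (χ0 xc)⁻¹ := by
      apply Units.ext
      rw [← h6, h7, map_inv]
    have h9 : (χ0 xc) ^ 2 = 1 := by
      rw [pow_two]
      conv_lhs => rw [h8]
      rw [← h8]
      conv_lhs =>
        lhs
        rw [h8]
      exact inv_mul_cancel _
    have h10 : (χ0 xc) ^ (orderOf x) = 1 := by
      rw [← map_pow]
      have : xc ^ orderOf x = 1 := by
        apply Subtype.ext
        simp [xc, pow_orderOf_eq_one]
      rw [this, map_one]
    have h11 : χ0 xc = 1 := by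
      obtain ⟨k, hk⟩ := hodd
      rw [hk, pow_add, pow_mul, h9, one_pow, one_mul, pow_one] at h10
      exact h10
    rw [h6, h11, Units.val_one]
  -- conclusion
  have hexp : ∀ v : V, θ (φ v * x) = coef (fun v => θ (φ v * x)) 1 - 1
      + if v = 1 then (Fintype.card V : ℂ) else 0 := by
    intro v
    have h1 := inversion (fun v => θ (φ v * x)) v
    have h2 : ∑ χ : V →* ℂˣ, coef (fun v => θ (φ v * x)) χ * ((χ v : ℂˣ) : ℂ)
        = ∑ χ : V →* ℂˣ, (((χ v : ℂˣ) : ℂ)
          + if χ = 1 then (coef (fun v => θ (φ v * x)) 1 - 1) else 0) := by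
      refine Finset.sum_congr rfl fun χ _ => ?_
      by_cases hχ : χ = 1
      · subst hχ
        rw [if_pos rfl, MonoidHom.one_apply, Units.val_one]
        ring
      · rw [if_neg hχ, hcoef χ hχ]
        ring
    rw [h1, h2, Finset.sum_add_distrib, sum_char, Finset.sum_ite_eq' Finset.univ (1 : V →* ℂˣ)]
    simp only [mem_univ, if_true]
    ring
  intro v hv
  have h1 := hexp v
  have h2 := hexp 1
  rw [map_one, one_mul, if_pos rfl] at h2
  rw [if_neg hv] at h1
  rw [h1, h2]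
  ring

open scoped IsMulCommutative in
/-- The commutative group generated by the conjugates. -/
theorem exists_E [Finite G] (g z : G) (hcomm : ∀ i : ℤ, Commute z (g ^ i * z * g ^ (-i))) :
    ∃ (E : Type) (_ : CommGroup E) (_ : Fintype E) (φ : E →* G) (σ : MulAut E) (a : E),
      Function.Injective φ ∧ φ a = z ∧ ∀ e, g * φ e * g⁻¹ = φ (σ e) := by
  let S : Set G := Set.range (fun i : ℤ => g ^ i * z * g ^ (-i))
  have hS : ∀ x ∈ S, ∀ y ∈ S, x * y = y * x := by
    rintro _ ⟨i, rfl⟩ _ ⟨j, rfl⟩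
    have h1 := hcomm (j - i)
    have h2 : z * (g ^ (j - i) * z * g ^ (-(j - i))) = (g ^ (j - i) * z * g ^ (-(j - i))) * z := h1
    have h3 := congrArg (fun w => g ^ i * w * g ^ (-i)) h2
    simp only [zpow_sub, neg_sub, zpow_neg] at h3 ⊢
    group at h3 ⊢
    exact h3
  obtain ⟨E, hE⟩ : ∃ E : Subgroup G, E = Subgroup.closure S := ⟨_, rfl⟩
  have hcE : IsMulCommutative E := by rw [hE]; exact Subgroup.isMulCommutative_closure hS
  let _ : Fintype E := Fintype.ofFinite E
  have hzS : z ∈ S := ⟨0, by simp⟩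
  have hnorm : ∀ e ∈ E, g * e * g⁻¹ ∈ E := by
    intro e he
    have : E ≤ E.comap (MulAut.conj g).toMonoidHom := by
      conv_lhs => rw [hE]
      rw [Subgroup.closure_le]
      rintro _ ⟨i, rfl⟩
      simp only [Subgroup.coe_comap, Set.mem_preimage, SetLike.mem_coe, MulEquiv.coe_toMonoidHom,
        MulAut.conj_apply]
      rw [hE]
      apply Subgroup.subset_closure
      refine ⟨i + 1, ?_⟩
      simp only [zpow_add, zpow_neg, zpow_one, mul_inv_rev]
      rw [(Commute.zpow_self g i).eq]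
      group
    have h2 := this he
    simpa using h2
  let f : E →* E :=
    { toFun := fun e => ⟨g * e * g⁻¹, hnorm e e.2⟩
      map_one' := by
        apply Subtype.ext
        simp
      map_mul' := by
        intro a b
        apply Subtype.ext
        change g * ((a : G) * (b : G)) * g⁻¹ = (g * a * g⁻¹) * (g * b * g⁻¹)
        group }
  have hf : Function.Injective f := by
    intro a b hab
    have := congrArg Subtype.val hab
    change g * (a : G) * g⁻¹ = g * (b : G) * g⁻¹ at this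
    apply Subtype.ext
    exact mul_left_cancel (mul_right_cancel this)
  let σ : MulAut E := MulEquiv.ofBijective f (Finite.injective_iff_bijective.1 hf)
  refine ⟨E, inferInstance, inferInstance, E.subtype, σ,
    ⟨z, by rw [hE]; exact Subgroup.subset_closure hzS⟩,
    E.subtype_injective, rfl, fun e => rfl⟩

/-- Splitting along the conjugates of `z`. -/
theorem split_conj [Finite G] (h : Heil θ) (g z : G)
    (hcomm : ∀ i : ℤ, Commute z (g ^ i * z * g ^ (-i)))
    (hz : ∀ (E : Type) [CommGroup E] [Fintype E] (φ : E →* G) (κ : E →* ℂˣ) (a b : E),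
      Function.Injective φ → φ a = z → φ b = g * z * g⁻¹ → mult h φ κ ≠ 0 → κ a = κ b → κ a = 1) :
    θ (z⁻¹ * g) = θ g := by
  obtain ⟨E, _, _, φ, σ, a, hφ, ha, hσ⟩ := exists_E g z hcomm
  have := split h φ g σ hσ a⁻¹ (fun κ hκ hinv => by
    rw [map_inv, inv_eq_one]
    exact hz E φ κ a (σ a) hφ ha (by rw [← hσ, ha]) hκ (hinv a).symm) 1
  rw [one_mul, map_one, one_mul, map_inv, ha] at this
  exact this

theorem split_ker [Finite G] (h : Heil θ) (g z : G)
    (hcomm : ∀ i : ℤ, Commute z (g ^ i * z * g ^ (-i))) (hz : θ z = θ 1) :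
    θ (z⁻¹ * g) = θ g :=
  split_conj h g z hcomm (fun E _ _ φ κ a b _ ha _ hκ _ => ker_char h φ (by rw [ha, hz]) hκ)

/-- If `z⁻¹ g` is in the kernel then `θ g = θ z`. -/
theorem split_ker' [Finite G] (h : Heil θ) (g z : G)
    (hcomm : ∀ i : ℤ, Commute z (g ^ i * z * g ^ (-i))) (hz : θ (z⁻¹ * g) = θ 1) :
    θ g = θ z := by
  obtain ⟨E, _, _, φ, σ, a, hφ, ha, hσ⟩ := exists_E g z hcomm
  have hb := norm_coef_le h φ g σ hσ
  have h1 := inversion (fun e => θ (φ e * g)) a⁻¹
  have h1' : θ 1 = ∑ χ : E →* ℂˣ, coef (fun e => θ (φ e * g)) χ * ((χ a⁻¹ : ℂˣ) : ℂ) := by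
    rw [← h1, map_inv, ha, hz]
  have h2 : θ 1 = ∑ χ : E →* ℂˣ, (mult h φ χ : ℂ) := by
    have := expand h φ 1
    simpa using this
  have h3 : ∀ κ : E →* ℂˣ, coef (fun e => θ (φ e * g)) κ * ((κ a⁻¹ : ℂˣ) : ℂ) = mult h φ κ := by
    have h4 : ∀ κ ∈ (Finset.univ : Finset (E →* ℂˣ)),
        (coef (fun e => θ (φ e * g)) κ * ((κ a⁻¹ : ℂˣ) : ℂ)).re ≤ (mult h φ κ : ℝ) := by
      intro κ _
      refine (Complex.re_le_norm _).trans ?_
      rw [norm_mul, norm_char, mul_one]
      exact hb κ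
    have h5 : ∑ κ : E →* ℂˣ, (coef (fun e => θ (φ e * g)) κ * ((κ a⁻¹ : ℂˣ) : ℂ)).re
        = ∑ κ : E →* ℂˣ, (mult h φ κ : ℝ) := by
      have h6 := congrArg Complex.re (h1'.symm.trans h2)
      rw [Complex.re_sum, Complex.re_sum] at h6
      simpa using h6
    intro κ
    have h6 := (Finset.sum_eq_sum_iff_of_le h4).1 h5 κ (Finset.mem_univ _)
    have h7 : ‖coef (fun e => θ (φ e * g)) κ * ((κ a⁻¹ : ℂˣ) : ℂ)‖ ≤ (mult h φ κ : ℝ) := by
      rw [norm_mul, norm_char, mul_one]
      exact hb κ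
    generalize coef (fun e => θ (φ e * g)) κ * ((κ a⁻¹ : ℂˣ) : ℂ) = w at h6 h7
    have h8 : w.im = 0 := by
      have h9 := Complex.sq_norm w
      rw [Complex.normSq_apply, h6] at h9
      have h10 : ‖w‖ ^ 2 ≤ (mult h φ κ : ℝ) ^ 2 := by gcongr
      nlinarith
    apply Complex.ext
    · simpa using h6
    · simpa using h8
  have h4 : ∀ κ : E →* ℂˣ, coef (fun e => θ (φ e * g)) κ = (mult h φ κ : ℂ) * ((κ a : ℂˣ) : ℂ) := by
    intro κ
    rw [← h3 κ, mul_assoc, ← Units.val_mul, ← map_mul, inv_mul_cancel, map_one, Units.val_one,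
      mul_one]
  have h5 := inversion (fun e => θ (φ e * g)) 1
  simp only [map_one, one_mul, Units.val_one, mul_one] at h5
  rw [h5, ← ha, expand h φ a]
  exact Finset.sum_congr rfl fun κ _ => h4 κ

end Pool.Agent.H7.HB
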