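import Pool.Agent.H7.Heil.CaseTwoC

/-!
Heilbronn class functions of small degree on symmetric groups.
-/

open Finset Equiv Equiv.Perm

namespace Pool.Agent.H7.HB

set_option linter.unusedSectionVars false

variable {α : Type} [Fintype α] [DecidableEq α]
variable {θ : Perm α → ℂ} {r : ℕ}

/-- sign as a complex character -/
def sgnC : Perm α →* ℂˣ := (Units.map (Int.castRingHom ℂ).toMonoidHom).comp sign

theorem sgnC_of_even {g : Perm α} (hg : sign g = 1) : sgnC g = 1 := by
  unfold sgnC
  rw [MonoidHom.comp_apply, hg, map_one]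

theorem sgnC_of_odd {g : Perm α} (hg : sign g = -1) : ((sgnC g : ℂˣ) : ℂ) = -1 := by
  unfold sgnC
  rw [MonoidHom.comp_apply, hg]
  simp

theorem sum_sgnC (h2 : 2 ≤ Fintype.card α) : ∑ g : Perm α, ((sgnC g : ℂˣ) : ℂ) = 0 := by
  obtain ⟨u, v, huv⟩ : ∃ u v : α, u ≠ v := by
    have := Fintype.one_lt_card_iff.1 (show 1 < Fintype.card α by omega)
    exact this
  have h1 : ∑ g : Perm α, ((sgnC g : ℂˣ) : ℂ) = ((sgnC (swap u v) : ℂˣ) : ℂ)
      * ∑ g : Perm α, ((sgnC g : ℂˣ) : ℂ) := by
    conv_lhs => rw [← Equiv.sum_comp (Equiv.mulLeft (swap u v))]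
    rw [Finset.mul_sum]
    refine Finset.sum_congr rfl fun g _ => ?_
    rw [Equiv.coe_mulLeft, map_mul, Units.val_mul]
  rw [sgnC_of_odd (sign_swap huv)] at h1
  linear_combination (1 / 2) * h1

/-- **Main theorem on Heilbronn class functions**: degree at most `n - 3` forces
`θ = a + b * sign`. -/
theorem main (h : Heil θ) (hr : θ 1 = r) (hn : 10 ≤ Fintype.card α)
    (hrn : r + 3 ≤ Fintype.card α) :
    ∃ a b : ℕ, ∀ g, θ g = (a : ℂ) + b * ((sgnC g : ℂˣ) : ℂ) := by
  classical
  obtain ⟨d, hd, hinv⟩ := even_involutions h hr hn hrn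
  have hd' : d = 0 ∨ d = 1 := by omega
  rcases hd' with rfl | rfl
  · have hinv' : ∀ x : Perm α, x ^ 2 = 1 → sign x = 1 → θ x = r := by
      intro x hx hs
      rw [hinv x hx hs]
      simp
    obtain ⟨u, v, huv⟩ : ∃ u v : α, u ≠ v :=
      Fintype.one_lt_card_iff.1 (show 1 < Fintype.card α by omega)
    have heven := fun g (hg : sign g = 1) => case_one_even h hr hn hinv' g hg
    have hodd := fun g (hg : sign g = -1) => case_one_odd h hr hn hinv' hg (sign_swap huv)
    set t := θ (swap u v) with ht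
    have hform : ∀ g, θ g = ((r : ℂ) + t) / 2 + ((r : ℂ) - t) / 2 * ((sgnC g : ℂˣ) : ℂ) := by
      intro g
      rcases Int.units_eq_one_or (sign g) with h1 | h1
      · rw [heven g h1, sgnC_of_even h1, Units.val_one]
        ring
      · rw [hodd g h1, sgnC_of_odd h1]
        ring
    obtain ⟨a, ha⟩ := h.coeff (Perm α) (MonoidHom.id _) 1
    obtain ⟨b, hb⟩ := h.coeff (Perm α) (MonoidHom.id _) sgnC
    have hG : (Fintype.card (Perm α) : ℂ) ≠ 0 := by exact_mod_cast Fintype.card_ne_zero
    have hsum := sum_sgnC (α := α) (by omega)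
    have ha' : ((r : ℂ) + t) / 2 = a := by
      simp only [MonoidHom.id_apply, MonoidHom.one_apply, inv_one, Units.val_one, mul_one] at ha
      simp_rw [hform] at ha
      rw [Finset.sum_add_distrib, ← Finset.mul_sum, hsum, mul_zero, add_zero, sum_const,
        card_univ, nsmul_eq_mul, mul_comm] at ha
      exact mul_right_cancel₀ hG ha
    have hb' : ((r : ℂ) - t) / 2 = b := by
      have h1 : ∀ g : Perm α, θ ((MonoidHom.id (Perm α)) g) * (((sgnC g)⁻¹ : ℂˣ) : ℂ)
          = ((r : ℂ) - t) / 2 + ((r : ℂ) + t) / 2 * ((sgnC g : ℂˣ) : ℂ) := by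
        intro g
        rw [MonoidHom.id_apply, hform g]
        rcases Int.units_eq_one_or (sign g) with h1 | h1
        · rw [sgnC_of_even h1, inv_one, Units.val_one]
          ring
        · have h2 : (((sgnC g)⁻¹ : ℂˣ) : ℂ) = -1 := by
            rw [Units.val_inv_eq_inv_val, sgnC_of_odd h1]
            norm_num
          rw [sgnC_of_odd h1, h2]
          ring
      simp_rw [h1] at hb
      rw [Finset.sum_add_distrib, ← Finset.mul_sum, hsum, mul_zero, add_zero, sum_const,
        card_univ, nsmul_eq_mul, mul_comm] at hb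
      exact mul_right_cancel₀ hG hb
    exact ⟨a, b, fun g => by rw [hform g, ha', hb']⟩
  · exfalso
    refine two_false (θ := θ) (r := r) ⟨h, hr, hn, fun x hx hs => ?_⟩ hrn
    rw [hinv x hx hs]
    simp

end Pool.Agent.H7.HB
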