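import Pool.Agent.H7.Heil.Fourier

/-!
Heilbronn class functions on a finite group: basic calculus.
-/

open Finset

namespace Pool.Agent.H7.HB

/-- A class function all of whose coefficients along linear characters of finite groups mapping to
`G` are natural numbers. -/
structure Heil {G : Type} [Group G] (θ : G → ℂ) : Prop where
  conj : ∀ g x : G, θ (g * x * g⁻¹) = θ x
  coeff : ∀ (K : Type) [Group K] [Fintype K] (φ : K →* G) (ψ : K →* ℂˣ),
    ∃ m : ℕ, ∑ k : K, θ (φ k) * (((ψ k)⁻¹ : ℂˣ) : ℂ) = m * (Fintype.card K : ℂ)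

variable {G : Type} [Group G] {θ : G → ℂ}

theorem Heil.comp (h : Heil θ) {H : Type} [Group H] (f : H →* G) :
    Heil (fun x => θ (f x)) where
  conj g x := by
    simp only [map_mul, map_inv]
    exact h.conj _ _
  coeff K _ _ φ ψ := h.coeff K (f.comp φ) ψ

theorem Heil.of_isConj (h : Heil θ) {x y : G} (hxy : IsConj x y) : θ x = θ y := by
  obtain ⟨c, hc⟩ := isConj_iff.1 hxy
  rw [← hc, h.conj]

section mult

variable {A : Type} [CommGroup A] [Fintype A]

/-- multiplicity of a linear character in the restriction to a finite commutative group -/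
noncomputable def mult (h : Heil θ) (φ : A →* G) (κ : A →* ℂˣ) : ℕ := (h.coeff A φ κ).choose

theorem mult_spec (h : Heil θ) (φ : A →* G) (κ : A →* ℂˣ) :
    coef (fun a => θ (φ a)) κ = mult h φ κ := by
  have hs := (h.coeff A φ κ).choose_spec
  unfold coef mult
  generalize (h.coeff A φ κ).choose = m at hs ⊢
  simp only
  rw [hs]
  field_simp [card_ne_zero' (A := A)]

theorem mult_sum (h : Heil θ) (φ : A →* G) (κ : A →* ℂˣ) :
    ∑ a : A, θ (φ a) * (((κ a)⁻¹ : ℂˣ) : ℂ) = (mult h φ κ : ℂ) * (Fintype.card A : ℂ) :=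
  (h.coeff A φ κ).choose_spec

theorem expand (h : Heil θ) (φ : A →* G) (a : A) :
    θ (φ a) = ∑ κ : A →* ℂˣ, (mult h φ κ : ℂ) * ((κ a : ℂˣ) : ℂ) := by
  have := inversion (fun a => θ (φ a)) a
  simp_rw [mult_spec h φ] at this
  exact this

theorem sum_mult (h : Heil θ) (φ : A →* G) :
    θ 1 = ((∑ κ : A →* ℂˣ, mult h φ κ : ℕ) : ℂ) := by
  have := expand h φ 1
  rw [map_one] at this
  rw [this]
  push_cast
  simp

end mult

theorem Heil.exists_deg (h : Heil θ) : ∃ r : ℕ, θ 1 = r :=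
  ⟨_, sum_mult h (1 : Unit →* G)⟩

/-- `θ(φ a) = θ 1` forces all constituents to be trivial on `a`. -/
theorem ker_char (h : Heil θ) {A : Type} [CommGroup A] [Fintype A] (φ : A →* G) {a : A}
    (ha : θ (φ a) = θ 1) {κ : A →* ℂˣ} (hκ : mult h φ κ ≠ 0) : κ a = 1 := by
  have h1 := expand h φ a
  have h2 := expand h φ 1
  rw [map_one] at h2
  rw [ha, h2] at h1
  simp only [map_one, Units.val_one, mul_one] at h1
  have h3 := congrArg Complex.re h1
  simp only [Complex.re_sum, Complex.mul_re, Complex.natCast_re, Complex.natCast_im, zero_mul,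
    sub_zero] at h3
  have h4 : ∑ χ : A →* ℂˣ, (mult h φ χ : ℝ) * (1 - ((χ a : ℂˣ) : ℂ).re) = 0 := by
    simp only [mul_sub, mul_one, Finset.sum_sub_distrib]
    rw [← h3, sub_self]
  have h5 : ∀ χ ∈ (Finset.univ : Finset (A →* ℂˣ)),
      0 ≤ (mult h φ χ : ℝ) * (1 - ((χ a : ℂˣ) : ℂ).re) := by
    intro χ _
    have : ((χ a : ℂˣ) : ℂ).re ≤ 1 := by
      calc ((χ a : ℂˣ) : ℂ).re ≤ ‖((χ a : ℂˣ) : ℂ)‖ := Complex.re_le_norm _
        _ = 1 := norm_char _ _
    exact mul_nonneg (Nat.cast_nonneg _) (by linarith)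
  have h6 := (Finset.sum_eq_zero_iff_of_nonneg h5).1 h4 κ (Finset.mem_univ _)
  have h7 : (mult h φ κ : ℝ) ≠ 0 := by exact_mod_cast hκ
  have h8 : ((κ a : ℂˣ) : ℂ).re = 1 := by
    rcases mul_eq_zero.1 h6 with h' | h'
    · exact absurd h' h7
    · linarith
  have h9 := norm_char κ a
  have h10 : ((κ a : ℂˣ) : ℂ).im = 0 := by
    have := Complex.sq_norm ((κ a : ℂˣ) : ℂ)
    rw [h9, Complex.normSq_apply, h8] at this
    nlinarith
  apply Units.ext
  apply Complex.ext
  · simpa using h8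
  · simpa using h10

/-- Coefficients are nonzero only along characters trivial on periods. -/
theorem coef_shift {A : Type*} [CommGroup A] [Fintype A] (f : A → ℂ) (d : A)
    (hf : ∀ e, f (d * e) = f e) (κ : A →* ℂˣ) (hκ : coef f κ ≠ 0) : κ d = 1 := by
  have h1 : ∑ b : A, f b * (((κ b)⁻¹ : ℂˣ) : ℂ)
      = (((κ d)⁻¹ : ℂˣ) : ℂ) * ∑ b : A, f b * (((κ b)⁻¹ : ℂˣ) : ℂ) := by
    conv_lhs => rw [← Equiv.sum_comp (Equiv.mulLeft d)]
    rw [Finset.mul_sum]
    refine Finset.sum_congr rfl fun b _ => ?_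
    simp only [Equiv.coe_mulLeft, map_mul, mul_inv, Units.val_mul, hf]
    ring
  have h2 : ∑ b : A, f b * (((κ b)⁻¹ : ℂˣ) : ℂ) ≠ 0 := by
    intro h3
    apply hκ
    unfold coef
    rw [h3, zero_div]
  have h3 : (((κ d)⁻¹ : ℂˣ) : ℂ) = 1 := by
    have : ((((κ d)⁻¹ : ℂˣ) : ℂ) - 1) * ∑ b : A, f b * (((κ b)⁻¹ : ℂˣ) : ℂ) = 0 := by
      rw [sub_mul, one_mul, ← h1, sub_self]
    rcases mul_eq_zero.1 this with h' | h'
    · exact sub_eq_zero.1 h'
    · exact absurd h' h2
  have h4 : (κ d)⁻¹ = 1 := Units.ext h3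
  exact inv_eq_one.1 h4

section twisted

variable {E C : Type} [CommGroup E] [Fintype E] [CommGroup C] [Fintype C]

/-- The coefficient function along a commutative group normalising `E` is a genuine character. -/
theorem twisted (h : Heil θ) (φ : E →* G) (γ : C →* G) (ρ : C →* MulAut E)
    (hρ : ∀ c e, γ c * φ e * (γ c)⁻¹ = φ (ρ c e)) (κ : E →* ℂˣ)
    (hκ : ∀ c e, κ (ρ c e) = κ e) :
    ∃ m : (C →* ℂˣ) → ℕ, ∀ c, coef (fun e => θ (φ e * γ c)) κ
      = ∑ χ : C →* ℂˣ, (m χ : ℂ) * ((χ c : ℂˣ) : ℂ) := by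
  classical
  let _ : Fintype (E ⋊[ρ] C) := Fintype.ofEquiv _ (SemidirectProduct.equivProd).symm
  let Φ : (E ⋊[ρ] C) →* G := SemidirectProduct.lift φ γ (by
    intro c
    ext e
    simp only [MonoidHom.comp_apply, MulEquiv.coe_toMonoidHom, MulAut.conj_apply]
    exact (hρ c e).symm)
  let Ψ : (C →* ℂˣ) → ((E ⋊[ρ] C) →* ℂˣ) := fun χ => SemidirectProduct.lift κ χ (by
    intro c
    ext e
    simp only [MonoidHom.comp_apply, MulEquiv.coe_toMonoidHom, MulAut.conj_apply]
    rw [hκ, mul_comm (χ c), mul_assoc, mul_inv_cancel, mul_one])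
  refine ⟨fun χ => (h.coeff _ Φ (Ψ χ)).choose, fun c => ?_⟩
  have key : ∀ χ : C →* ℂˣ, coef (fun c => coef (fun e => θ (φ e * γ c)) κ) χ
      = ((h.coeff _ Φ (Ψ χ)).choose : ℂ) := by
    intro χ
    have hs := (h.coeff _ Φ (Ψ χ)).choose_spec
    generalize (h.coeff _ Φ (Ψ χ)).choose = mm at hs ⊢
    have hcard : (Fintype.card (E ⋊[ρ] C) : ℂ) = (Fintype.card E : ℂ) * (Fintype.card C : ℂ) := by
      rw [← Nat.card_eq_fintype_card, SemidirectProduct.card, Nat.card_eq_fintype_card,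
        Nat.card_eq_fintype_card]
      push_cast
      ring
    have hsum : ∑ k : E ⋊[ρ] C, θ (Φ k) * (((Ψ χ k)⁻¹ : ℂˣ) : ℂ)
        = ∑ c : C, ∑ e : E, θ (φ e * γ c) * ((((κ e)⁻¹ : ℂˣ) : ℂ) * (((χ c)⁻¹ : ℂˣ) : ℂ)) := by
      rw [← Equiv.sum_comp (SemidirectProduct.equivProd (φ := ρ)).symm, Fintype.sum_prod_type,
        Finset.sum_comm]
      refine Finset.sum_congr rfl fun c _ => Finset.sum_congr rfl fun e _ => ?_
      have h1 : Φ ((SemidirectProduct.equivProd (φ := ρ)).symm (e, c)) = φ e * γ c := rfl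
      have h2 : Ψ χ ((SemidirectProduct.equivProd (φ := ρ)).symm (e, c)) = κ e * χ c := rfl
      rw [h1, h2, mul_inv, Units.val_mul]
    rw [hsum, hcard] at hs
    have e1 : (Fintype.card E : ℂ) ≠ 0 := card_ne_zero'
    have e2 : (Fintype.card C : ℂ) ≠ 0 := card_ne_zero'
    unfold coef
    rw [div_eq_iff e2]
    simp_rw [div_mul_eq_mul_div]
    rw [← Finset.sum_div, div_eq_iff e1]
    simp_rw [Finset.sum_mul]
    rw [mul_right_comm, mul_assoc, ← hs]
    refine Finset.sum_congr rfl fun c _ => Finset.sum_congr rfl fun e _ => ?_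
    ring
  have := inversion (fun c => coef (fun e => θ (φ e * γ c)) κ) c
  simp_rw [key] at this
  exact this

end twisted

instance mulAut_finite {E : Type*} [Group E] [Finite E] : Finite (MulAut E) :=
  Finite.of_injective (fun σ : MulAut E => (σ : E → E)) DFunLike.coe_injective

section key

variable [Finite G] {E : Type} [CommGroup E] [Fintype E]

/-- Key lemma: a twisted coefficient is bounded by the multiplicity. -/
theorem norm_coef_le (h : Heil θ) (φ : E →* G) (g : G) (σ : MulAut E)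
    (hσ : ∀ e, g * φ e * g⁻¹ = φ (σ e)) (κ : E →* ℂˣ) :
    ‖coef (fun e => θ (φ e * g)) κ‖ ≤ mult h φ κ := by
  classical
  by_cases h0 : coef (fun e => θ (φ e * g)) κ = 0
  · rw [h0, norm_zero]
    exact Nat.cast_nonneg _
  -- invariance
  have hinv : ∀ e, κ (σ e) = κ e := by
    intro e
    have hs := coef_shift (fun e => θ (φ e * g)) (e * (σ e)⁻¹) (fun e' => by
      have h1 : φ (e * (σ e)⁻¹ * e') * g = φ e * (φ e' * g) * (φ e)⁻¹ := by
        have h2 : g * (φ e)⁻¹ = (φ (σ e))⁻¹ * g := by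
          rw [← hσ e]; group
        have h3 : e * (σ e)⁻¹ * e' = e * e' * (σ e)⁻¹ := by
          rw [mul_right_comm]
        rw [h3, map_mul, map_mul, map_inv, mul_assoc, ← h2]
        group
      rw [h1, h.conj]) κ h0
    rw [map_mul, map_inv, mul_inv_eq_one] at hs
    exact hs.symm
  let C : Subgroup (G × MulAut E) := Subgroup.zpowers (g, σ)
  have : Finite C := inferInstance
  let _ : Fintype C := Fintype.ofFinite C
  let _ : CommGroup C := { (inferInstance : Group C) with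
    mul_comm := fun a b => by
      obtain ⟨a, i, rfl⟩ := a
      obtain ⟨b, j, rfl⟩ := b
      apply Subtype.ext
      simp only [Subgroup.coe_mul]
      rw [← zpow_add, ← zpow_add, add_comm] }
  let γ : C →* G := (MonoidHom.fst G (MulAut E)).comp C.subtype
  let ρ : C →* MulAut E := (MonoidHom.snd G (MulAut E)).comp C.subtype
  have hrel : ∀ c : C, (∀ e, γ c * φ e * (γ c)⁻¹ = φ (ρ c e)) ∧ ∀ e, κ (ρ c e) = κ e := by
    let S : Subgroup (G × MulAut E) :=
      { carrier := {p | (∀ e, p.1 * φ e * p.1⁻¹ = φ (p.2 e)) ∧ ∀ e, κ (p.2 e) = κ e}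
        mul_mem' := by
          rintro a b ⟨ha1, ha2⟩ ⟨hb1, hb2⟩
          refine ⟨fun e => ?_, fun e => ?_⟩
          · rw [Prod.fst_mul, Prod.snd_mul, MulAut.mul_apply, ← ha1, ← hb1]
            group
          · rw [Prod.snd_mul, MulAut.mul_apply, ha2, hb2]
        one_mem' := by
          refine ⟨fun e => ?_, fun e => ?_⟩
          · simp
          · simp
        inv_mem' := by
          rintro a ⟨ha1, ha2⟩
          refine ⟨fun e => ?_, fun e => ?_⟩
          · have := ha1 (a⁻¹.2 e)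
            have h2 : a.2 (a⁻¹.2 e) = e := by
              rw [Prod.snd_inv, MulAut.apply_inv_self]
            rw [h2] at this
            rw [← this, Prod.fst_inv]
            group
          · have := ha2 (a⁻¹.2 e)
            have h2 : a.2 (a⁻¹.2 e) = e := by
              rw [Prod.snd_inv, MulAut.apply_inv_self]
            rw [h2] at this
            exact this.symm }
    have hle : C ≤ S := by
      rw [Subgroup.zpowers_le]
      exact ⟨hσ, hinv⟩
    intro c
    exact hle c.2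
  obtain ⟨m, hm⟩ := twisted h φ γ ρ (fun c e => (hrel c).1 e) κ (fun c e => (hrel c).2 e)
  have hg : coef (fun e => θ (φ e * g)) κ = ∑ χ : C →* ℂˣ, (m χ : ℂ)
      * ((χ ⟨(g, σ), Subgroup.mem_zpowers _⟩ : ℂˣ) : ℂ) := hm ⟨(g, σ), Subgroup.mem_zpowers _⟩
  have h1 : (mult h φ κ : ℂ) = ∑ χ : C →* ℂˣ, (m χ : ℂ) := by
    have := hm 1
    simp only [map_one, mul_one, Units.val_one] at this
    rw [← mult_spec, this]
  have h2 : (mult h φ κ : ℝ) = ∑ χ : C →* ℂˣ, (m χ : ℝ) := by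
    exact_mod_cast h1
  rw [hg, h2]
  refine (norm_sum_le _ _).trans (Finset.sum_le_sum fun χ _ => ?_)
  rw [norm_mul, norm_char, mul_one, Complex.norm_natCast]

theorem coef_ne_zero_inv (h : Heil θ) (φ : E →* G) (g : G) (σ : MulAut E)
    (hσ : ∀ e, g * φ e * g⁻¹ = φ (σ e)) (κ : E →* ℂˣ)
    (h0 : coef (fun e => θ (φ e * g)) κ ≠ 0) : ∀ e, κ (σ e) = κ e := by
  intro e
  have hs := coef_shift (fun e => θ (φ e * g)) (e * (σ e)⁻¹) (fun e' => by
    have h1 : φ (e * (σ e)⁻¹ * e') * g = φ e * (φ e' * g) * (φ e)⁻¹ := by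
      have h2 : g * (φ e)⁻¹ = (φ (σ e))⁻¹ * g := by
        rw [← hσ e]; group
      have h3 : e * (σ e)⁻¹ * e' = e * e' * (σ e)⁻¹ := by
        rw [mul_right_comm]
      rw [h3, map_mul, map_mul, map_inv, mul_assoc, ← h2]
      group
    rw [h1, h.conj]) κ h0
  rw [map_mul, map_inv, mul_inv_eq_one] at hs
  exact hs.symm

/-- Splitting lemma. -/
theorem split (h : Heil θ) (φ : E →* G) (g : G) (σ : MulAut E)
    (hσ : ∀ e, g * φ e * g⁻¹ = φ (σ e)) (z : E)
    (hz : ∀ κ : E →* ℂˣ, mult h φ κ ≠ 0 → (∀ e, κ (σ e) = κ e) → κ z = 1) (e : E) :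
    θ (φ (e * z) * g) = θ (φ e * g) := by
  have h1 := inversion (fun e => θ (φ e * g)) (e * z)
  have h2 := inversion (fun e => θ (φ e * g)) e
  rw [h1, h2]
  refine Finset.sum_congr rfl fun κ _ => ?_
  by_cases h0 : coef (fun e => θ (φ e * g)) κ = 0
  · rw [h0, zero_mul, zero_mul]
  · have h3 := norm_coef_le h φ g σ hσ κ
    have h4 : mult h φ κ ≠ 0 := by
      intro h5
      rw [h5, Nat.cast_zero] at h3
      exact h0 (norm_le_zero_iff.1 h3)
    rw [map_mul, hz κ h4 (coef_ne_zero_inv h φ g σ hσ κ h0), mul_one]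

/-- Semidirect bound. -/
theorem norm_le_mult_one (h : Heil θ) (φ : E →* G) (g : G) (σ : MulAut E)
    (hσ : ∀ e, g * φ e * g⁻¹ = φ (σ e)) (hc : ∀ e, θ (φ e * g) = θ g) :
    ‖θ g‖ ≤ mult h φ 1 := by
  have h1 := norm_coef_le h φ g σ hσ 1
  have h2 : coef (fun e => θ (φ e * g)) (1 : E →* ℂˣ) = θ g := by
    unfold coef
    simp only [hc, MonoidHom.one_apply, inv_one, Units.val_one, mul_one, sum_const, card_univ,
      nsmul_eq_mul]
    field_simp [card_ne_zero' (A := E)]
  rwa [h2] at h1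

end key

end Pool.Agent.H7.HB
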