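import Pool.Agent.H7.Heil.Invol

/-!
Case one: even involutions are in the kernel.
-/

open Finset Equiv Equiv.Perm

namespace Pool.Agent.H7.HB

set_option linter.unusedSectionVars false

theorem of_mult_one {G : Type} [Group G] {θ : G → ℂ} (h : Heil θ) {A : Type} [CommGroup A]
    [Fintype A] (φ : A →* G) {r : ℕ} (hr : θ 1 = r) (hm : r ≤ mult h φ 1) (a : A) :
    θ (φ a) = r := by
  classical
  have h1 := sum_mult h φ
  rw [hr] at h1
  have h2 : r = ∑ κ : A →* ℂˣ, mult h φ κ := by exact_mod_cast h1
  have h3 : ∀ κ : A →* ℂˣ, κ ≠ 1 → mult h φ κ = 0 := by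
    intro κ hκ
    have h4 : mult h φ κ + mult h φ 1 ≤ ∑ κ : A →* ℂˣ, mult h φ κ := by
      rw [← Finset.sum_pair hκ]
      exact Finset.sum_le_sum_of_subset (Finset.subset_univ _)
    omega
  have h4 : mult h φ 1 = r := by
    rw [h2]
    exact (Finset.sum_eq_single 1 (fun κ _ hκ => h3 κ hκ)
      (fun h => absurd (Finset.mem_univ _) h)).symm
  rw [expand h φ a, Finset.sum_eq_single 1 (fun κ _ hκ => by rw [h3 κ hκ]; simp)
    (fun h => absurd (Finset.mem_univ _) h), h4]
  simp

/-- multiplication by a unit as an automorphism of `Multiplicative (ZMod q)` -/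
def mulA {q : ℕ} (a : (ZMod q)ˣ) : MulAut (Multiplicative (ZMod q)) :=
  AddEquiv.toMultiplicative
    { toFun := fun e => a * e
      invFun := fun e => (a⁻¹ : (ZMod q)ˣ) * e
      left_inv := by intro e; simp
      right_inv := by intro e; simp
      map_add' := by intro x y; rw [mul_add] }

theorem mulA_apply {q : ℕ} (a : (ZMod q)ˣ) (e : Multiplicative (ZMod q)) :
    mulA a e = Multiplicative.ofAdd ((a : ZMod q) * e.toAdd) := rfl

/-- A cyclic group of prime order normalised with a nontrivial action by a kernel element. -/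
theorem cyclic_core {G : Type} [Group G] [Finite G] {θ : G → ℂ} (h : Heil θ) {r : ℕ}
    (hr : θ 1 = r) {q : ℕ} [Fact q.Prime] (φ : Multiplicative (ZMod q) →* G) (s : G)
    (a : (ZMod q)ˣ) (ha : a ≠ 1) (hs : ∀ e, s * φ e * s⁻¹ = φ (mulA a e)) (hθ : θ s = r)
    (e : Multiplicative (ZMod q)) : θ (φ e) = r := by
  have h1 : ∀ (κ : Multiplicative (ZMod q) →* ℂˣ), (∀ e, κ (mulA a e) = κ e) → ∀ e, κ e = 1 := by
    intro κ hκ e
    have ha' : (a : ZMod q) - 1 ≠ 0 := by
      intro h'
      exact ha (Units.ext (sub_eq_zero.1 h'))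
    have h2 := hκ (Multiplicative.ofAdd (((a : ZMod q) - 1)⁻¹ * e.toAdd))
    rw [mulA_apply, toAdd_ofAdd, ← div_eq_one, ← map_div, ← ofAdd_sub] at h2
    have h3 : (a : ZMod q) * (((a : ZMod q) - 1)⁻¹ * e.toAdd) - ((a : ZMod q) - 1)⁻¹ * e.toAdd
        = e.toAdd := by
      field_simp
    rw [h3] at h2
    exact h2
  have h2 : ∀ e, θ (φ e * s) = θ s := by
    intro e
    have := split h φ s (mulA a) hs e (fun κ _ hκ => h1 κ hκ e) 1
    rwa [one_mul, map_one, one_mul] at this
  have h3 := norm_le_mult_one h φ s (mulA a) hs h2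
  rw [hθ, Complex.norm_natCast] at h3
  exact of_mult_one h φ hr (by exact_mod_cast h3) e

variable {α : Type} [Fintype α] [DecidableEq α]

theorem N_conj (g c : Perm α) : N (c * g * c⁻¹) = N g := by
  unfold N
  refine Finset.card_bij (fun p _ => (c⁻¹ p.1, c⁻¹ p.2)) ?_ ?_ ?_
  · intro p hp
    simp only [mem_filter, mem_univ, true_and] at hp ⊢
    exact sameCycle_conj.1 hp
  · intro p _ p' _ hpp
    rw [Prod.mk.injEq] at hpp
    exact Prod.ext (c⁻¹.injective hpp.1) (c⁻¹.injective hpp.2)
  · intro p hp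
    simp only [mem_filter, mem_univ, true_and] at hp
    refine ⟨(c p.1, c p.2), ?_, ?_⟩
    · simp only [mem_filter, mem_univ, true_and]
      rw [sameCycle_conj, inv_ap, inv_ap]
      exact hp
    · simp only [inv_ap]

theorem N_isConj {g g' : Perm α} (h : IsConj g g') : N g = N g' := by
  obtain ⟨c, hc⟩ := isConj_iff.1 h
  rw [← hc, N_conj]

theorem cyc_N {g : Perm α} {x : α} {q m : ℕ} (hm : 0 < m) (h : HasPer g x (q * m))
    (hne : cyc g m x ≠ g) : N (cyc g m x) < N g := by
  have hstab : cyc g m x ∈ Stab (g ^ m) := by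
    have := cyc_mem_stab (g ^ m) 1 x
    unfold cyc at this ⊢
    rwa [pow_one] at this
  rcases Nat.lt_or_ge 1 m with hm1 | hm1
  · refine N_lt (a := x) (b := g x) (cyc_mem_stab _ _ _) (sameCycle_apply_right.2
      (SameCycle.refl _ _)) ?_
    intro h1
    have h2 := not_sameCycle_of h (i := 1) (by
      intro h'
      have h'' : m ∣ 1 := by exact_mod_cast h'
      have := Nat.le_of_dvd one_pos h''
      omega)
    rw [zpow_one] at h2
    exact h2 (sameCycle_of_stab hstab h1)
  · have hm' : m = 1 := by omega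
    subst hm'
    obtain ⟨y, hy⟩ : ∃ y, cyc g 1 x y ≠ g y := by
      by_contra hcon
      push Not at hcon
      exact hne (Equiv.ext hcon)
    have h1 : ¬ g.SameCycle x y := by
      intro h2
      apply hy
      unfold cyc
      rw [pow_one, h2.cycleOf_apply]
    have h3 : cyc g 1 x y = y := by
      unfold cyc
      rw [pow_one, cycleOf_apply_of_not_sameCycle h1]
    rw [h3] at hy
    refine N_lt (a := y) (b := g y) (cyc_mem_stab _ _ _) (sameCycle_apply_right.2
      (SameCycle.refl _ _)) ?_
    intro h4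
    exact hy (h4.eq_of_left h3)

/-- an odd permutation has a point of even period -/
theorem exists_even_per {g : Perm α} (hg : sign g ≠ 1) : ∃ x m, 0 < m ∧ HasPer g x (2 * m) := by
  by_contra hcon
  push Not at hcon
  choose l hl using exists_per g
  have hodd : ∀ x, Odd (l x) := by
    intro x
    rw [← Nat.not_even_iff_odd]
    rintro ⟨m, hm⟩
    have h1 := hl x
    have h2 : 0 < m := by
      have := h1.1
      omega
    exact hcon x m h2 (by rw [two_mul, ← hm]; exact h1)
  have hu : Odd (∏ x, l x) := by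
    rw [← Nat.not_even_iff_odd]
    intro h2
    have h3 := (Nat.prime_two.prime.dvd_finsetProd_iff l).1 h2.two_dvd
    obtain ⟨x, _, hx⟩ := h3
    have := hodd x
    rw [← Nat.not_even_iff_odd] at this
    exact this (even_iff_two_dvd.2 hx)
  have hpow : g ^ (∏ x, l x) = 1 := by
    ext x
    rw [one_apply]
    have := ((hl x).2 ((∏ x, l x : ℕ) : ℤ)).2 (by
      exact_mod_cast Finset.dvd_prod_of_mem l (Finset.mem_univ x))
    rwa [zpow_natCast] at this
  have h1 : (sign g) ^ (∏ x, l x) = 1 := by
    rw [← map_pow, hpow, map_one]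
  rcases Int.units_eq_one_or (sign g) with h2 | h2
  · exact hg h2
  · rw [h2, hu.neg_one_pow] at h1
    exact absurd h1 (by decide)

/-- a cycle of odd prime order is even -/
theorem sign_of_order_odd {z : Perm α} {q : ℕ} (hq : Odd q) (hz : z ^ q = 1) : sign z = 1 := by
  have h1 : (sign z) ^ q = 1 := by rw [← map_pow, hz, map_one]
  rcases Int.units_eq_one_or (sign z) with h2 | h2
  · exact h2
  · rw [h2, hq.neg_one_pow] at h1
    exact absurd h1 (by decide)

/-- translation by elements of `ZMod q`, as permutations of `α` -/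
noncomputable def rot {q : ℕ} (ι : ZMod q ↪ α) : Multiplicative (ZMod q) →* Perm α :=
  (viaEmbeddingHom ι).comp
    { toFun := fun e => Equiv.addRight e.toAdd
      map_one' := by ext; simp
      map_mul' := by
        intro a b
        ext c
        simp only [toAdd_mul, coe_addRight, mul_apply]
        rw [add_comm a.toAdd, add_assoc] }

theorem rot_eq {q : ℕ} (ι : ZMod q ↪ α) (e : Multiplicative (ZMod q)) :
    rot ι e = viaEmbeddingHom ι (Equiv.addRight e.toAdd) := rfl

theorem rot_card {q : ℕ} [NeZero q] (ι : ZMod q ↪ α) (e : Multiplicative (ZMod q)) (he : e ≠ 1) :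
    #(rot ι e).support = q := by
  rw [rot_eq, via_card]
  have : (Equiv.addRight e.toAdd : Perm (ZMod q)).support = univ := by
    ext i
    simp only [mem_support, coe_addRight, ne_eq, add_eq_left, mem_univ, iff_true]
    intro h
    exact he (Multiplicative.toAdd.injective h)
  rw [this, card_univ, ZMod.card]

/-- units acting on `ZMod q` -/
def mulPerm {q : ℕ} (a : (ZMod q)ˣ) : Perm (ZMod q) where
  toFun e := a * e
  invFun e := (a⁻¹ : (ZMod q)ˣ) * e
  left_inv := by intro e; simp
  right_inv := by intro e; simp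

theorem mulPerm_conj {q : ℕ} (ι : ZMod q ↪ α) (a : (ZMod q)ˣ) (e : Multiplicative (ZMod q)) :
    viaEmbeddingHom ι (mulPerm a) * rot ι e * (viaEmbeddingHom ι (mulPerm a))⁻¹
      = rot ι (mulA a e) := by
  rw [rot_eq, rot_eq, ← map_mul, ← map_inv, ← map_mul]
  congr 1
  rw [mul_inv_eq_iff_eq_mul]
  ext i
  simp only [mul_apply, coe_addRight, mulPerm, coe_fn_mk, mulA_apply, toAdd_ofAdd]
  rw [mul_add]

theorem rot_sameCycle {q : ℕ} [NeZero q] (ι : ZMod q ↪ α) (i j : ZMod q) :
    (rot ι (Multiplicative.ofAdd 1)).SameCycle (ι i) (ι j) := by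
  refine ⟨((j - i).val : ℤ), ?_⟩
  rw [zpow_natCast, ← map_pow, ← ofAdd_nsmul, rot_eq, viaEmbeddingHom_apply, viaEmbedding_apply]
  simp

theorem cyc_disjoint (g : Perm α) (m m' : ℕ) {x x' : α} (h : ¬ g.SameCycle x x') :
    Disjoint (cyc g m x) (cyc g m' x') := by
  intro w
  by_cases hw : g.SameCycle x w
  · right
    exact cycleOf_apply_of_not_sameCycle (fun h' => h (hw.trans h'.of_pow.symm))
  · left
    exact cycleOf_apply_of_not_sameCycle (fun h' => hw h'.of_pow)

theorem cyc_sign_two {g : Perm α} {x : α} {m : ℕ} (hm : 0 < m) (h : HasPer g x (2 * m)) :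
    sign (cyc g m x) = -1 := by
  rw [(cyc_isCycle one_lt_two hm h).sign, cyc_card Nat.prime_two hm h]
  decide

theorem unit_two (q : ℕ) [Fact q.Prime] (hq : q ≠ 2) : ∃ u : (ZMod q)ˣ, (u : ZMod q) = 2 := by
  have h2 : (2 : ZMod q) ≠ 0 := by
    intro h
    have : ((2 : ℕ) : ZMod q) = 0 := by exact_mod_cast h
    rw [ZMod.natCast_eq_zero_iff] at this
    have hq2 : q ∣ 2 := this
    have := (Nat.prime_dvd_prime_iff_eq (Fact.out (p := q.Prime)) Nat.prime_two).1 hq2
    exact hq this
  exact ⟨Units.mk0 2 h2, rfl⟩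

theorem neg_three_swap : (mulPerm (-1) : Perm (ZMod 3)) = swap 1 2 := by
  ext i
  revert i
  decide

theorem neg_three_sign : sign (mulPerm (-1) : Perm (ZMod 3)) = -1 := by
  rw [neg_three_swap, sign_swap (by decide)]

theorem neg_three_ne : (-1 : (ZMod 3)ˣ) ≠ 1 := by decide

theorem mulPerm_mul {q : ℕ} (a b : (ZMod q)ˣ) : mulPerm (a * b) = mulPerm a * mulPerm b := by
  ext i
  simp only [mulPerm, coe_fn_mk, mul_apply, Units.val_mul, mul_assoc]

theorem mulPerm_zero {q : ℕ} (a : (ZMod q)ˣ) : mulPerm a 0 = 0 := by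
  simp only [mulPerm, coe_fn_mk, mul_zero]

section main

variable {θ : Perm α → ℂ}

/-- three-cycles -/
theorem three_cycle (h : Heil θ) {r : ℕ} (hr : θ 1 = r) (hn : 10 ≤ Fintype.card α)
    (hinv : ∀ x : Perm α, x ^ 2 = 1 → sign x = 1 → θ x = r) (ι : ZMod 3 ↪ α)
    (e : Multiplicative (ZMod 3)) : θ (rot ι e) = r := by
  classical
  have : Fact (Nat.Prime 3) := ⟨Nat.prime_three⟩
  -- two further points
  let S : Finset α := univ.map ι
  have hS : #S = 3 := by simp [S, ZMod.card]
  obtain ⟨u, v, huv, hu, hv⟩ : ∃ u v : α, u ≠ v ∧ u ∉ Set.range ι ∧ v ∉ Set.range ι := by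
    have h1 : 1 < #Sᶜ := by rw [card_compl, hS]; omega
    obtain ⟨u, hu, v, hv, huv⟩ := Finset.one_lt_card.1 h1
    refine ⟨u, v, huv, ?_, ?_⟩
    · rintro ⟨i, rfl⟩
      exact (mem_compl.1 hu) (mem_map_of_mem _ (mem_univ i))
    · rintro ⟨i, rfl⟩
      exact (mem_compl.1 hv) (mem_map_of_mem _ (mem_univ i))
  have hdisj : ∀ y : Perm (ZMod 3), Commute (swap u v) (viaEmbeddingHom ι y) := by
    intro y
    apply Disjoint.commute
    intro w
    by_cases hw : w ∈ Set.range ι
    · left
      apply swap_apply_of_ne_of_ne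
      · rintro rfl; exact hu hw
      · rintro rfl; exact hv hw
    · right
      rw [viaEmbeddingHom_apply]
      exact viaEmbedding_apply_of_notMem _ _ _ hw
  let s : Perm α := viaEmbeddingHom ι (mulPerm (-1)) * swap u v
  have hm2 : (mulPerm (-1) : Perm (ZMod 3)) ^ 2 = 1 := by
    ext i
    simp [mulPerm, pow_two]
  have hs2 : s ^ 2 = 1 := by
    change (viaEmbeddingHom ι (mulPerm (-1)) * swap u v) ^ 2 = 1
    rw [(hdisj _).symm.mul_pow, ← map_pow, hm2, map_one, one_mul, pow_two, swap_mul_self]
  have hss : sign s = 1 := by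
    change sign (viaEmbeddingHom ι (mulPerm (-1)) * swap u v) = 1
    rw [Perm.sign_mul, via_sign, neg_three_sign, sign_swap huv]
    decide
  refine cyclic_core h hr (rot ι) s (-1) neg_three_ne (fun e => ?_) (hinv s hs2 hss) e
  change (viaEmbeddingHom ι (mulPerm (-1)) * swap u v) * rot ι e
    * (viaEmbeddingHom ι (mulPerm (-1)) * swap u v)⁻¹ = _
  have h1 : swap u v * rot ι e * (swap u v)⁻¹ = rot ι e := by
    rw [mul_inv_eq_iff_eq_mul]
    exact hdisj _
  rw [← mulPerm_conj]
  calc (viaEmbeddingHom ι (mulPerm (-1)) * swap u v) * rot ι e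
      * (viaEmbeddingHom ι (mulPerm (-1)) * swap u v)⁻¹
      = viaEmbeddingHom ι (mulPerm (-1)) * (swap u v * rot ι e * (swap u v)⁻¹)
        * (viaEmbeddingHom ι (mulPerm (-1)))⁻¹ := by group
    _ = _ := by rw [h1]

theorem case_one_even (h : Heil θ) {r : ℕ} (hr : θ 1 = r) (hn : 10 ≤ Fintype.card α)
    (hinv : ∀ x : Perm α, x ^ 2 = 1 → sign x = 1 → θ x = r) (g : Perm α) (hg : sign g = 1) :
    θ g = r := by
  classical
  induction hN : N g using Nat.strong_induction_on generalizing g with
  | _ N0 ih =>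
  subst hN
  have IH : ∀ y : Perm α, N y < N g → sign y = 1 → θ y = r := fun y hy hs => ih _ hy y hs rfl
  by_cases hA : ∃ (x : α) (q m : ℕ), q.Prime ∧ q ≠ 2 ∧ 0 < m ∧ HasPer g x (q * m)
  · obtain ⟨x, q, m, hq, hq2, hm, hper⟩ := hA
    have hqo : Odd q := hq.odd_of_ne_two hq2
    have hzs : sign (cyc g m x) = 1 := sign_of_order_odd hqo (cyc_pow hper)
    by_cases hz : cyc g m x = g
    · -- a single cycle of prime length
      have : Fact q.Prime := ⟨hq⟩
      have hgq : g ^ q = 1 := by rw [← hz]; exact cyc_pow hper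
      have hgc : #g.support = q := by rw [← hz]; exact cyc_card hq hm hper
      have hqn : q ≤ Fintype.card α := by rw [← hgc]; exact Finset.card_le_univ _
      have hemb : Fintype.card (ZMod q) ≤ Fintype.card α := by rw [ZMod.card]; exact hqn
      obtain ⟨ι⟩ := Function.Embedding.nonempty_of_card_le hemb
      have h1ne : (Multiplicative.ofAdd (1 : ZMod q)) ≠ 1 := by
        intro h'
        have : (1 : ZMod q) = 0 := Multiplicative.ofAdd.injective h'
        exact one_ne_zero this
      have hrq : (rot ι (Multiplicative.ofAdd 1)) ^ q = 1 := by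
        rw [← map_pow, ← ofAdd_nsmul]
        simp
      have hconj : IsConj g (rot ι (Multiplicative.ofAdd 1)) :=
        isConj_of_prime hq hgq hrq (by rw [hgc, rot_card ι _ h1ne])
      rw [h.of_isConj hconj]
      by_cases hq3 : q = 3
      · subst hq3
        exact three_cycle h hr hn hinv ι _
      · obtain ⟨u, hu⟩ := unit_two q hq2
        have hu2 : u * u ≠ 1 := by
          intro h'
          have h1 : (u : ZMod q) * (u : ZMod q) = 1 := by
            rw [← Units.val_mul, h', Units.val_one]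
          rw [hu] at h1
          have h3 : ((3 : ℕ) : ZMod q) = 0 := by
            push_cast
            linear_combination h1
          rw [ZMod.natCast_eq_zero_iff] at h3
          exact hq3 ((Nat.prime_dvd_prime_iff_eq hq Nat.prime_three).1 h3)
        let s : Perm α := viaEmbeddingHom ι (mulPerm (u * u))
        have hs : s = viaEmbeddingHom ι (mulPerm u) * viaEmbeddingHom ι (mulPerm u) := by
          change viaEmbeddingHom ι (mulPerm (u * u)) = _
          rw [← map_mul, mulPerm_mul]
        have hss : sign s = 1 := by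
          rw [hs, Perm.sign_mul]
          exact Int.units_mul_self _
        have hNs : N s < N g := by
          rw [N_isConj hconj]
          refine N_lt (a := ι 0) (b := ι 1) ?_ (rot_sameCycle ι 0 1) ?_
          · intro a
            by_cases ha : a ∈ Set.range ι
            · obtain ⟨i, rfl⟩ := ha
              change (rot ι (Multiplicative.ofAdd 1)).SameCycle (ι i)
                (viaEmbeddingHom ι (mulPerm (u * u)) (ι i))
              rw [viaEmbeddingHom_apply, viaEmbedding_apply]
              exact rot_sameCycle ι _ _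
            · change (rot ι (Multiplicative.ofAdd 1)).SameCycle a
                (viaEmbeddingHom ι (mulPerm (u * u)) a)
              rw [viaEmbeddingHom_apply, viaEmbedding_apply_of_notMem _ _ _ ha]
          · intro h'
            have h2 : s (ι 0) = ι 0 := by
              change viaEmbeddingHom ι (mulPerm (u * u)) (ι 0) = ι 0
              rw [viaEmbeddingHom_apply, viaEmbedding_apply, mulPerm_zero]
            have h3 := ι.injective (h'.eq_of_left h2)
            exact zero_ne_one h3
        exact cyclic_core h hr (rot ι) s (u * u) hu2 (fun e => mulPerm_conj ι _ e)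
          (IH s hNs hss) _
    · have h1 := IH _ (cyc_N hm hper hz) hzs
      have h2 := IH ((cyc g m x)⁻¹ * g) (cut_N hq.one_lt hm hper) (by
        rw [Perm.sign_mul, Perm.sign_inv, hzs, hg, one_mul])
      rw [← split_ker h g (cyc g m x) (fun i => cyc_commute g m x i) (by rw [h1, hr])]
      exact h2
  · push Not at hA
    by_cases hg1 : g = 1
    · rw [hg1, hr]
    have hper2 : ∀ x : α, g x ≠ x → ∃ m, 0 < m ∧ HasPer g x (2 * m) := by
      intro x hx
      obtain ⟨l, hl⟩ := exists_per g x
      have hl1 := hl.ne_one.1 hx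
      obtain ⟨q, hq, m, rfl⟩ := Nat.exists_prime_and_dvd hl1
      have hm : 0 < m := Nat.pos_of_mul_pos_left hl.1
      by_cases hq2 : q = 2
      · subst hq2
        exact ⟨m, hm, hl⟩
      · exact absurd hl (hA x q m hq hq2 hm)
    obtain ⟨x1, hx1⟩ : ∃ x, g x ≠ x := by
      by_contra hcon
      push Not at hcon
      exact hg1 (Equiv.ext hcon)
    obtain ⟨m1, hm1, hp1⟩ := hper2 x1 hx1
    obtain ⟨x2, hx2, hx12⟩ : ∃ x2, g x2 ≠ x2 ∧ ¬ g.SameCycle x1 x2 := by
      by_contra hcon
      push Not at hcon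
      have hcyc : g.IsCycle := ⟨x1, hx1, fun y hy => hcon y hy⟩
      have h1 := hcyc.sign
      have h2 : 2 ∣ #g.support := by
        rw [← hcyc.orderOf]
        exact dvd_trans (Dvd.intro _ rfl) (hp1.dvd_of_pow (pow_orderOf_eq_one g))
      rw [(even_iff_two_dvd.2 h2).neg_one_pow, hg] at h1
      exact absurd h1 (by decide)
    obtain ⟨m2, hm2, hp2⟩ := hper2 x2 hx2
    have hd12 := cyc_disjoint g m1 m2 hx12
    let z1 := cyc g m1 x1
    let z2 := cyc g m2 x2
    let z := z1 * z2
    have hz2 : z ^ 2 = 1 := by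
      change (z1 * z2) ^ 2 = 1
      rw [hd12.commute.mul_pow, cyc_pow hp1, cyc_pow hp2, one_mul]
    have hzs : sign z = 1 := by
      change sign (z1 * z2) = 1
      rw [Perm.sign_mul, cyc_sign_two hm1 hp1, cyc_sign_two hm2 hp2]
      decide
    have hzr : θ z = θ 1 := by rw [hinv z hz2 hzs, hr]
    have hcc : ∀ (a b : ℕ) (y y' : α) (i : ℤ), ¬ g.SameCycle y y' →
        Commute (cyc g a y) (cyc g b ((g ^ i) y')) := by
      intro a b y y' i hyy
      apply (cyc_disjoint g a b _).commute
      intro h'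
      exact hyy (sameCycle_zpow_right.1 h')
    have hcomm : ∀ i : ℤ, Commute z (g ^ i * z * g ^ (-i)) := by
      intro i
      have h1 : g ^ i * z * g ^ (-i) = cyc g m1 ((g ^ i) x1) * cyc g m2 ((g ^ i) x2) := by
        rw [← cyc_conj, ← cyc_conj]
        change g ^ i * (cyc g m1 x1 * cyc g m2 x2) * g ^ (-i) = _
        group
      rw [h1]
      apply Commute.mul_left
      · apply Commute.mul_right
        · exact cycleOf_commute _ _ _
        · exact hcc _ _ _ _ _ hx12
      · apply Commute.mul_right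
        · exact hcc _ _ _ _ _ (fun h' => hx12 h'.symm)
        · exact cycleOf_commute _ _ _
    have hzst : z ∈ Stab g := (Stab g).mul_mem (cyc_mem_stab _ _ _) (cyc_mem_stab _ _ _)
    have hNz : N (z⁻¹ * g) < N g := by
      refine N_lt (a := x1) (b := (g ^ m1) x1) ?_ (sameCycle_pow_right.2 (SameCycle.refl _ _)) ?_
      · exact (Stab g).mul_mem ((Stab g).inv_mem hzst) (self_mem_stab g)
      · intro hs
        apply cut_not_sameCycle one_lt_two hm1 hp1
        obtain ⟨i, hi⟩ := hs.exists_nat_pow_eq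
        have h1 : ∀ i : ℕ, ((z⁻¹ * g) ^ i) x1 = (((cyc g m1 x1)⁻¹ * g) ^ i) x1 := by
          intro i
          induction i with
          | zero => rfl
          | succ i ih' =>
            rw [pow_succ', mul_apply, ih', pow_succ' _ i, mul_apply _ (_ ^ i)]
            have h2 : z⁻¹ * g = z2⁻¹ * (z1⁻¹ * g) := by
              change (z1 * z2)⁻¹ * g = _
              rw [mul_inv_rev, mul_assoc]
            rw [h2, mul_apply, inv_eq_iff_eq]
            symm
            have h3 : g.SameCycle x1 ((z1⁻¹ * g) ((((cyc g m1 x1)⁻¹ * g) ^ i) x1)) := by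
              have h4 : z1⁻¹ * g ∈ Stab g :=
                (Stab g).mul_mem ((Stab g).inv_mem (cyc_mem_stab _ _ _)) (self_mem_stab g)
              exact ((Stab g).mul_mem h4 ((Stab g).pow_mem h4 i)) x1
            exact cycleOf_apply_of_not_sameCycle (fun h' => hx12 (h3.trans h'.of_pow.symm))
        rw [← hi, h1]
        exact ⟨i, by rw [zpow_natCast]⟩
    rw [← split_ker h g z hcomm hzr]
    exact IH _ hNz (by rw [Perm.sign_mul, Perm.sign_inv, hzs, hg, one_mul])

theorem case_one_odd (h : Heil θ) {r : ℕ} (hr : θ 1 = r) (hn : 10 ≤ Fintype.card α)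
    (hinv : ∀ x : Perm α, x ^ 2 = 1 → sign x = 1 → θ x = r) {g g' : Perm α}
    (hg : sign g = -1) (hg' : sign g' = -1) : θ g = θ g' := by
  have key : ∀ g : Perm α, sign g = -1 → ∃ z : Perm α, z ^ 2 = 1 ∧ #z.support = 2 ∧ θ g = θ z := by
    intro g hg
    obtain ⟨x, m, hm, hper⟩ := exists_even_per (g := g) (by rw [hg]; decide)
    refine ⟨cyc g m x, cyc_pow hper, cyc_card Nat.prime_two hm hper, ?_⟩
    refine split_ker' h g _ (fun i => cyc_commute g m x i) ?_
    rw [hr]
    apply case_one_even h hr hn hinv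
    rw [Perm.sign_mul, Perm.sign_inv, cyc_sign_two hm hper, hg]
    decide
  obtain ⟨z, hz1, hz2, hz3⟩ := key g hg
  obtain ⟨z', hz1', hz2', hz3'⟩ := key g' hg'
  rw [hz3, hz3']
  exact h.of_isConj (isConj_of_prime Nat.prime_two hz1 hz1' (by rw [hz2, hz2']))

end main

end Pool.Agent.H7.HB
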