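import Pool.Agent.H7.Heil.Sums

/-!
Case two: even involutions have value `r - #supp`.
-/

open Finset Equiv Equiv.Perm

namespace Pool.Agent.H7.HB

set_option linter.unusedSectionVars false

variable {α : Type} [Fintype α] [DecidableEq α]

/-- standing hypotheses of case two -/
structure Two (θ : Perm α → ℂ) (r : ℕ) : Prop where
  heil : Heil θ
  hr : θ 1 = r
  hn : 10 ≤ Fintype.card α
  inv : ∀ x : Perm α, x ^ 2 = 1 → sign x = 1 → θ x = (r : ℂ) - #x.support

theorem card_support_sumCongr {β γ : Type} [Fintype β] [DecidableEq β] [Fintype γ] [DecidableEq γ]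
    (x : Perm β) (y : Perm γ) : #(Perm.sumCongr x y).support = #x.support + #y.support := by
  have h1 : (Perm.sumCongr x y).support = x.support.disjSum y.support := by
    ext p
    rcases p with p | p
    · simp
    · simp
  rw [h1, card_disjSum]

/-- shift on `ZMod q × ZMod 2` -/
def hsh (q : ℕ) : Perm (ZMod q × ZMod 2) := Equiv.prodCongr (Equiv.addRight 1) (Equiv.refl _)

theorem hsh_apply (q : ℕ) (p : ZMod q × ZMod 2) : hsh q p = (p.1 + 1, p.2) := rfl

/-- shift automorphism of `ZMod q → ZMod 2` -/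
def shA (q : ℕ) : MulAut (Multiplicative (ZMod q → ZMod 2)) :=
  AddEquiv.toMultiplicative
    { toFun := fun e i => e (i - 1)
      invFun := fun e i => e (i + 1)
      left_inv := by intro e; ext i; simp
      right_inv := by intro e; ext i; simp
      map_add' := by intro x y; rfl }

theorem shA_apply (q : ℕ) (e : Multiplicative (ZMod q → ZMod 2)) (i : ZMod q) :
    (shA q e).toAdd i = e.toAdd (i - 1) := rfl

theorem hsh_conj (q : ℕ) (e : Multiplicative (ZMod q → ZMod 2)) :
    hsh q * tr (ZMod q) (ZMod 2) e * (hsh q)⁻¹ = tr (ZMod q) (ZMod 2) (shA q e) := by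
  rw [mul_inv_eq_iff_eq_mul]
  ext p
  · simp [tr_apply, hsh_apply]
  · simp [tr_apply, hsh_apply, shA_apply]

/-- difference homomorphism -/
def dA (q : ℕ) : Multiplicative (ZMod q → ZMod 2) →* Multiplicative (ZMod q → ZMod 2) where
  toFun e := e * (shA q e)⁻¹
  map_one' := by simp
  map_mul' := by
    intro a b
    rw [map_mul, mul_inv]
    exact mul_mul_mul_comm _ _ _ _

theorem dA_apply (q : ℕ) (e : Multiplicative (ZMod q → ZMod 2)) : dA q e = e * (shA q e)⁻¹ := rfl

theorem tr_dA_h (q : ℕ) (e : Multiplicative (ZMod q → ZMod 2)) :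
    tr (ZMod q) (ZMod 2) (dA q e) * hsh q
      = tr (ZMod q) (ZMod 2) e * hsh q * (tr (ZMod q) (ZMod 2) e)⁻¹ := by
  rw [dA_apply, map_mul, map_inv, ← hsh_conj]
  group

theorem hsh_pow (q : ℕ) : (hsh q) ^ q = 1 := by
  have : ∀ k : ℕ, ∀ p, ((hsh q) ^ k) p = (p.1 + k, p.2) := by
    intro k
    induction k with
    | zero => intro p; simp
    | succ k ih =>
      intro p
      rw [pow_succ', mul_apply, ih, hsh_apply]
      push_cast
      rw [add_assoc]
  ext p
  · rw [this]; simp
  · rw [this]; simp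

theorem hsh_support (q : ℕ) [Fact q.Prime] : #(hsh q).support = 2 * q := by
  have : (hsh q).support = univ := by
    ext p
    simp only [mem_support, hsh_apply, ne_eq, Prod.ext_iff, and_true, add_eq_left, one_ne_zero,
      not_false_eq_true, mem_univ]
  rw [this, card_univ, Fintype.card_prod, ZMod.card, ZMod.card, mul_comm]

section
variable {θ : Perm α → ℂ} {r : ℕ}

theorem two_cycles_ne (hT : Two θ r) {q : ℕ} [Fact q.Prime] (ι : ZMod q × ZMod 2 ↪ α) :
    θ (viaEmbeddingHom ι (hsh q)) ≠ r := by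
  intro heq
  have hprime : q.Prime := Fact.out
  let φ : Multiplicative (ZMod q → ZMod 2) →* Perm α :=
    (viaEmbeddingHom ι).comp ((tr (ZMod q) (ZMod 2)).comp (dA q))
  have hφ : ∀ e, φ e = viaEmbeddingHom ι (tr (ZMod q) (ZMod 2) (dA q e)) := fun _ => rfl
  have hσ : ∀ e, viaEmbeddingHom ι (hsh q) * φ e * (viaEmbeddingHom ι (hsh q))⁻¹
      = φ (shA q e) := by
    intro e
    rw [hφ, hφ, ← map_inv, ← map_mul, ← map_mul, hsh_conj, dA_apply, dA_apply, map_mul, map_inv]
  have hc : ∀ e, θ (φ e * viaEmbeddingHom ι (hsh q)) = θ (viaEmbeddingHom ι (hsh q)) := by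
    intro e
    rw [hφ, ← map_mul, tr_dA_h, map_mul, map_mul, map_inv, hT.heil.conj]
  have h1 := norm_le_mult_one hT.heil φ _ (shA q) hσ hc
  rw [heq, Complex.norm_natCast] at h1
  let e0 : Multiplicative (ZMod q → ZMod 2) := Multiplicative.ofAdd (Pi.single 0 1)
  have h2 := of_mult_one hT.heil φ hT.hr (by exact_mod_cast h1) e0
  have hsq : (φ e0) ^ 2 = 1 := by
    rw [← map_pow]
    have : e0 ^ 2 = 1 := by
      apply Multiplicative.toAdd.injective
      ext b
      rw [toAdd_pow, toAdd_one]
      simp only [Pi.smul_apply, Pi.zero_apply]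
      have h2 : ∀ i : ZMod 2, 2 • i = 0 := by decide
      exact h2 _
    rw [this, map_one]
  have hsign : sign (φ e0) = 1 := by
    rw [hφ, via_sign, dA_apply, map_mul, map_inv, ← hsh_conj, Perm.sign_mul, Perm.sign_inv,
      Perm.sign_mul, Perm.sign_mul, Perm.sign_inv]
    rcases Int.units_eq_one_or (sign (hsh q)) with h3 | h3 <;>
    rcases Int.units_eq_one_or (sign (tr (ZMod q) (ZMod 2) e0)) with h4 | h4 <;>
    rw [h3, h4] <;> decide
  have h3 := hT.inv _ hsq hsign
  rw [h2] at h3
  have h4 : (#(φ e0).support : ℂ) = 0 := by linear_combination h3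
  have h5 : #(φ e0).support = 0 := by exact_mod_cast h4
  rw [hφ, via_card, Finset.card_eq_zero, support_eq_empty_iff] at h5
  have h6 := congrArg (fun x : Perm (ZMod q × ZMod 2) => (x (0, 0)).2) h5
  simp only [tr_apply, one_apply, zero_add] at h6
  rw [dA_apply, toAdd_mul, toAdd_inv, Pi.add_apply, Pi.neg_apply, shA_apply] at h6
  have h7 : (0 : ZMod q) - 1 ≠ 0 := by simp
  simp only [e0, toAdd_ofAdd, Pi.single_eq_same, Pi.single_eq_of_ne h7] at h6
  exact absurd h6 (by decide)

end

/-! ### pairs of cycles -/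

/-- translations of `ZMod q` -/
def addP (q : ℕ) : Multiplicative (ZMod q) →* Perm (ZMod q) where
  toFun e := Equiv.addRight e.toAdd
  map_one' := by ext; simp
  map_mul' := by
    intro a b
    ext c
    simp only [toAdd_mul, coe_addRight, mul_apply]
    rw [add_comm a.toAdd, add_assoc]

theorem addP_apply (q : ℕ) (e : Multiplicative (ZMod q)) (i : ZMod q) :
    addP q e i = i + e.toAdd := rfl

theorem addP_card (q : ℕ) [NeZero q] {e : Multiplicative (ZMod q)} (he : e ≠ 1) :
    #(addP q e).support = q := by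
  have : (addP q e).support = univ := by
    ext i
    simp only [mem_support, addP_apply, ne_eq, add_eq_left, mem_univ, iff_true]
    intro h
    exact he (Multiplicative.toAdd.injective h)
  rw [this, card_univ, ZMod.card]

theorem mulZ_pow (q : ℕ) (e : Multiplicative (ZMod q)) : e ^ q = 1 := by
  apply Multiplicative.toAdd.injective
  rw [toAdd_pow, toAdd_one]
  simp

/-- two commuting cycles -/
noncomputable def pairP {q : ℕ} (ι : ZMod q ⊕ ZMod q ↪ α) :
    Multiplicative (ZMod q) × Multiplicative (ZMod q) →* Perm α :=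
  (viaEmbeddingHom ι).comp ((sumCongrHom (ZMod q) (ZMod q)).comp ((addP q).prodMap (addP q)))

theorem pairP_apply {q : ℕ} (ι : ZMod q ⊕ ZMod q ↪ α)
    (p : Multiplicative (ZMod q) × Multiplicative (ZMod q)) :
    pairP ι p = viaEmbeddingHom ι (Perm.sumCongr (addP q p.1) (addP q p.2)) := rfl

theorem pairP_pow {q : ℕ} (ι : ZMod q ⊕ ZMod q ↪ α)
    (p : Multiplicative (ZMod q) × Multiplicative (ZMod q)) : (pairP ι p) ^ q = 1 := by
  rw [← map_pow]
  have : p ^ q = 1 := Prod.ext (mulZ_pow q p.1) (mulZ_pow q p.2)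
  rw [this, map_one]

theorem pairP_card {q : ℕ} [NeZero q] (ι : ZMod q ⊕ ZMod q ↪ α)
    (p : Multiplicative (ZMod q) × Multiplicative (ZMod q)) :
    #(pairP ι p).support = #(addP q p.1).support + #(addP q p.2).support := by
  rw [pairP_apply, via_card, card_support_sumCongr]

/-- three commuting cycles -/
noncomputable def tripP {q : ℕ} (ι : ZMod q ⊕ (ZMod q ⊕ ZMod q) ↪ α) :
    Multiplicative (ZMod q) × (Multiplicative (ZMod q) × Multiplicative (ZMod q)) →* Perm α :=
  (viaEmbeddingHom ι).comp ((sumCongrHom (ZMod q) (ZMod q ⊕ ZMod q)).comp ((addP q).prodMap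
    ((sumCongrHom (ZMod q) (ZMod q)).comp ((addP q).prodMap (addP q)))))

theorem tripP_apply {q : ℕ} (ι : ZMod q ⊕ (ZMod q ⊕ ZMod q) ↪ α)
    (p : Multiplicative (ZMod q) × (Multiplicative (ZMod q) × Multiplicative (ZMod q))) :
    tripP ι p = viaEmbeddingHom ι (Perm.sumCongr (addP q p.1) (Perm.sumCongr (addP q p.2.1)
      (addP q p.2.2))) := rfl

theorem tripP_pow {q : ℕ} (ι : ZMod q ⊕ (ZMod q ⊕ ZMod q) ↪ α)
    (p : Multiplicative (ZMod q) × (Multiplicative (ZMod q) × Multiplicative (ZMod q))) :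
    (tripP ι p) ^ q = 1 := by
  rw [← map_pow]
  have : p ^ q = 1 := Prod.ext (mulZ_pow q p.1) (Prod.ext (mulZ_pow q p.2.1) (mulZ_pow q p.2.2))
  rw [this, map_one]

theorem tripP_card {q : ℕ} [NeZero q] (ι : ZMod q ⊕ (ZMod q ⊕ ZMod q) ↪ α)
    (p : Multiplicative (ZMod q) × (Multiplicative (ZMod q) × Multiplicative (ZMod q))) :
    #(tripP ι p).support = #(addP q p.1).support + (#(addP q p.2.1).support
      + #(addP q p.2.2).support) := by
  rw [tripP_apply, via_card, card_support_sumCongr, card_support_sumCongr]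

theorem addP_one_card (q : ℕ) [NeZero q] : #(addP q 1).support = 0 := by
  rw [map_one, support_one, card_empty]

/-- negation on `ZMod q` -/
theorem negP_card (q : ℕ) [Fact q.Prime] (hq : q ≠ 2) :
    #(mulPerm (-1) : Perm (ZMod q)).support = q - 1 := by
  have : (mulPerm (-1) : Perm (ZMod q)).support = univ.erase 0 := by
    ext i
    simp only [mem_support, mulPerm, Units.val_neg, Units.val_one, neg_mul, one_mul, coe_fn_mk,
      ne_eq, mem_erase, mem_univ, and_true]
    rw [not_iff_not]
    constructor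
    · intro h
      have h2 : (2 : ZMod q) * i = 0 := by linear_combination -h
      obtain ⟨u, hu⟩ := unit_two q hq
      rw [← hu] at h2
      exact (Units.mul_right_eq_zero u).1 h2
    · rintro rfl
      simp
  rw [this, card_erase_of_mem (mem_univ _), card_univ, ZMod.card]

theorem inv_conj_pair {q : ℕ} (ι : ZMod q ⊕ ZMod q ↪ α)
    (p : Multiplicative (ZMod q) × Multiplicative (ZMod q)) :
    viaEmbeddingHom ι (Perm.sumCongr (mulPerm (-1)) (mulPerm (-1))) * pairP ι p
      * (viaEmbeddingHom ι (Perm.sumCongr (mulPerm (-1)) (mulPerm (-1))))⁻¹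
      = pairP ι (MulEquiv.inv _ p) := by
  have h1 : MulEquiv.inv _ p = (p.1⁻¹, p.2⁻¹) := rfl
  rw [h1, pairP_apply, pairP_apply, mul_inv_eq_iff_eq_mul, ← map_mul, ← map_mul]
  congr 1
  ext i
  rcases i with i | i
  · simp only [mul_apply, Perm.sumCongr_apply, Sum.map_inl, addP_apply, mulPerm, coe_fn_mk,
      toAdd_inv, Units.val_neg, Units.val_one]
    congr 1
    ring
  · simp only [mul_apply, Perm.sumCongr_apply, Sum.map_inr, addP_apply, mulPerm, coe_fn_mk,
      toAdd_inv, Units.val_neg, Units.val_one]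
    congr 1
    ring

end Pool.Agent.H7.HB
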