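import Pool.Agent.H7.Heil.CaseTwo

/-!
Case two: values on cycles of prime length.
-/

open Finset Equiv Equiv.Perm

namespace Pool.Agent.H7.HB

set_option linter.unusedSectionVars false

variable {α : Type} [Fintype α] [DecidableEq α]
variable {θ : Perm α → ℂ} {r : ℕ}

theorem card_M (q : ℕ) [NeZero q] : Fintype.card (Multiplicative (ZMod q)) = q := by
  rw [Fintype.card_multiplicative, ZMod.card]

/-- the bound from the inverting involution -/
theorem x00_bound (hT : Two θ r) {q : ℕ} [Fact q.Prime] (hq2 : q ≠ 2)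
    (ι : ZMod q ⊕ ZMod q ↪ α) :
    (r : ℤ) ≤ mult hT.heil (pairP ι) 1 + 2 * ((q : ℤ) - 1) := by
  have hprime : q.Prime := Fact.out
  let s : Perm α := viaEmbeddingHom ι (Perm.sumCongr (mulPerm (-1)) (mulPerm (-1)))
  have hm2 : (mulPerm (-1) : Perm (ZMod q)) ^ 2 = 1 := by
    ext i
    simp [mulPerm, pow_two]
  have hs2 : s ^ 2 = 1 := by
    change (viaEmbeddingHom ι (sumCongrHom _ _ (mulPerm (-1), mulPerm (-1)))) ^ 2 = 1
    rw [← map_pow, ← map_pow]
    have : ((mulPerm (-1), mulPerm (-1)) : Perm (ZMod q) × Perm (ZMod q)) ^ 2 = 1 :=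
      Prod.ext hm2 hm2
    rw [this, map_one, map_one]
  have hss : sign s = 1 := by
    change sign (viaEmbeddingHom ι (Perm.sumCongr (mulPerm (-1)) (mulPerm (-1)))) = 1
    rw [via_sign, sign_sumCongr]
    exact Int.units_mul_self _
  have hsc : #s.support = 2 * (q - 1) := by
    change #(viaEmbeddingHom ι (Perm.sumCongr (mulPerm (-1)) (mulPerm (-1)))).support = _
    rw [via_card, card_support_sumCongr, negP_card q hq2]
    ring
  have hval := hT.inv s hs2 hss
  rw [hsc] at hval
  have hconst : ∀ e, θ (pairP ι e * s) = θ s := by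
    intro e
    have := split hT.heil (pairP ι) s (MulEquiv.inv _) (fun e => inv_conj_pair ι e) e
      (fun κ _ hκ => by
        have h1 := hκ e
        have h2 : κ (MulEquiv.inv _ e) = (κ e)⁻¹ := by
          have h3 : MulEquiv.inv _ e = e⁻¹ := rfl
          rw [h3, map_inv]
        rw [h2] at h1
        have h3 : (κ e) ^ 2 = 1 := by
          have h4 : κ e * κ e = 1 := by
            conv_lhs =>
              lhs
              rw [← h1]
            exact inv_mul_cancel _
          rw [pow_two, h4]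
        have h4 : (κ e) ^ q = 1 := by
          rw [← map_pow]
          have : e ^ q = 1 := Prod.ext (mulZ_pow q e.1) (mulZ_pow q e.2)
          rw [this, map_one]
        obtain ⟨k, hk⟩ := hprime.odd_of_ne_two hq2
        calc κ e = (κ e) ^ (2 * k + 1) := by
              rw [pow_add, pow_mul, h3, one_pow, one_mul, pow_one]
          _ = (κ e) ^ q := by rw [← hk]
          _ = 1 := h4) 1
    rwa [one_mul, map_one, one_mul] at this
  have h1 := norm_le_mult_one hT.heil (pairP ι) s (MulEquiv.inv _)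
    (fun e => inv_conj_pair ι e) hconst
  have h2 : ((r : ℝ) - (2 * (q - 1) : ℕ)) ≤ ‖θ s‖ := by
    have h3 := Complex.re_le_norm (θ s)
    rw [hval] at h3 ⊢
    simpa using h3
  have h3 : (r : ℝ) - (2 * (q - 1) : ℕ) ≤ mult hT.heil (pairP ι) 1 := h2.trans h1
  have h4 : ((r : ℤ) : ℝ) - (((2 * (q - 1) : ℕ) : ℤ) : ℝ)
      ≤ ((mult hT.heil (pairP ι) 1 : ℤ) : ℝ) := by
    exact_mod_cast h3
  have h5 : (r : ℤ) - ((2 * (q - 1) : ℕ) : ℤ) ≤ (mult hT.heil (pairP ι) 1 : ℤ) := by
    exact_mod_cast h4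
  have h6 : ((2 * (q - 1) : ℕ) : ℤ) = 2 * ((q : ℤ) - 1) := by
    have := hprime.one_lt
    push_cast [this.le]
    ring
  rw [h6] at h5
  linarith

theorem ofAdd_one_ne (q : ℕ) [Fact q.Prime] : (Multiplicative.ofAdd (1 : ZMod q)) ≠ 1 := by
  intro h'
  have : (1 : ZMod q) = 0 := Multiplicative.ofAdd.injective h'
  exact one_ne_zero this

theorem exists_char (q : ℕ) [Fact q.Prime] :
    ∃ χ : Multiplicative (ZMod q) →* ℂˣ, χ ≠ 1 := by
  have h1ne : (Multiplicative.ofAdd (1 : ZMod q)) ≠ 1 := by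
    intro h'
    have : (1 : ZMod q) = 0 := Multiplicative.ofAdd.injective h'
    exact one_ne_zero this
  obtain ⟨χ, hχ⟩ := exists_char_ne_one h1ne
  exact ⟨χ, fun h => hχ (by rw [h]; rfl)⟩

/-- exclusion of double weight constituents for `q = 3` -/
theorem three_exclude (hT : Two θ r) (a b : ℂ)
    (ha : ∀ x : Perm α, x ^ 3 = 1 → #x.support = 3 → θ x = a)
    (hb : ∀ x : Perm α, x ^ 3 = 1 → #x.support = 6 → θ x = b)
    (x10 x11 : ℕ) (h10 : (x10 : ℂ) * 9 = r + a - 2 * b) (h11 : (x11 : ℂ) * 9 = r - 2 * a + b)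
    (hle : x10 + x11 ≤ 1) : x11 = 0 := by
  classical
  have : Fact (Nat.Prime 3) := ⟨Nat.prime_three⟩
  have hn := hT.hn
  have hemb : Fintype.card (ZMod 3 ⊕ (ZMod 3 ⊕ ZMod 3)) ≤ Fintype.card α := by
    simp only [Fintype.card_sum, ZMod.card]
    omega
  obtain ⟨ι⟩ := Function.Embedding.nonempty_of_card_le hemb
  obtain ⟨χ, hχ⟩ := exists_char 3
  let M := Multiplicative (ZMod 3)
  have h1ne : (Multiplicative.ofAdd (1 : ZMod 3)) ≠ 1 := ofAdd_one_ne 3
  -- value on weight three
  let c := θ (tripP ι (Multiplicative.ofAdd 1, Multiplicative.ofAdd 1, Multiplicative.ofAdd 1))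
  have hc : ∀ e e' e'' : M, e ≠ 1 → e' ≠ 1 → e'' ≠ 1 → θ (tripP ι (e, e', e'')) = c := by
    intro e e' e'' he he' he''
    refine hT.heil.of_isConj (isConj_of_prime Nat.prime_three (tripP_pow ι _) (tripP_pow ι _) ?_)
    rw [tripP_card, tripP_card]
    simp only [addP_card 3 he, addP_card 3 he', addP_card 3 he'', addP_card 3 h1ne]
  have hA1 : ∀ e : M, e ≠ 1 → θ (tripP ι (e, 1, 1)) = a := fun e he =>
    ha _ (tripP_pow ι _) (by rw [tripP_card]; simp only [addP_card 3 he, addP_one_card])
  have hA2 : ∀ e : M, e ≠ 1 → θ (tripP ι (1, e, 1)) = a := fun e he =>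
    ha _ (tripP_pow ι _) (by rw [tripP_card]; simp only [addP_card 3 he, addP_one_card])
  have hA3 : ∀ e : M, e ≠ 1 → θ (tripP ι (1, 1, e)) = a := fun e he =>
    ha _ (tripP_pow ι _) (by rw [tripP_card]; simp only [addP_card 3 he, addP_one_card])
  have hB1 : ∀ e e' : M, e ≠ 1 → e' ≠ 1 → θ (tripP ι (1, e, e')) = b := fun e e' he he' =>
    hb _ (tripP_pow ι _) (by
      rw [tripP_card]; simp only [addP_card 3 he, addP_card 3 he', addP_one_card])
  have hB2 : ∀ e e' : M, e ≠ 1 → e' ≠ 1 → θ (tripP ι (e, 1, e')) = b := fun e e' he he' =>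
    hb _ (tripP_pow ι _) (by
      rw [tripP_card]; simp only [addP_card 3 he, addP_card 3 he', addP_one_card])
  have hB3 : ∀ e e' : M, e ≠ 1 → e' ≠ 1 → θ (tripP ι (e, e', 1)) = b := fun e e' he he' =>
    hb _ (tripP_pow ι _) (by
      rw [tripP_card]; simp only [addP_card 3 he, addP_card 3 he', addP_one_card])
  have hs0 : ∑ e : M, (((χ e)⁻¹ : ℂˣ) : ℂ) = 0 := by
    rw [sum_inv_char, if_neg hχ]
  have hs3 : ∑ _e : M, ((((1 : ℂˣ))⁻¹ : ℂˣ) : ℂ) = 3 := by
    have hc3 : Fintype.card M = 3 := card_M 3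
    simp [hc3]
  have hcard : ((Fintype.card M : ℂ) * ((Fintype.card M : ℂ) * (Fintype.card M : ℂ))) = 27 := by
    have hc3 : Fintype.card M = 3 := card_M 3
    rw [hc3]
    norm_num
  -- weight one
  have hz1 := mult_triple hT.heil (tripP ι) hT.hr hA1 hA2 hA3 hB1 hB2 hB3 hc
    (χ.comp (MonoidHom.fst M (M × M))) 0 3 3
    (by
      have : ∀ e : M, (χ.comp (MonoidHom.fst M (M × M))) (e, 1, 1) = χ e := fun e => rfl
      simp_rw [this]
      exact hs0)
    (by
      have : ∀ e : M, (χ.comp (MonoidHom.fst M (M × M))) (1, e, 1) = 1 := fun e => map_one χ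
      simp_rw [this]
      exact hs3)
    (by
      have : ∀ e : M, (χ.comp (MonoidHom.fst M (M × M))) (1, 1, e) = 1 := fun e => map_one χ
      simp_rw [this]
      exact hs3)
  -- weight two
  have hz2 := mult_triple hT.heil (tripP ι) hT.hr hA1 hA2 hA3 hB1 hB2 hB3 hc
    ((χ.comp (MonoidHom.fst M (M × M)))
      * (χ.comp ((MonoidHom.fst M M).comp (MonoidHom.snd M (M × M))))) 0 0 3
    (by
      have : ∀ e : M, ((χ.comp (MonoidHom.fst M (M × M)))
        * (χ.comp ((MonoidHom.fst M M).comp (MonoidHom.snd M (M × M))))) (e, 1, 1) = χ e := by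
        intro e
        change χ e * χ 1 = χ e
        rw [map_one, mul_one]
      simp_rw [this]
      exact hs0)
    (by
      have : ∀ e : M, ((χ.comp (MonoidHom.fst M (M × M)))
        * (χ.comp ((MonoidHom.fst M M).comp (MonoidHom.snd M (M × M))))) (1, e, 1) = χ e := by
        intro e
        change χ 1 * χ e = χ e
        rw [map_one, one_mul]
      simp_rw [this]
      exact hs0)
    (by
      have : ∀ e : M, ((χ.comp (MonoidHom.fst M (M × M)))
        * (χ.comp ((MonoidHom.fst M M).comp (MonoidHom.snd M (M × M))))) (1, 1, e) = 1 := by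
        intro e
        change χ 1 * χ 1 = 1
        rw [map_one, one_mul]
      simp_rw [this]
      exact hs3)
  -- weight three
  have hz3 := mult_triple hT.heil (tripP ι) hT.hr hA1 hA2 hA3 hB1 hB2 hB3 hc
    ((χ.comp (MonoidHom.fst M (M × M)))
      * ((χ.comp ((MonoidHom.fst M M).comp (MonoidHom.snd M (M × M))))
      * (χ.comp ((MonoidHom.snd M M).comp (MonoidHom.snd M (M × M)))))) 0 0 0
    (by
      have : ∀ e : M, ((χ.comp (MonoidHom.fst M (M × M)))
        * ((χ.comp ((MonoidHom.fst M M).comp (MonoidHom.snd M (M × M))))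
        * (χ.comp ((MonoidHom.snd M M).comp (MonoidHom.snd M (M × M)))))) (e, 1, 1) = χ e := by
        intro e
        change χ e * (χ 1 * χ 1) = χ e
        rw [map_one, mul_one, mul_one]
      simp_rw [this]
      exact hs0)
    (by
      have : ∀ e : M, ((χ.comp (MonoidHom.fst M (M × M)))
        * ((χ.comp ((MonoidHom.fst M M).comp (MonoidHom.snd M (M × M))))
        * (χ.comp ((MonoidHom.snd M M).comp (MonoidHom.snd M (M × M)))))) (1, e, 1) = χ e := by
        intro e
        change χ 1 * (χ e * χ 1) = χ e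
        rw [map_one, mul_one, one_mul]
      simp_rw [this]
      exact hs0)
    (by
      have : ∀ e : M, ((χ.comp (MonoidHom.fst M (M × M)))
        * ((χ.comp ((MonoidHom.fst M M).comp (MonoidHom.snd M (M × M))))
        * (χ.comp ((MonoidHom.snd M M).comp (MonoidHom.snd M (M × M)))))) (1, 1, e) = χ e := by
        intro e
        change χ 1 * (χ 1 * χ e) = χ e
        rw [map_one, one_mul, one_mul]
      simp_rw [this]
      exact hs0)
  rw [hcard] at hz1 hz2 hz3
  generalize mult hT.heil (tripP ι) _ = z1 at hz1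
  generalize mult hT.heil (tripP ι) _ = z2 at hz2
  generalize mult hT.heil (tripP ι) _ = z3 at hz3
  have e1 : (x10 : ℂ) = (z1 : ℂ) + 2 * z2 := by
    linear_combination (1 / 9) * h10 - (1 / 27) * hz1 - (2 / 27) * hz2
  have e2 : (x11 : ℂ) = (z2 : ℂ) + 2 * z3 := by
    linear_combination (1 / 9) * h11 - (1 / 27) * hz2 - (2 / 27) * hz3
  have e1' : x10 = z1 + 2 * z2 := by exact_mod_cast e1
  have e2' : x11 = z2 + 2 * z3 := by exact_mod_cast e2
  omega

theorem lemmaQ (hT : Two θ r) {q : ℕ} (hq : q.Prime) (hq2 : q ≠ 2)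
    (hqn : 2 * q ≤ Fintype.card α) :
    (∀ x : Perm α, x ^ q = 1 → #x.support = q → θ x = (r : ℂ) - q) ∧
    (∀ x : Perm α, x ^ q = 1 → #x.support = 2 * q → θ x = (r : ℂ) - 2 * q) := by
  classical
  have : Fact q.Prime := ⟨hq⟩
  let M := Multiplicative (ZMod q)
  have h1ne : (Multiplicative.ofAdd (1 : ZMod q)) ≠ 1 := by
    intro h'
    have : (1 : ZMod q) = 0 := Multiplicative.ofAdd.injective h'
    exact one_ne_zero this
  have hemb : Fintype.card (ZMod q ⊕ ZMod q) ≤ Fintype.card α := by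
    simp only [Fintype.card_sum, ZMod.card]
    omega
  obtain ⟨ι⟩ := Function.Embedding.nonempty_of_card_le hemb
  have hemb' : Fintype.card (ZMod q × ZMod 2) ≤ Fintype.card α := by
    simp only [Fintype.card_prod, ZMod.card]
    omega
  obtain ⟨ι'⟩ := Function.Embedding.nonempty_of_card_le hemb'
  let a := θ (pairP ι (Multiplicative.ofAdd 1, 1))
  let b := θ (pairP ι (Multiplicative.ofAdd 1, Multiplicative.ofAdd 1))
  have ha : ∀ x : Perm α, x ^ q = 1 → #x.support = q → θ x = a := by
    intro x hx hxc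
    refine hT.heil.of_isConj (isConj_of_prime hq hx (pairP_pow ι _) ?_)
    rw [hxc, pairP_card]
    simp only [addP_card q h1ne, addP_one_card, add_zero]
  have hb : ∀ x : Perm α, x ^ q = 1 → #x.support = 2 * q → θ x = b := by
    intro x hx hxc
    refine hT.heil.of_isConj (isConj_of_prime hq hx (pairP_pow ι _) ?_)
    rw [hxc, pairP_card]
    simp only [addP_card q h1ne]
    ring
  have hbr : b ≠ r := by
    have h1 := two_cycles_ne hT ι'
    rw [hb (viaEmbeddingHom ι' (hsh q)) (by rw [← map_pow, hsh_pow, map_one])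
      (by rw [via_card, hsh_support])] at h1
    exact h1
  obtain ⟨χ, hχ⟩ := exists_char q
  have hA1 : ∀ e : M, e ≠ 1 → θ (pairP ι (e, 1)) = a := fun e he =>
    ha _ (pairP_pow ι _) (by rw [pairP_card]; simp only [addP_card q he, addP_one_card, add_zero])
  have hA2 : ∀ e : M, e ≠ 1 → θ (pairP ι (1, e)) = a := fun e he =>
    ha _ (pairP_pow ι _) (by rw [pairP_card]; simp only [addP_card q he, addP_one_card, zero_add])
  have hB : ∀ e e' : M, e ≠ 1 → e' ≠ 1 → θ (pairP ι (e, e')) = b := fun e e' he he' =>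
    hb _ (pairP_pow ι _) (by
      rw [pairP_card]; simp only [addP_card q he, addP_card q he']; ring)
  have hcM : (Fintype.card M : ℂ) = q := by
    rw [show Fintype.card M = q from card_M q]
  have E00 := mult_pair hT.heil (pairP ι) hT.hr hA1 hA2 hB 1
  rw [if_pos (by ext; rfl), if_pos (by ext; rfl), hcM] at E00
  have E10 := mult_pair hT.heil (pairP ι) hT.hr hA1 hA2 hB (χ.comp (MonoidHom.fst M M))
  rw [if_neg (by
    intro h'
    apply hχ
    ext e
    exact congrArg (fun u : ℂˣ => (u : ℂ)) (DFunLike.congr_fun h' e)),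
    if_pos (by
      ext e
      change ((χ 1 : ℂˣ) : ℂ) = 1
      rw [map_one, Units.val_one]), hcM] at E10
  have E11 := mult_pair hT.heil (pairP ι) hT.hr hA1 hA2 hB
    ((χ.comp (MonoidHom.fst M M)) * (χ.comp (MonoidHom.snd M M)))
  rw [if_neg (by
    intro h'
    apply hχ
    ext e
    have h2 := congrArg (fun u : ℂˣ => (u : ℂ)) (DFunLike.congr_fun h' e)
    change ((χ e * χ 1 : ℂˣ) : ℂ) = 1 at h2
    rw [map_one, mul_one] at h2
    exact h2), if_neg (by
    intro h'
    apply hχ
    ext e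
    have h2 := congrArg (fun u : ℂˣ => (u : ℂ)) (DFunLike.congr_fun h' e)
    change ((χ 1 * χ e : ℂˣ) : ℂ) = 1 at h2
    rw [map_one, one_mul] at h2
    exact h2), hcM] at E11
  have hbound := x00_bound hT hq2 ι
  generalize mult hT.heil (pairP ι) (1 : M × M →* ℂˣ) = x00 at E00 hbound
  generalize mult hT.heil (pairP ι) _ = x10 at E10
  generalize mult hT.heil (pairP ι) _ = x11 at E11
  have hq0 : (q : ℂ) ≠ 0 := by exact_mod_cast hq.ne_zero
  have hsumC : ((x00 : ℂ) + 2 * (q - 1) * x10 + (q - 1) ^ 2 * x11) = r := by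
    have h1 : ((x00 : ℂ) + 2 * (q - 1) * x10 + (q - 1) ^ 2 * x11) * (q * q) = r * (q * q) := by
      linear_combination E00 + 2 * ((q : ℂ) - 1) * E10 + ((q : ℂ) - 1) ^ 2 * E11
    exact mul_right_cancel₀ (mul_ne_zero hq0 hq0) h1
  have hsumZ : ((x00 : ℤ) + 2 * (q - 1) * x10 + (q - 1) ^ 2 * x11) = r := by
    exact_mod_cast hsumC
  have hq3 : 3 ≤ q := by
    have := hq.two_le
    omega
  have hle : 2 * (x10 : ℤ) + ((q : ℤ) - 1) * x11 ≤ 2 := by
    have h1 : ((q : ℤ) - 1) * (2 * (x10 : ℤ) + ((q : ℤ) - 1) * x11) ≤ ((q : ℤ) - 1) * 2 := by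
      nlinarith
    have h2 : (0 : ℤ) < (q : ℤ) - 1 := by
      have : (3 : ℤ) ≤ q := by exact_mod_cast hq3
      linarith
    exact le_of_mul_le_mul_left h1 h2
  have hx11 : x11 = 0 := by
    by_cases hq3' : q = 3
    · subst hq3'
      push_cast at hle E10 E11
      exact three_exclude hT a b ha (fun x hx hxc => hb x hx (by rw [hxc])) x10 x11
        (by linear_combination E10) (by linear_combination E11) (by omega)
    · have h4 : 5 ≤ q := by
        rcases Nat.lt_or_ge q 5 with h5 | h5
        · have : q = 4 := by omega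
          rw [this] at hq
          exact absurd hq (by decide)
        · exact h5
      by_contra hne
      have h5 : (1 : ℤ) ≤ x11 := by
        have : 1 ≤ x11 := by omega
        exact_mod_cast this
      have h6 : (5 : ℤ) ≤ q := by exact_mod_cast h4
      nlinarith
  subst hx11
  have hx10 : x10 = 1 := by
    have h1 : x10 ≤ 1 := by
      push_cast at hle
      omega
    by_contra hne
    have h0 : x10 = 0 := by omega
    subst h0
    apply hbr
    push_cast at E10 E11
    have h2 : (a - b) * (q : ℂ) = 0 := by linear_combination -E10 + E11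
    have h3 : a - b = 0 := by
      rcases mul_eq_zero.1 h2 with h4 | h4
      · exact h4
      · exact absurd h4 hq0
    linear_combination E11 - 2 * h3
  subst hx10
  push_cast at E10 E11
  have h2 : (a - b) * (q : ℂ) = q * q := by linear_combination -E10 + E11
  have h3 : a - b = q := mul_right_cancel₀ hq0 h2
  have h4 : a = r - q := by linear_combination E11 - h3
  have h5 : b = r - 2 * q := by linear_combination E11 - 2 * h3
  exact ⟨fun x hx hxc => by rw [ha x hx hxc, h4], fun x hx hxc => by rw [hb x hx hxc, h5]⟩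

end Pool.Agent.H7.HB
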