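import Pool.Agent.H7.Heil.CaseTwoB

/-!
Case two: values on elements of odd order, and the final contradiction.
-/

open Finset Equiv Equiv.Perm

namespace Pool.Agent.H7.HB

set_option linter.unusedSectionVars false

variable {α : Type} [Fintype α] [DecidableEq α]
variable {θ : Perm α → ℂ} {r : ℕ}

theorem supp_of_mem_zpowers {z w : Perm α} (hz : z.IsCycle) (hw : w ∈ Subgroup.zpowers z)
    (hw1 : w ≠ 1) : w.support = z.support := by
  rw [← mem_powers_iff_mem_zpowers] at hw
  obtain ⟨k, rfl⟩ := hw
  refine hz.support_pow_eq_iff.2 ?_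
  intro h
  exact hw1 (orderOf_dvd_iff_pow_eq_one.1 h)

theorem pow_of_mem_zpowers {G : Type*} [Group G] {z w : G} {q : ℕ} (hz : z ^ q = 1)
    (hw : w ∈ Subgroup.zpowers z) : w ^ q = 1 := by
  obtain ⟨k, rfl⟩ := hw
  rw [← zpow_natCast, ← zpow_mul, mul_comm, zpow_mul, zpow_natCast, hz, one_zpow]

theorem x11 (hT : Two θ r) {q : ℕ} (hq : q.Prime) (hq2 : q ≠ 2) (hqn : 2 * q ≤ Fintype.card α)
    {E : Type} [CommGroup E] [Fintype E] (φ : E →* Perm α) (hφ : Function.Injective φ)
    (κ : E →* ℂˣ) (a a1 : E) (h1 : (φ a).IsCycle) (h1c : #(φ a).support = q)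
    (h2 : (φ a1).IsCycle) (h2c : #(φ a1).support = q) (hd : Disjoint (φ a) (φ a1))
    (hm : mult hT.heil φ κ ≠ 0) : κ a = 1 ∨ κ a1 = 1 := by
  classical
  by_contra hcon
  push Not at hcon
  obtain ⟨hc1, hc2⟩ := hcon
  let A := Subgroup.zpowers a
  let B := Subgroup.zpowers a1
  let _ : Fintype A := Fintype.ofFinite A
  let _ : Fintype B := Fintype.ofFinite B
  let i : A × B →* E := MonoidHom.coprod A.subtype B.subtype
  have hoa : orderOf (φ a) = q := by rw [h1.orderOf, h1c]
  have hob : orderOf (φ a1) = q := by rw [h2.orderOf, h2c]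
  have hmemA : ∀ e : A, φ e ∈ Subgroup.zpowers (φ a) := by
    rintro ⟨_, k, rfl⟩
    exact ⟨k, by simp⟩
  have hmemB : ∀ e : B, φ e ∈ Subgroup.zpowers (φ a1) := by
    rintro ⟨_, k, rfl⟩
    exact ⟨k, by simp⟩
  have hneA : ∀ e : A, e ≠ 1 → φ e ≠ 1 := by
    intro e he h
    apply he
    apply Subtype.ext
    exact hφ (by rw [h]; simp)
  have hneB : ∀ e : B, e ≠ 1 → φ e ≠ 1 := by
    intro e he h
    apply he
    apply Subtype.ext
    exact hφ (by rw [h]; simp)
  have hpa : (φ a) ^ q = 1 := by rw [← hoa]; exact pow_orderOf_eq_one _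
  have hpb : (φ a1) ^ q = 1 := by rw [← hob]; exact pow_orderOf_eq_one _
  obtain ⟨Q1, Q2⟩ := lemmaQ hT hq hq2 hqn
  have hA : ∀ e : A, e ≠ 1 → θ ((φ.comp i) (e, 1)) = r - q := by
    intro e he
    have : (φ.comp i) (e, 1) = φ e := by
      change φ ((e : E) * ((1 : B) : E)) = φ e
      simp
    rw [this]
    exact Q1 _ (pow_of_mem_zpowers hpa (hmemA e))
      (by rw [supp_of_mem_zpowers h1 (hmemA e) (hneA e he), h1c])
  have hB : ∀ e : B, e ≠ 1 → θ ((φ.comp i) (1, e)) = r - q := by
    intro e he
    have : (φ.comp i) (1, e) = φ e := by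
      change φ (((1 : A) : E) * (e : E)) = φ e
      simp
    rw [this]
    exact Q1 _ (pow_of_mem_zpowers hpb (hmemB e))
      (by rw [supp_of_mem_zpowers h2 (hmemB e) (hneB e he), h2c])
  have hAB : ∀ (e : A) (e' : B), e ≠ 1 → e' ≠ 1 → θ ((φ.comp i) (e, e')) = r - 2 * q := by
    intro e e' he he'
    have h3 : (φ.comp i) (e, e') = φ e * φ e' := by
      change φ ((e : E) * (e' : E)) = _
      rw [map_mul]
    have hdis : Disjoint (φ e) (φ e') := by
      obtain ⟨k, hk⟩ := hmemA e
      obtain ⟨l, hl⟩ := hmemB e'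
      rw [← hk, ← hl]
      exact hd.zpow_disjoint_zpow k l
    rw [h3]
    refine Q2 _ ?_ ?_
    · rw [hdis.commute.mul_pow, pow_of_mem_zpowers hpa (hmemA e),
        pow_of_mem_zpowers hpb (hmemB e'), one_mul]
    · rw [hdis.card_support_mul, supp_of_mem_zpowers h1 (hmemA e) (hneA e he),
        supp_of_mem_zpowers h2 (hmemB e') (hneB e' he'), h1c, h2c]
      ring
  have E0 := mult_pair hT.heil (φ.comp i) hT.hr hA hB hAB (κ.comp i)
  rw [if_neg (by
    intro h'
    apply hc1
    have h3 := DFunLike.congr_fun h' ⟨a, Subgroup.mem_zpowers a⟩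
    change κ (a * ((1 : B) : E)) = 1 at h3
    simpa using h3), if_neg (by
    intro h'
    apply hc2
    have h3 := DFunLike.congr_fun h' ⟨a1, Subgroup.mem_zpowers a1⟩
    change κ (((1 : A) : E) * a1) = 1 at h3
    simpa using h3)] at E0
  have hA0 : (Fintype.card A : ℂ) ≠ 0 := card_ne_zero'
  have hB0 : (Fintype.card B : ℂ) ≠ 0 := card_ne_zero'
  have h3 : (mult hT.heil (φ.comp i) (κ.comp i) : ℂ) * (Fintype.card A * Fintype.card B) = 0 := by
    rw [E0]
    ring
  have h4 : mult hT.heil (φ.comp i) (κ.comp i) = 0 := by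
    rcases mul_eq_zero.1 h3 with h5 | h5
    · exact_mod_cast h5
    · exact absurd h5 (mul_ne_zero hA0 hB0)
  have h5 := mult_le_comp hT.heil φ i κ
  omega

theorem isConj_disjoint_inv {v x : Perm α} (hd : Disjoint v x) : IsConj (v * x⁻¹) (v * x) := by
  rw [isConj_iff_cycleType_eq, hd.cycleType_mul,
    (Disjoint.inv_right hd).cycleType_mul, cycleType_inv]

theorem odd_of_dvd {a b : ℕ} (h : a ∣ b) (hb : Odd b) : Odd a := Odd.of_dvd_nat hb h

theorem lemmaT (hT : Two θ r) {u : ℕ} (hu : Odd u) (hu3 : 3 ∣ u) (hun : u ≤ Fintype.card α)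
    (g : Perm α) (hg : g ^ u = 1) : θ g = (r : ℂ) - #g.support := by
  classical
  induction hN : N g using Nat.strong_induction_on generalizing g with
  | _ N0 ih =>
  subst hN
  have IH : ∀ y : Perm α, N y < N g → y ^ u = 1 → θ y = (r : ℂ) - #y.support :=
    fun y hy hs => ih _ hy y hs rfl
  by_cases hg1 : g = 1
  · subst hg1
    rw [hT.hr]
    simp
  obtain ⟨x, hx⟩ : ∃ x, g x ≠ x := by
    by_contra hcon
    push Not at hcon
    exact hg1 (Equiv.ext hcon)
  obtain ⟨l, hl⟩ := exists_per g x
  have hl1 := hl.ne_one.1 hx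
  obtain ⟨q, hq, m, rfl⟩ := Nat.exists_prime_and_dvd hl1
  have hm : 0 < m := Nat.pos_of_mul_pos_left hl.1
  have hqmu : q * m ∣ u := hl.dvd_of_pow hg
  have hqu : q ∣ u := dvd_trans (Dvd.intro _ rfl) hqmu
  have hqo : Odd q := odd_of_dvd hqu hu
  have hq2 : q ≠ 2 := by
    rintro rfl
    exact absurd hqo (by decide)
  have hu0 : 0 < u := hu.pos
  have hn := hT.hn
  have hqn : 2 * q ≤ Fintype.card α := by
    by_cases hq3 : q = 3
    · subst hq3
      omega
    · have h1 : Nat.Coprime 3 q := (Nat.coprime_primes Nat.prime_three hq).2 (Ne.symm hq3)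
      have h2 : 3 * q ∣ u := h1.mul_dvd_of_dvd_of_dvd hu3 hqu
      have h3 := Nat.le_of_dvd hu0 h2
      omega
  have hz := cyc_isCycle hq.one_lt hm hl
  have hzc := cyc_card hq hm hl
  have hzq := cyc_pow hl
  have hx'u := cut_pow_eq_one hm hl hg
  have hx'N := cut_N hq.one_lt hm hl
  have hx'θ := IH _ hx'N hx'u
  rcases Nat.lt_or_ge 1 m with hm1 | hm1
  · -- splitting
    have hs : θ ((cyc g m x)⁻¹ * g) = θ g := by
      refine split_conj hT.heil g _ (fun i => cyc_commute g m x i) ?_
      intro E _ _ φ κ a b hφ ha hb hmult hab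
      have h1 : g * cyc g m x * g⁻¹ = cyc g m (g x) := by
        have := cyc_conj g m x 1
        rw [zpow_one, zpow_neg_one] at this
        exact this
      have hdis : Disjoint (φ a) (φ b) := by
        rw [ha, hb, h1]
        apply cycleOf_disjoint
        have := not_sameCycle_of hl (i := 1) (by
          intro h'
          have h'' : m ∣ 1 := by exact_mod_cast h'
          have := Nat.le_of_dvd one_pos h''
          omega)
        rwa [zpow_one] at this
      have hcyc2 : (φ b).IsCycle := by
        rw [hb]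
        exact hz.conj
      have hcard2 : #(φ b).support = q := by
        rw [hb, ← sum_cycleType, cycleType_conj, sum_cycleType]
        exact hzc
      have h2 := x11 hT hq hq2 hqn φ hφ κ a b (by rw [ha]; exact hz) (by rw [ha]; exact hzc)
        hcyc2 hcard2 hdis hmult
      rcases h2 with h2 | h2
      · exact h2
      · rw [hab, h2]
    rw [← hs, hx'θ, cut_support hq.one_lt hm1 hl]
  · have hm' : m = 1 := by omega
    subst hm'
    have hd := cyc_one_disjoint g x
    set z := cyc g 1 x with hzdef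
    set x' := z⁻¹ * g with hx'def
    let V := Subgroup.zpowers z
    let _ : Fintype V := Fintype.ofFinite V
    let _ : CommGroup V := { (inferInstance : Group V) with
      mul_comm := fun a b => by
        obtain ⟨a, i, rfl⟩ := a
        obtain ⟨b, j, rfl⟩ := b
        apply Subtype.ext
        simp only [Subgroup.coe_mul]
        rw [← zpow_add, ← zpow_add, add_comm] }
    have hVcard : Fintype.card V = q := by
      rw [← Nat.card_eq_fintype_card, Nat.card_zpowers, hz.orderOf, hzc]
    have hdV : ∀ v : V, Disjoint (v : Perm α) x' := by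
      rintro ⟨_, k, rfl⟩
      have := hd.zpow_disjoint_zpow k 1
      rwa [zpow_one] at this
    have hne : (⟨z, Subgroup.mem_zpowers z⟩ : V) ≠ 1 := by
      intro h
      exact hz.ne_one (congrArg Subtype.val h)
    have key := disjoint_shift hT.heil V.subtype x'
      (fun v => by
        rw [mul_inv_eq_iff_eq_mul]
        exact (hdV v).commute.symm)
      (odd_of_dvd (orderOf_dvd_of_pow_eq_one hx'u) hu)
      (fun v => hT.heil.of_isConj (isConj_disjoint_inv (hdV v)))
      (fun v hv => by
        have hv1 : (v : Perm α) ≠ 1 := fun h => hv (Subtype.ext h)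
        rw [hT.hr, hVcard]
        exact (lemmaQ hT hq hq2 hqn).1 _ (pow_of_mem_zpowers hzq v.2)
          (by rw [V.subtype_apply, supp_of_mem_zpowers hz v.2 hv1, hzc]))
      ⟨z, Subgroup.mem_zpowers z⟩ hne
    have hzx : z * x' = g := by
      rw [hx'def]
      group
    rw [hVcard] at key
    have hθ : θ g = θ x' - q := by
      rw [← key]
      change θ g = θ (z * x')
      rw [hzx]
    have hsupp : #g.support = q + #x'.support := by
      conv_lhs => rw [← hzx]
      rw [hd.card_support_mul, hzc]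
    rw [hθ, hx'θ, hsupp]
    push_cast
    ring

theorem final_bound (hT : Two θ r) {u : ℕ} (hu : Odd u) (hu3 : 3 ∣ u) (hun : u ≤ Fintype.card α)
    (ι : ZMod u ↪ α) {V : Type} [CommGroup V] [Fintype V] (φ : V →* Perm α)
    (hd : ∀ v i, φ v (ι i) = ι i)
    (hv : ∀ v, v ≠ 1 → θ (φ v) = (r : ℂ) - Fintype.card V) : u + Fintype.card V ≤ r + 2 := by
  classical
  have : NeZero u := ⟨hu.pos.ne'⟩
  have hpow : ∀ e, (rot ι e) ^ u = 1 := by
    intro e
    rw [← map_pow, mulZ_pow, map_one]
  have hrot : ∀ e, e ≠ 1 → θ (rot ι e) = (r : ℂ) - u := by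
    intro e he
    rw [lemmaT hT hu hu3 hun _ (hpow e), rot_card ι e he]
  have hdis : ∀ e v, Disjoint (φ v) (rot ι e) := by
    intro e v w
    by_cases hw : w ∈ Set.range ι
    · obtain ⟨i, rfl⟩ := hw
      left
      exact hd v i
    · right
      rw [rot_eq, viaEmbeddingHom_apply]
      exact viaEmbedding_apply_of_notMem _ _ _ hw
  let Φ : Multiplicative (ZMod u) × V →* Perm α :=
    MonoidHom.noncommCoprod (rot ι) φ (fun e v => (hdis e v).commute.symm)
  have hΦ : ∀ e v, Φ (e, v) = rot ι e * φ v := fun e v => rfl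
  have hcu : (Fintype.card (Multiplicative (ZMod u)) : ℂ) = u := by
    rw [card_M u]
  have E0 := mult_pair hT.heil Φ hT.hr (a := (r : ℂ) - u) (a' := (r : ℂ) - Fintype.card V)
    (b := (r : ℂ) - u - Fintype.card V)
    (fun e he => by rw [hΦ, map_one, mul_one, hrot e he])
    (fun v hv' => by rw [hΦ, map_one, one_mul, hv v hv'])
    (fun e v he hv' => by
      rw [hΦ, (hdis e v).commute.symm.eq]
      rw [disjoint_shift hT.heil φ (rot ι e)
        (fun v => by
          rw [mul_inv_eq_iff_eq_mul]
          exact (hdis e v).commute.symm)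
        (odd_of_dvd (orderOf_dvd_of_pow_eq_one (hpow e)) hu)
        (fun v => hT.heil.of_isConj (isConj_disjoint_inv (hdis e v)))
        (fun v hv' => by rw [hT.hr]; exact hv v hv') v hv', hrot e he])
    1
  rw [if_pos (by ext; rfl), if_pos (by ext; rfl), hcu] at E0
  generalize mult hT.heil Φ 1 = m at E0
  have hu0 : (u : ℂ) ≠ 0 := by exact_mod_cast hu.pos.ne'
  have hV0 : (Fintype.card V : ℂ) ≠ 0 := card_ne_zero'
  have h1 : ((m : ℂ) + u + Fintype.card V) * (u * Fintype.card V)
      = ((r : ℂ) + 2) * (u * Fintype.card V) := by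
    linear_combination E0
  have h2 := mul_right_cancel₀ (mul_ne_zero hu0 hV0) h1
  have h3 : m + u + Fintype.card V = r + 2 := by exact_mod_cast h2
  omega

/-- the regular case -/
theorem final_reg (hT : Two θ r) {u : ℕ} (hu : Odd u) (hu3 : 3 ∣ u) (Z : Type) [AddCommGroup Z]
    [Fintype Z] [DecidableEq Z] (huZ : u + Fintype.card Z ≤ Fintype.card α) {p : ℕ}
    (hpZ : ∀ z : Z, p • z = 0)
    (hval : ∀ x : Perm α, x ^ p = 1 → #x.support = Fintype.card Z
      → θ x = (r : ℂ) - Fintype.card Z) : u + Fintype.card Z ≤ r + 2 := by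
  classical
  have : NeZero u := ⟨hu.pos.ne'⟩
  have hemb : Fintype.card (ZMod u ⊕ Z) ≤ Fintype.card α := by
    simp only [Fintype.card_sum, ZMod.card]
    exact huZ
  obtain ⟨ι⟩ := Function.Embedding.nonempty_of_card_le hemb
  let tz : Multiplicative Z →* Perm Z :=
    { toFun := fun e => Equiv.addRight e.toAdd
      map_one' := by ext; simp
      map_mul' := by
        intro a b
        ext c
        simp only [toAdd_mul, coe_addRight, mul_apply]
        rw [add_comm a.toAdd, add_assoc] }
  let φ : Multiplicative Z →* Perm α :=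
    (viaEmbeddingHom ι).comp ((sumCongrHom (ZMod u) Z).comp (MonoidHom.prod 1 tz))
  have hφ : ∀ e, φ e = viaEmbeddingHom ι (Perm.sumCongr 1 (tz e)) := fun _ => rfl
  have hcard : Fintype.card (Multiplicative Z) = Fintype.card Z := Fintype.card_multiplicative Z
  have := final_bound hT hu hu3 (by omega) ((Function.Embedding.inl).trans ι) φ
    (fun v i => by
      rw [hφ, viaEmbeddingHom_apply]
      change viaEmbedding _ ι (ι (Sum.inl i)) = ι (Sum.inl i)
      rw [viaEmbedding_apply]
      simp)
    (fun v hv => by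
      rw [hcard]
      apply hval
      · rw [← map_pow]
        have : v ^ p = 1 := by
          apply Multiplicative.toAdd.injective
          rw [toAdd_pow, toAdd_one]
          exact hpZ _
        rw [this, map_one]
      · rw [hφ, via_card, card_support_sumCongr, support_one, card_empty, zero_add]
        have h1 : (tz v).support = univ := by
          ext i
          simp only [mem_support, ne_eq, mem_univ, iff_true]
          intro h
          apply hv
          apply Multiplicative.toAdd.injective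
          have h2 : i + v.toAdd = i := h
          simpa using h2
        rw [h1, card_univ])
  rwa [hcard] at this

theorem two_false (hT : Two θ r) (hrn : r + 3 ≤ Fintype.card α) : False := by
  classical
  have hn := hT.hn
  have hQ3 := (lemmaQ hT Nat.prime_three (by decide) (by omega)).1
  have hQ5 := (lemmaQ hT Nat.prime_five (by decide) (by omega)).1
  have hmod : Fintype.card α % 6 < 6 := Nat.mod_lt _ (by norm_num)
  have h2sq : ∀ x : Perm α, ∀ v : ℕ, Even (v / 2) → x ^ 2 = 1 → #x.support = v →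
      θ x = (r : ℂ) - v := by
    intro x v hv hx hxc
    rw [hT.inv x hx (by rw [sign_of_sq hx, hxc]; exact hv.neg_one_pow), hxc]
  have hZ2 : ∀ i : ZMod 2, 2 • i = 0 := by decide
  have cases6 : Fintype.card α % 6 = 0 ∨ Fintype.card α % 6 = 1 ∨ Fintype.card α % 6 = 2 ∨
      Fintype.card α % 6 = 3 ∨ Fintype.card α % 6 = 4 ∨ Fintype.card α % 6 = 5 := by omega
  rcases cases6 with h | h | h | h | h | h
  · -- u = n - 3
    have hu : Odd (Fintype.card α - 3) := by rw [Nat.odd_iff]; omega
    have hu3 : 3 ∣ Fintype.card α - 3 := by omega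
    have h1 := final_reg hT hu hu3 (ZMod 3) (by rw [ZMod.card]; omega) (p := 3)
      (fun z => by
        rw [nsmul_eq_mul]
        have : ((3 : ℕ) : ZMod 3) = 0 := ZMod.natCast_self 3
        rw [this, zero_mul])
      (fun x hx hxc => by rw [ZMod.card] at hxc ⊢; exact hQ3 x hx hxc)
    rw [ZMod.card] at h1
    omega
  · -- u = n - 4
    have hu : Odd (Fintype.card α - 4) := by rw [Nat.odd_iff]; omega
    have hu3 : 3 ∣ Fintype.card α - 4 := by omega
    have hc : Fintype.card (ZMod 2 × ZMod 2) = 4 := by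
      rw [Fintype.card_prod, ZMod.card]
    have h1 := final_reg hT hu hu3 (ZMod 2 × ZMod 2) (by rw [hc]; omega) (p := 2)
      (fun z => Prod.ext (hZ2 _) (hZ2 _))
      (fun x hx hxc => by rw [hc] at hxc ⊢; exact h2sq x 4 (by decide) hx hxc)
    rw [hc] at h1
    omega
  · -- u = n - 5
    have hu : Odd (Fintype.card α - 5) := by rw [Nat.odd_iff]; omega
    have hu3 : 3 ∣ Fintype.card α - 5 := by omega
    have h1 := final_reg hT hu hu3 (ZMod 5) (by rw [ZMod.card]; omega) (p := 5)
      (fun z => by
        rw [nsmul_eq_mul]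
        have : ((5 : ℕ) : ZMod 5) = 0 := ZMod.natCast_self 5
        rw [this, zero_mul])
      (fun x hx hxc => by rw [ZMod.card] at hxc ⊢; exact hQ5 x hx hxc)
    rw [ZMod.card] at h1
    omega
  · -- u = n
    have hu : Odd (Fintype.card α) := by rw [Nat.odd_iff]; omega
    have hu3 : 3 ∣ Fintype.card α := by omega
    have : NeZero (Fintype.card α) := ⟨hu.pos.ne'⟩
    obtain ⟨ι⟩ := Function.Embedding.nonempty_of_card_le
      (show Fintype.card (ZMod (Fintype.card α)) ≤ Fintype.card α by rw [ZMod.card])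
    have h1 := final_bound hT hu hu3 le_rfl ι (V := Unit) 1 (fun v i => rfl)
      (fun v hv => absurd (Subsingleton.elim v 1) hv)
    simp only [Fintype.card_unit] at h1
    omega
  · -- u = n - 1
    have hu : Odd (Fintype.card α - 1) := by rw [Nat.odd_iff]; omega
    have hu3 : 3 ∣ Fintype.card α - 1 := by omega
    have : NeZero (Fintype.card α - 1) := ⟨hu.pos.ne'⟩
    obtain ⟨ι⟩ := Function.Embedding.nonempty_of_card_le
      (show Fintype.card (ZMod (Fintype.card α - 1)) ≤ Fintype.card α by rw [ZMod.card]; omega)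
    have h1 := final_bound hT hu hu3 (by omega) ι (V := Unit) 1 (fun v i => rfl)
      (fun v hv => absurd (Subsingleton.elim v 1) hv)
    simp only [Fintype.card_unit] at h1
    omega
  · -- u = n - 8
    have hu : Odd (Fintype.card α - 8) := by rw [Nat.odd_iff]; omega
    have hu3 : 3 ∣ Fintype.card α - 8 := by omega
    have hc : Fintype.card (ZMod 2 × ZMod 2 × ZMod 2) = 8 := by
      rw [Fintype.card_prod, Fintype.card_prod, ZMod.card]
    have h1 := final_reg hT hu hu3 (ZMod 2 × ZMod 2 × ZMod 2) (by rw [hc]; omega) (p := 2)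
      (fun z => Prod.ext (hZ2 _) (Prod.ext (hZ2 _) (hZ2 _)))
      (fun x hx hxc => by rw [hc] at hxc ⊢; exact h2sq x 8 (by decide) hx hxc)
    rw [hc] at h1
    omega

end Pool.Agent.H7.HB
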