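import Mathlib

/-!
Fourier inversion on finite commutative groups with values in `ℂ`, multiplicative notation.
-/

open Finset

namespace Pool.Agent.H7.HB

section
variable {A : Type*} [CommGroup A] [Finite A]

theorem exists_char_ne_one {a : A} (ha : a ≠ 1) : ∃ χ : A →* ℂˣ, χ a ≠ 1 :=
  CommGroup.exists_apply_ne_one_of_hasEnoughRootsOfUnity A ℂ ha

end

section
variable {A : Type*} [CommGroup A] [Fintype A]

noncomputable instance charFintype : Fintype (A →* ℂˣ) := Fintype.ofFinite _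

open Classical in
theorem sum_elt (χ : A →* ℂˣ) :
    ∑ a : A, ((χ a : ℂˣ) : ℂ) = if χ = 1 then (Fintype.card A : ℂ) else 0 := by
  classical
  split_ifs with h
  · subst h; simp
  · obtain ⟨b, hb⟩ : ∃ b, χ b ≠ 1 := by
      by_contra hcon
      push Not at hcon
      exact h (MonoidHom.ext hcon)
    have h1 : ∑ a : A, ((χ a : ℂˣ) : ℂ) = ((χ b : ℂˣ) : ℂ) * ∑ a : A, ((χ a : ℂˣ) : ℂ) := by
      rw [Finset.mul_sum, ← Equiv.sum_comp (Equiv.mulLeft b)]
      simp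
    have h2 : ((χ b : ℂˣ) : ℂ) ≠ 1 := by
      intro h3
      exact hb (Units.ext h3)
    have h3 : (1 - ((χ b : ℂˣ) : ℂ)) * ∑ a : A, ((χ a : ℂˣ) : ℂ) = 0 := by
      rw [sub_mul, one_mul, ← h1, sub_self]
    rcases mul_eq_zero.1 h3 with h4 | h4
    · exact absurd (sub_eq_zero.1 h4).symm h2
    · exact h4

open Classical in
theorem sum_char (a : A) :
    ∑ χ : A →* ℂˣ, ((χ a : ℂˣ) : ℂ) = if a = 1 then (Fintype.card A : ℂ) else 0 := by
  classical
  split_ifs with h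
  · subst h
    simp only [map_one, Units.val_one, sum_const, card_univ, nsmul_eq_mul, mul_one]
    have h1 := CommGroup.card_monoidHom_of_hasEnoughRootsOfUnity A ℂ
    rw [Nat.card_eq_fintype_card, Nat.card_eq_fintype_card] at h1
    rw [h1]
  · obtain ⟨ψ, hψ⟩ := exists_char_ne_one h
    have h1 : ∑ χ : A →* ℂˣ, ((χ a : ℂˣ) : ℂ) = ((ψ a : ℂˣ) : ℂ) * ∑ χ : A →* ℂˣ, ((χ a : ℂˣ) : ℂ) := by
      rw [Finset.mul_sum, ← Equiv.sum_comp (Equiv.mulLeft ψ)]
      simp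
    have h2 : ((ψ a : ℂˣ) : ℂ) ≠ 1 := by
      intro h3
      exact hψ (Units.ext h3)
    have h3 : (1 - ((ψ a : ℂˣ) : ℂ)) * ∑ χ : A →* ℂˣ, ((χ a : ℂˣ) : ℂ) = 0 := by
      rw [sub_mul, one_mul, ← h1, sub_self]
    rcases mul_eq_zero.1 h3 with h4 | h4
    · exact absurd (sub_eq_zero.1 h4).symm h2
    · exact h4

/-- Unnormalised Fourier coefficient. -/
noncomputable def coef (f : A → ℂ) (χ : A →* ℂˣ) : ℂ :=
  (∑ b : A, f b * (((χ b)⁻¹ : ℂˣ) : ℂ)) / (Fintype.card A : ℂ)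

theorem card_ne_zero' : (Fintype.card A : ℂ) ≠ 0 := by
  exact_mod_cast Fintype.card_ne_zero

theorem inversion (f : A → ℂ) (a : A) :
    f a = ∑ χ : A →* ℂˣ, coef f χ * ((χ a : ℂˣ) : ℂ) := by
  classical
  have h1 : ∑ χ : A →* ℂˣ, coef f χ * ((χ a : ℂˣ) : ℂ)
      = (∑ b : A, f b * ∑ χ : A →* ℂˣ, ((χ (b⁻¹ * a) : ℂˣ) : ℂ)) / (Fintype.card A : ℂ) := by
    unfold coef
    simp_rw [div_mul_eq_mul_div, ← Finset.sum_div]
    congr 1
    simp_rw [Finset.sum_mul, Finset.mul_sum]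
    rw [Finset.sum_comm]
    refine Finset.sum_congr rfl fun b _ => Finset.sum_congr rfl fun χ _ => ?_
    rw [map_mul, map_inv, Units.val_mul]
    ring
  rw [h1]
  simp_rw [sum_char]
  have h2 : ∀ b : A, f b * (if b⁻¹ * a = 1 then (Fintype.card A : ℂ) else 0)
      = if b = a then f a * (Fintype.card A : ℂ) else 0 := by
    intro b
    by_cases h : b = a
    · subst h; simp
    · have : b⁻¹ * a ≠ 1 := by
        intro h'
        exact h (inv_mul_eq_one.1 h')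
      simp [h, this]
  simp_rw [h2]
  rw [Finset.sum_ite_eq' Finset.univ a]
  simp only [mem_univ, if_true]
  field_simp [card_ne_zero' (A := A)]

/-- uniqueness of coefficients -/
theorem coef_unique (f : A → ℂ) (c : (A →* ℂˣ) → ℂ)
    (h : ∀ a, f a = ∑ χ : A →* ℂˣ, c χ * ((χ a : ℂˣ) : ℂ)) (ψ : A →* ℂˣ) : coef f ψ = c ψ := by
  classical
  unfold coef
  have h1 : ∑ b : A, f b * (((ψ b)⁻¹ : ℂˣ) : ℂ)
      = ∑ χ : A →* ℂˣ, c χ * ∑ b : A, (((χ * ψ⁻¹) b : ℂˣ) : ℂ) := by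
    simp_rw [h, Finset.sum_mul, Finset.mul_sum]
    rw [Finset.sum_comm]
    refine Finset.sum_congr rfl fun b _ => Finset.sum_congr rfl fun χ _ => ?_
    simp only [MonoidHom.mul_apply, MonoidHom.inv_apply, Units.val_mul]
    ring
  rw [h1]
  simp_rw [sum_elt]
  have h2 : ∀ χ : A →* ℂˣ, c χ * (if χ * ψ⁻¹ = 1 then (Fintype.card A : ℂ) else 0)
      = if χ = ψ then c ψ * (Fintype.card A : ℂ) else 0 := by
    intro χ
    by_cases h : χ = ψ
    · subst h
      rw [if_pos rfl, if_pos (mul_inv_cancel χ)]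
    · have : χ * ψ⁻¹ ≠ 1 := by
        intro h'
        exact h (mul_inv_eq_one.1 h')
      simp [h, this]
  simp_rw [h2]
  rw [Finset.sum_ite_eq' Finset.univ ψ]
  simp only [mem_univ, if_true]
  field_simp [card_ne_zero' (A := A)]

theorem norm_char (χ : A →* ℂˣ) (a : A) : ‖((χ a : ℂˣ) : ℂ)‖ = 1 := by
  have h1 : ((χ a : ℂˣ) : ℂ) ^ (Fintype.card A) = 1 := by
    rw [← Units.val_pow_eq_pow_val, ← map_pow, pow_card_eq_one, map_one, Units.val_one]
  exact Complex.norm_eq_one_of_pow_eq_one h1 Fintype.card_ne_zero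

end

end Pool.Agent.H7.HB
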