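import Pool.Agent.H7.Heil.Perm

/-!
Elementary abelian two-groups generated by disjoint transpositions.
-/

open Finset Equiv Equiv.Perm

namespace Pool.Agent.H7.HB

set_option linter.unusedSectionVars false

/-- translation action of `β → Z` on `β × Z` -/
def tr (β Z : Type) [AddCommGroup Z] : Multiplicative (β → Z) →* Perm (β × Z) where
  toFun e :=
    { toFun := fun p => (p.1, p.2 + e.toAdd p.1)
      invFun := fun p => (p.1, p.2 - e.toAdd p.1)
      left_inv := by intro p; simp
      right_inv := by intro p; simp }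
  map_one' := by ext p <;> simp
  map_mul' := by
    intro a b
    ext p
    · simp
    · simp only [toAdd_mul, Pi.add_apply, coe_fn_mk, mul_apply]
      rw [add_assoc, add_comm (b.toAdd p.1)]

theorem tr_apply (β Z : Type) [AddCommGroup Z] (e : Multiplicative (β → Z)) (p : β × Z) :
    tr β Z e p = (p.1, p.2 + e.toAdd p.1) := rfl

theorem tr_support_card (β Z : Type) [AddCommGroup Z] [Fintype β] [DecidableEq β] [Fintype Z]
    [DecidableEq Z] (e : Multiplicative (β → Z)) :
    #(tr β Z e).support = Fintype.card Z * #(univ.filter fun b => e.toAdd b ≠ 0) := by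
  have : (tr β Z e).support = (univ.filter fun b => e.toAdd b ≠ 0) ×ˢ (univ : Finset Z) := by
    ext p
    rw [mem_support, tr_apply]
    simp only [ne_eq, Prod.ext_iff, true_and, add_eq_left, mem_product, mem_filter, mem_univ,
      and_true]
  rw [this, card_product, mul_comm, card_univ]

/-- sign character of `ZMod 2` -/
def s2 (i : ZMod 2) : ℂˣ := if i = 0 then 1 else -1

theorem s2_zero : s2 0 = 1 := rfl

theorem s2_of_ne {i : ZMod 2} (h : i ≠ 0) : s2 i = -1 := if_neg h

theorem s2_add (i j : ZMod 2) : s2 (i + j) = s2 i * s2 j := by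
  have hij : ∀ i : ZMod 2, i = 0 ∨ i = 1 := by decide
  have h11 : (1 : ZMod 2) + 1 = 0 := by decide
  rcases hij i with rfl | rfl <;> rcases hij j with rfl | rfl
  · simp [s2]
  · simp [s2]
  · simp [s2]
  · rw [h11]; simp [s2]

variable {k : ℕ}

/-- the character attached to a subset -/
def kT (T : Finset (Fin k)) : Multiplicative (Fin k → ZMod 2) →* ℂˣ where
  toFun e := ∏ b ∈ T, s2 (e.toAdd b)
  map_one' := by simp [s2_zero]
  map_mul' := by
    intro a b
    rw [← Finset.prod_mul_distrib]
    refine Finset.prod_congr rfl fun c _ => ?_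
    rw [toAdd_mul, Pi.add_apply, s2_add]

theorem kT_apply (T : Finset (Fin k)) (e : Multiplicative (Fin k → ZMod 2)) :
    kT T e = ∏ b ∈ T, s2 (e.toAdd b) := rfl

theorem neg_one_ne_one' : (-1 : ℂˣ) ≠ 1 := by
  intro h
  have := congrArg (fun u : ℂˣ => (u : ℂ)) h
  norm_num at this

theorem kT_single (T : Finset (Fin k)) (b : Fin k) :
    kT T (Multiplicative.ofAdd (Pi.single b (1 : ZMod 2) : Fin k → ZMod 2))
      = if b ∈ T then -1 else 1 := by
  rw [kT_apply]
  have h1 : ∀ c : Fin k,
      s2 ((Multiplicative.ofAdd (Pi.single b (1 : ZMod 2) : Fin k → ZMod 2)).toAdd c)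
      = if c = b then (-1 : ℂˣ) else 1 := by
    intro c
    by_cases hc : c = b
    · subst hc
      simp [s2]
    · simp [s2, hc]
  simp_rw [h1]
  rw [Finset.prod_ite_eq']

theorem kT_injective : Function.Injective (kT (k := k)) := by
  intro T T' h
  ext b
  have h1 := kT_single T b
  have h2 := kT_single T' b
  rw [h, h2] at h1
  by_cases hb : b ∈ T <;> by_cases hb' : b ∈ T'
  · simp [hb, hb']
  · rw [if_pos hb, if_neg hb'] at h1
    exact absurd h1.symm neg_one_ne_one'
  · rw [if_neg hb, if_pos hb'] at h1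
    exact absurd h1 neg_one_ne_one'
  · simp [hb, hb']

theorem kT_bijective : Function.Bijective (kT (k := k)) := by
  rw [Fintype.bijective_iff_injective_and_card]
  refine ⟨kT_injective, ?_⟩
  have h1 := CommGroup.card_monoidHom_of_hasEnoughRootsOfUnity
    (Multiplicative (Fin k → ZMod 2)) ℂ
  rw [Nat.card_eq_fintype_card, Nat.card_eq_fintype_card] at h1
  rw [h1]
  simp

/-- Hamming weight -/
def wt (e : Multiplicative (Fin k → ZMod 2)) : ℕ := #(univ.filter fun b => e.toAdd b ≠ 0)

theorem sum_kT {M : Type*} [AddCommMonoid M] (f : (Multiplicative (Fin k → ZMod 2) →* ℂˣ) → M) :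
    ∑ χ, f χ = ∑ T : Finset (Fin k), f (kT T) :=
  (Function.Bijective.sum_comp kT_bijective f).symm

theorem choose_two_le (k w : ℕ) (h1 : 2 ≤ w) (h2 : w + 2 ≤ k) : k.choose 2 ≤ k.choose w := by
  induction k generalizing w with
  | zero => omega
  | succ k ih =>
    obtain ⟨v, rfl⟩ : ∃ v, w = v + 1 := ⟨w - 1, by omega⟩
    rcases Nat.lt_or_ge v 2 with hv | hv
    · have : v = 1 := by omega
      subst this
      exact le_refl _
    · rcases Nat.lt_or_ge k (v + 3) with hk | hk
      · have hk' : k + 1 = (v + 1) + 2 := by omega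
        rw [hk', Nat.choose_symm_add]
      · rw [Nat.choose_succ_succ k 1, Nat.choose_succ_succ k v]
        have h3 := ih v hv (by omega)
        have h4 := ih (v + 1) (by omega) (by omega)
        have h5 : k.choose 1 ≤ k.choose 2 := by
          rw [Nat.choose_one_right, Nat.choose_two_right]
          have : k * 2 ≤ k * (k - 1) := Nat.mul_le_mul_left _ (by omega)
          omega
        change k.choose 1 + k.choose 2 ≤ k.choose v + k.choose (v + 1)
        omega

section step1

variable {θ : Multiplicative (Fin k → ZMod 2) → ℂ}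

theorem mult_perm (h : Heil θ) (hw : ∀ e e', wt e = wt e' → θ e = θ e')
    (π : Equiv.Perm (Fin k)) (T : Finset (Fin k)) :
    mult h (MonoidHom.id _) (kT T) = mult h (MonoidHom.id _) (kT (T.map π.toEmbedding)) := by
  have h1 := mult_sum h (MonoidHom.id _) (kT T)
  have h2 := mult_sum h (MonoidHom.id _) (kT (T.map π.toEmbedding))
  have h3 : ∑ a, θ ((MonoidHom.id _) a) * (((kT (T.map π.toEmbedding) a)⁻¹ : ℂˣ) : ℂ)
      = ∑ a, θ ((MonoidHom.id _) a) * (((kT T a)⁻¹ : ℂˣ) : ℂ) := by
    let F : Multiplicative (Fin k → ZMod 2) ≃ Multiplicative (Fin k → ZMod 2) :=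
      Multiplicative.toAdd.trans ((Equiv.arrowCongr π (Equiv.refl (ZMod 2))).trans
        Multiplicative.ofAdd)
    rw [← Equiv.sum_comp F]
    refine Finset.sum_congr rfl fun e _ => ?_
    have hF : ∀ b, (F e).toAdd b = e.toAdd (π.symm b) := fun b => rfl
    have hw' : wt (F e) = wt e := by
      unfold wt
      refine Finset.card_bij (fun b _ => π.symm b) ?_ ?_ ?_
      · intro b hb
        simp only [mem_filter, mem_univ, true_and] at hb ⊢
        rwa [hF] at hb
      · intro a _ b _ hab
        exact π.symm.injective hab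
      · intro b hb
        refine ⟨π b, ?_, by simp⟩
        simp only [mem_filter, mem_univ, true_and] at hb ⊢
        rw [hF, π.symm_apply_apply]
        exact hb
    have h4 : kT (T.map π.toEmbedding) (F e) = kT T e := by
      rw [kT_apply, kT_apply, Finset.prod_map]
      refine Finset.prod_congr rfl fun b _ => ?_
      rw [hF]
      simp
    simp only [MonoidHom.id_apply]
    rw [h4, hw _ _ hw']
  rw [h3, h1] at h2
  have h5 : (Fintype.card (Multiplicative (Fin k → ZMod 2)) : ℂ) ≠ 0 := card_ne_zero'
  have h6 := mul_right_cancel₀ h5 h2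
  exact_mod_cast h6

theorem exists_perm_map (T T' : Finset (Fin k)) (h : #T = #T') :
    ∃ π : Equiv.Perm (Fin k), T.map π.toEmbedding = T' := by
  classical
  have hc : Fintype.card {x // x ∈ T} = Fintype.card {x // x ∈ T'} := by
    rw [Fintype.card_coe, Fintype.card_coe, h]
  let e : {x // x ∈ T} ≃ {x // x ∈ T'} := Fintype.equivOfCardEq hc
  refine ⟨e.extendSubtype, ?_⟩
  apply Finset.eq_of_subset_of_card_le
  · intro b hb
    rw [Finset.mem_map] at hb
    obtain ⟨a, ha, rfl⟩ := hb
    exact e.extendSubtype_mem a ha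
  · rw [Finset.card_map, h]

theorem mult_card (h : Heil θ) (hw : ∀ e e', wt e = wt e' → θ e = θ e')
    (T T' : Finset (Fin k)) (hT : #T = #T') :
    mult h (MonoidHom.id _) (kT T) = mult h (MonoidHom.id _) (kT T') := by
  obtain ⟨π, rfl⟩ := exists_perm_map T T' hT
  exact mult_perm h hw π T

theorem step1 (hk : 5 ≤ k) (h : Heil θ) {r : ℕ} (hr : θ 1 = r) (hrk : r ≤ 2 * k - 2)
    (hw : ∀ e e', wt e = wt e' → θ e = θ e') :
    ∃ d : ℕ, d ≤ 1 ∧ ∀ e, Even (wt e) → θ e = (r : ℂ) - d * (2 * wt e : ℕ) := by
  classical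
  let M : Finset (Fin k) → ℕ := fun T => mult h (MonoidHom.id _) (kT T)
  have hMc : ∀ T T', #T = #T' → M T = M T' := mult_card h hw
  have hexp : ∀ e, θ e = ∑ T : Finset (Fin k), (M T : ℂ) * ((kT T e : ℂˣ) : ℂ) := by
    intro e
    have h1 := expand h (MonoidHom.id _) e
    rw [sum_kT] at h1
    exact h1
  have hrsum : r = ∑ T : Finset (Fin k), M T := by
    have h1 := hexp 1
    rw [hr] at h1
    simp only [map_one, Units.val_one, mul_one] at h1
    exact_mod_cast h1
  -- total mass of one level
  have hlevel : ∀ w (T : Finset (Fin k)), #T = w → k.choose w * M T ≤ r := by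
    intro w T hT
    rw [hrsum]
    calc k.choose w * M T = ∑ T' ∈ powersetCard w (univ : Finset (Fin k)), M T := by
          rw [sum_const, card_powersetCard, card_univ, Fintype.card_fin, smul_eq_mul]
      _ = ∑ T' ∈ powersetCard w (univ : Finset (Fin k)), M T' := by
          refine Finset.sum_congr rfl fun T' hT' => hMc _ _ ?_
          rw [hT, (mem_powersetCard.1 hT').2]
      _ ≤ ∑ T', M T' := Finset.sum_le_sum_of_subset (Finset.subset_univ _)
  have hmid : ∀ T : Finset (Fin k), 2 ≤ #T → #T + 2 ≤ k → M T = 0 := by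
    intro T h1 h2
    by_contra h3
    have h4 := hlevel _ T rfl
    have h5 := choose_two_le k _ h1 h2
    have h6 : k.choose (#T) ≤ k.choose (#T) * M T := Nat.le_mul_of_pos_right _ (by omega)
    have h7 : k.choose 2 ≤ 2 * k - 2 := by omega
    rw [Nat.choose_two_right] at h7
    have h8 : k * 4 ≤ k * (k - 1) := Nat.mul_le_mul_left _ (by omega)
    omega
  have h0k : (0 : ℕ) < k := by omega
  let b0 : Fin k := ⟨0, h0k⟩
  let d0 := M {b0}
  let d1 := M {b0}ᶜ
  have hd0 : ∀ b, M {b} = d0 := fun b => hMc _ _ (by simp)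
  have hd1 : ∀ b, M {b}ᶜ = d1 := fun b => hMc _ _ (by rw [card_compl, card_compl]; simp)
  have hinj1 : Function.Injective (fun b : Fin k => ({b} : Finset (Fin k))) :=
    fun a b hab => Finset.singleton_injective hab
  have hinj2 : Function.Injective (fun b : Fin k => ({b}ᶜ : Finset (Fin k))) :=
    fun a b hab => Finset.singleton_injective (compl_injective hab)
  have hdisj : Disjoint (univ.image (fun b : Fin k => ({b} : Finset (Fin k))))
      (univ.image (fun b : Fin k => ({b}ᶜ : Finset (Fin k)))) := by
    rw [Finset.disjoint_left]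
    intro T h1 h2
    rw [mem_image] at h1 h2
    obtain ⟨a, _, rfl⟩ := h1
    obtain ⟨b, _, hb⟩ := h2
    have := congrArg Finset.card hb
    rw [card_compl, card_singleton, card_singleton, Fintype.card_fin] at this
    omega
  -- sums of functions vanishing outside the two levels
  have hsum : ∀ F : Finset (Fin k) → ℂ, (∀ T, F T ≠ 0 → #T = 1 ∨ #T + 1 = k) →
      ∑ T, F T = ∑ b : Fin k, F {b} + ∑ b : Fin k, F {b}ᶜ := by
    intro F hF
    rw [← Finset.sum_image (f := F) (g := fun b : Fin k => ({b} : Finset (Fin k)))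
      (fun a _ b _ hab => hinj1 hab),
      ← Finset.sum_image (f := F) (g := fun b : Fin k => ({b}ᶜ : Finset (Fin k)))
      (fun a _ b _ hab => hinj2 hab), ← Finset.sum_union hdisj]
    symm
    apply Finset.sum_subset (Finset.subset_univ _)
    intro T _ hT
    by_contra hne
    apply hT
    rw [mem_union, mem_image, mem_image]
    rcases hF T hne with h1 | h1
    · left
      obtain ⟨b, rfl⟩ := Finset.card_eq_one.1 h1
      exact ⟨b, mem_univ _, rfl⟩
    · right
      have h2 : #(Tᶜ) = 1 := by
        rw [card_compl, Fintype.card_fin]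
        omega
      obtain ⟨b, hb⟩ := Finset.card_eq_one.1 h2
      exact ⟨b, mem_univ _, by rw [← hb, compl_compl]⟩
  have hd : d0 + d1 ≤ 1 := by
    have h1 : k * d0 + k * d1 ≤ r := by
      rw [hrsum]
      have h2 : ∑ b : Fin k, M {b} + ∑ b : Fin k, M {b}ᶜ = k * d0 + k * d1 := by
        simp_rw [hd0, hd1]
        simp
      rw [← h2, ← Finset.sum_image (f := M) (g := fun b : Fin k => ({b} : Finset (Fin k)))
        (fun a _ b _ hab => hinj1 hab),
        ← Finset.sum_image (f := M) (g := fun b : Fin k => ({b}ᶜ : Finset (Fin k)))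
        (fun a _ b _ hab => hinj2 hab), ← Finset.sum_union hdisj]
      exact Finset.sum_le_sum_of_subset (Finset.subset_univ _)
    have h2 : k * (d0 + d1) ≤ 2 * k - 2 := by
      rw [mul_add]
      exact h1.trans hrk
    by_contra h3
    have h4 : k * 2 ≤ k * (d0 + d1) := Nat.mul_le_mul_left _ (by omega)
    omega
  refine ⟨d0 + d1, hd, fun e he => ?_⟩
  -- the sign of univ on e
  have hprod : ∀ T : Finset (Fin k), kT T e * kT Tᶜ e = 1 := by
    intro T
    rw [kT_apply, kT_apply, Finset.prod_mul_prod_compl]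
    have h1 : ∀ b : Fin k, s2 (e.toAdd b) = if e.toAdd b ≠ 0 then (-1 : ℂˣ) else 1 := by
      intro b
      by_cases hb : e.toAdd b = 0
      · simp [s2, hb]
      · simp [s2, hb]
    simp_rw [h1]
    rw [Finset.prod_ite, Finset.prod_const, Finset.prod_const_one, mul_one]
    exact he.neg_one_pow
  have hval : ∀ b : Fin k, ((kT {b} e : ℂˣ) : ℂ) = if e.toAdd b ≠ 0 then -1 else 1 := by
    intro b
    rw [kT_apply, Finset.prod_singleton]
    by_cases hb : e.toAdd b = 0
    · simp [s2, hb]
    · simp [s2, hb]
  have hcompl : ∀ b : Fin k, ((kT {b}ᶜ e : ℂˣ) : ℂ) = ((kT {b} e : ℂˣ) : ℂ) := by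
    intro b
    have h1 := hprod {b}
    have h2 : ((kT {b} e : ℂˣ) : ℂ) * ((kT {b}ᶜ e : ℂˣ) : ℂ) = 1 := by
      rw [← Units.val_mul, h1, Units.val_one]
    rw [hval] at h2 ⊢
    split_ifs at h2 ⊢
    · linear_combination -h2
    · linear_combination h2
  have hdiff : (r : ℂ) - θ e
      = ∑ T : Finset (Fin k), (M T : ℂ) * (1 - ((kT T e : ℂˣ) : ℂ)) := by
    rw [hexp e]
    simp only [mul_sub, mul_one, Finset.sum_sub_distrib]
    congr 1
    exact_mod_cast hrsum
  rw [hsum] at hdiff
  · simp_rw [hd0, hd1, hcompl, hval] at hdiff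
    have h1 : ∀ c : ℂ, ∑ b : Fin k, c * (1 - (if e.toAdd b ≠ 0 then (-1 : ℂ) else 1))
        = c * (2 * wt e) := by
      intro c
      rw [← Finset.mul_sum]
      congr 1
      have h2 : ∀ b : Fin k, (1 - (if e.toAdd b ≠ 0 then (-1 : ℂ) else 1))
          = if e.toAdd b ≠ 0 then (2 : ℂ) else 0 := by
        intro b
        split_ifs <;> norm_num
      simp_rw [h2]
      rw [← Finset.sum_filter, sum_const, nsmul_eq_mul]
      unfold wt
      ring
    rw [h1, h1] at hdiff
    push_cast
    linear_combination -hdiff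
  · intro T hT
    by_contra hcon
    push Not at hcon
    obtain ⟨hc1, hc2⟩ := hcon
    apply hT
    by_cases h0 : #T = 0
    · rw [Finset.card_eq_zero.1 h0, kT_apply]
      simp
    · have hle : #T ≤ k := by
        have := Finset.card_le_univ T
        rwa [Fintype.card_fin] at this
      by_cases h1 : #T = k
      · have hT' : Tᶜ = ∅ := by
          rw [← Finset.card_eq_zero, card_compl, Fintype.card_fin]
          omega
        have h2 := hprod T
        rw [hT', kT_apply ∅, Finset.prod_empty, mul_one] at h2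
        rw [h2]
        simp
      · have h2 := hmid T (by omega) (by omega)
        rw [h2]
        simp

end step1

section via

variable {α β : Type} [Fintype α] [DecidableEq α] [Fintype β] [DecidableEq β]

theorem via_cycleType (ι : β ↪ α) (x : Perm β) :
    (viaEmbeddingHom ι x).cycleType = x.cycleType := by
  rw [viaEmbeddingHom_apply]
  unfold viaEmbedding
  exact @cycleType_extendDomain β _ _ α _ _ _ (fun a => Classical.propDecidable _) _ x

theorem via_card (ι : β ↪ α) (x : Perm β) :
    #(viaEmbeddingHom ι x).support = #x.support := by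
  rw [← sum_cycleType, ← sum_cycleType, via_cycleType]

theorem via_sign (ι : β ↪ α) (x : Perm β) : sign (viaEmbeddingHom ι x) = sign x := by
  rw [sign_of_cycleType, sign_of_cycleType, via_cycleType]

end via

/-- the values on even involutions -/
theorem even_involutions {α : Type} [Fintype α] [DecidableEq α] {θ : Perm α → ℂ} (h : Heil θ)
    {r : ℕ} (hr : θ 1 = r) (hn : 10 ≤ Fintype.card α) (hrn : r + 3 ≤ Fintype.card α) :
    ∃ d : ℕ, d ≤ 1 ∧ ∀ x : Perm α, x ^ 2 = 1 → sign x = 1 → θ x = (r : ℂ) - d * #x.support := by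
  classical
  let k := Fintype.card α / 2
  have hk : 5 ≤ k := by omega
  have hemb : Fintype.card (Fin k × ZMod 2) ≤ Fintype.card α := by
    rw [Fintype.card_prod, Fintype.card_fin, ZMod.card]
    omega
  obtain ⟨ι⟩ := Function.Embedding.nonempty_of_card_le hemb
  let f : Multiplicative (Fin k → ZMod 2) →* Perm α := (viaEmbeddingHom ι).comp (tr (Fin k) (ZMod 2))
  have hf2 : ∀ e, (f e) ^ 2 = 1 := by
    intro e
    rw [← map_pow]
    have : e ^ 2 = 1 := by
      apply Multiplicative.toAdd.injective
      ext b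
      rw [toAdd_pow, toAdd_one]
      simp only [Pi.smul_apply, Pi.zero_apply]
      have h2 : ∀ i : ZMod 2, 2 • i = 0 := by decide
      exact h2 _
    rw [this, map_one]
  have hfc : ∀ e, #(f e).support = 2 * wt e := by
    intro e
    change #(viaEmbeddingHom ι (tr (Fin k) (ZMod 2) e)).support = _
    rw [via_card, tr_support_card, ZMod.card]
    rfl
  obtain ⟨d, hd, hd2⟩ := step1 hk (h.comp f) (r := r) (by rw [map_one, hr]) (by omega)
    (fun e e' hee => h.of_isConj (isConj_of_prime Nat.prime_two (hf2 e) (hf2 e')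
      (by rw [hfc, hfc, hee])))
  refine ⟨d, hd, fun x hx hs => ?_⟩
  have h1 := even_half_of_sign hx hs
  have h2 : 2 ∣ #x.support := two_dvd_card_support hx
  have h3 : #x.support ≤ Fintype.card α := Finset.card_le_univ _
  -- element of weight #supp/2
  obtain ⟨T, hT⟩ : ∃ T : Finset (Fin k), #T = #x.support / 2 := by
    obtain ⟨T, -, hT⟩ := Finset.exists_subset_card_eq (s := (univ : Finset (Fin k)))
      (n := #x.support / 2) (by rw [card_univ, Fintype.card_fin]; omega)
    exact ⟨T, hT⟩
  let e : Multiplicative (Fin k → ZMod 2) := Multiplicative.ofAdd fun b => if b ∈ T then 1 else 0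
  have hwe : wt e = #x.support / 2 := by
    rw [← hT]
    unfold wt
    congr 1
    ext b
    by_cases hb : b ∈ T
    · simp [e, hb]
    · simp [e, hb]
  have h4 : θ x = θ (f e) := by
    refine h.of_isConj (isConj_of_prime Nat.prime_two hx (hf2 e) ?_)
    rw [hfc, hwe]
    omega
  have h5 := hd2 e (by rw [hwe]; exact h1)
  rw [h4, h5, hwe]
  congr 3
  have : 2 * (#x.support / 2) = #x.support := by omega
  exact this

end Pool.Agent.H7.HB
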