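import Pool.Agent.H7.Heil.Tools

/-!
Permutation lemmas: conjugacy in prime order, cutting a cycle.
-/

open Finset Equiv Equiv.Perm

namespace Pool.Agent.H7.HB

set_option linter.unusedSectionVars false

variable {α : Type} [Fintype α] [DecidableEq α]

theorem ap_inv (f : Perm α) (y : α) : f (f⁻¹ y) = y := f.apply_symm_apply y

theorem inv_ap (f : Perm α) (y : α) : f⁻¹ (f y) = y := f.symm_apply_apply y

theorem ap_pow (g : Perm α) (i : ℕ) (x : α) : g ((g ^ i) x) = (g ^ (i + 1)) x := by
  rw [pow_succ', mul_apply]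

theorem card_cycleType_of_prime {p : ℕ} (hp : p.Prime) {x : Perm α} (hx : x ^ p = 1) :
    x.cycleType = Multiset.replicate (#x.support / p) p := by
  have : Fact p.Prime := ⟨hp⟩
  have h1 := cycleType_of_pow_prime_eq_one hx
  have h2 := sum_cycleType x
  rw [h1, Multiset.sum_replicate, smul_eq_mul] at h2
  rw [← h2, Nat.mul_div_cancel _ hp.pos]
  exact h1

theorem isConj_of_prime {p : ℕ} (hp : p.Prime) {x y : Perm α} (hx : x ^ p = 1) (hy : y ^ p = 1)
    (hxy : #x.support = #y.support) : IsConj x y := by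
  rw [isConj_iff_cycleType_eq, card_cycleType_of_prime hp hx, card_cycleType_of_prime hp hy, hxy]

theorem sign_of_sq {x : Perm α} (hx : x ^ 2 = 1) : sign x = (-1) ^ (#x.support / 2) := by
  rw [sign_of_cycleType, card_cycleType_of_prime Nat.prime_two hx]
  simp only [Multiset.sum_replicate, smul_eq_mul, Multiset.card_replicate]
  rw [pow_add, pow_mul', ]
  simp

theorem even_half_of_sign {x : Perm α} (hx : x ^ 2 = 1) (hs : sign x = 1) :
    Even (#x.support / 2) := by
  rw [sign_of_sq hx] at hs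
  by_contra h
  rw [Nat.not_even_iff_odd] at h
  rw [h.neg_one_pow] at hs
  exact absurd hs (by decide)

theorem isConj_inv (x : Perm α) : IsConj x x⁻¹ := by
  rw [isConj_iff_cycleType_eq, cycleType_inv]

/-- Number of pairs in the same cycle. -/
noncomputable def N (g : Perm α) : ℕ := (univ.filter fun p : α × α => g.SameCycle p.1 p.2).card

/-- permutations moving every point inside its `g`-orbit -/
def Stab (g : Perm α) : Subgroup (Perm α) where
  carrier := {y | ∀ a, g.SameCycle a (y a)}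
  mul_mem' := by
    intro y y' hy hy' a
    rw [mul_apply]
    exact (hy' a).trans (hy _)
  one_mem' := fun a => SameCycle.refl _ _
  inv_mem' := by
    intro y hy a
    have := hy (y⁻¹ a)
    rw [ap_inv] at this
    exact this.symm

theorem sameCycle_of_stab {g y : Perm α} (hy : y ∈ Stab g) {a b : α} (h : y.SameCycle a b) :
    g.SameCycle a b := by
  obtain ⟨i, rfl⟩ := h
  exact (Stab g).zpow_mem hy i a

theorem N_lt {g y : Perm α} (hy : y ∈ Stab g) {a b : α} (h1 : g.SameCycle a b)
    (h2 : ¬ y.SameCycle a b) : N y < N g := by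
  refine Finset.card_lt_card ?_
  rw [Finset.ssubset_iff_of_subset]
  · exact ⟨(a, b), by simpa using h1, by simpa using h2⟩
  · intro p hp
    simp only [mem_filter, mem_univ, true_and] at hp ⊢
    exact sameCycle_of_stab hy hp

theorem self_mem_stab (g : Perm α) : g ∈ Stab g := fun _ => sameCycle_apply_right.2 (SameCycle.refl _ _)

/-- the cycle of `g ^ m` through `x` -/
def cyc (g : Perm α) (m : ℕ) (x : α) : Perm α := (g ^ m).cycleOf x

theorem cyc_mem_stab (g : Perm α) (m : ℕ) (x : α) : cyc g m x ∈ Stab g := by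
  intro a
  unfold cyc
  rw [cycleOf_apply]
  split_ifs
  · exact sameCycle_pow_right.2 (SameCycle.refl _ _)
  · exact SameCycle.refl _ _

theorem cyc_conj (g : Perm α) (m : ℕ) (x : α) (i : ℤ) :
    g ^ i * cyc g m x * g ^ (-i) = cyc g m ((g ^ i) x) := by
  ext y
  unfold cyc
  rw [mul_apply, mul_apply, cycleOf_apply, cycleOf_apply]
  have h1 : (g ^ m).SameCycle x ((g ^ (-i)) y) ↔ (g ^ m).SameCycle ((g ^ i) x) y := by
    have h2 : g ^ m = g ^ i * g ^ m * (g ^ i)⁻¹ := by
      rw [← zpow_natCast, ← zpow_neg, ← zpow_add, ← zpow_add]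
      congr 1
      ring
    conv_rhs => rw [h2]
    rw [sameCycle_conj, inv_ap, ← zpow_neg]
  by_cases h3 : (g ^ m).SameCycle x ((g ^ (-i)) y)
  · rw [if_pos h3, if_pos (h1.1 h3), ← mul_apply, ← mul_apply, ← zpow_natCast, ← zpow_add,
      ← zpow_add]
    congr 2
    ring_nf
  · rw [if_neg h3, if_neg (fun h => h3 (h1.2 h)), ← mul_apply, ← zpow_add, add_neg_cancel,
      zpow_zero, one_apply]

theorem cycleOf_commute (f : Perm α) (x y : α) : Commute (f.cycleOf x) (f.cycleOf y) := by
  by_cases h : f.SameCycle x y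
  · rw [h.cycleOf_eq]
  · apply Disjoint.commute
    intro w
    by_cases hw : f.SameCycle x w
    · right
      exact cycleOf_apply_of_not_sameCycle (fun h' => h (hw.trans h'.symm))
    · left
      exact cycleOf_apply_of_not_sameCycle hw

theorem cycleOf_disjoint (f : Perm α) (x y : α) (h : ¬ f.SameCycle x y) :
    Disjoint (f.cycleOf x) (f.cycleOf y) := by
  intro w
  by_cases hw : f.SameCycle x w
  · right
    exact cycleOf_apply_of_not_sameCycle (fun h' => h (hw.trans h'.symm))
  · left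
    exact cycleOf_apply_of_not_sameCycle hw

theorem cyc_commute (g : Perm α) (m : ℕ) (x : α) (i : ℤ) :
    Commute (cyc g m x) (g ^ i * cyc g m x * g ^ (-i)) := by
  rw [cyc_conj]
  exact cycleOf_commute _ _ _

/-- `g` has exact period `l` at `x`. -/
def HasPer (g : Perm α) (x : α) (l : ℕ) : Prop := 0 < l ∧ ∀ i : ℤ, (g ^ i) x = x ↔ (l : ℤ) ∣ i

theorem exists_per (g : Perm α) (x : α) : ∃ l, HasPer g x l := by
  refine ⟨Function.minimalPeriod (g • ·) x, ?_, fun i => ?_⟩
  · have h1 : Function.IsPeriodicPt (g • ·) (orderOf g) x := by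
      unfold Function.IsPeriodicPt Function.IsFixedPt
      rw [smul_iterate, pow_orderOf_eq_one]
      simp
    exact h1.minimalPeriod_pos (orderOf_pos g)
  · have := MulAction.zpow_smul_eq_iff_minimalPeriod_dvd (a := g) (b := x) (n := i)
    simpa using this

theorem HasPer.dvd_of_pow {g : Perm α} {x : α} {l : ℕ} (h : HasPer g x l) {u : ℕ}
    (hu : g ^ u = 1) : l ∣ u := by
  have := (h.2 u).1 (by rw [zpow_natCast, hu, one_apply])
  exact_mod_cast this

theorem HasPer.ne_one {g : Perm α} {x : α} {l : ℕ} (h : HasPer g x l) : g x ≠ x ↔ l ≠ 1 := by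
  have := h.2 1
  rw [zpow_one] at this
  rw [not_iff_not, this]
  constructor
  · intro h'
    have : l ∣ 1 := by exact_mod_cast h'
    exact Nat.dvd_one.1 this
  · rintro rfl
    simp

section cut

variable {g : Perm α} {x : α} {q m : ℕ}

theorem cyc_apply_ne (hq : 1 < q) (hm : 0 < m) (h : HasPer g x (q * m)) : (g ^ m) x ≠ x := by
  intro h1
  have := (h.2 m).1 (by rw [zpow_natCast]; exact h1)
  have h2 : q * m ∣ m := by exact_mod_cast this
  have h3 := Nat.le_of_dvd hm h2
  nlinarith

theorem cyc_isCycle (hq : 1 < q) (hm : 0 < m) (h : HasPer g x (q * m)) : (cyc g m x).IsCycle :=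
  isCycle_cycleOf _ (cyc_apply_ne hq hm h)

theorem cyc_pow (h : HasPer g x (q * m)) : (cyc g m x) ^ q = 1 := by
  ext y
  by_cases hy : (g ^ m).SameCycle x y
  · have h1 : cyc g m x = cyc g m y := hy.cycleOf_eq
    obtain ⟨i, rfl⟩ := hy
    rw [h1]
    unfold cyc
    rw [cycleOf_pow_apply_self, one_apply, ← mul_apply, ← zpow_natCast, ← zpow_natCast,
      (Commute.zpow_zpow_self _ _ _).eq, mul_apply]
    congr 1
    rw [← zpow_mul]
    exact (h.2 _).2 ⟨1, by push_cast; ring⟩
  · rw [one_apply]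
    have : ∀ k : ℕ, ((cyc g m x) ^ k) y = y := by
      intro k
      induction k with
      | zero => rfl
      | succ k ih =>
        rw [pow_succ', mul_apply, ih]
        exact cycleOf_apply_of_not_sameCycle hy
    exact this q

theorem cyc_order (hq : q.Prime) (hm : 0 < m) (h : HasPer g x (q * m)) :
    orderOf (cyc g m x) = q := by
  rcases (Nat.dvd_prime hq).1 (orderOf_dvd_of_pow_eq_one (cyc_pow h)) with h1 | h1
  · rw [orderOf_eq_one_iff] at h1
    exact absurd h1 (cyc_isCycle hq.one_lt hm h).ne_one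
  · exact h1

theorem cyc_card (hq : q.Prime) (hm : 0 < m) (h : HasPer g x (q * m)) :
    #(cyc g m x).support = q := by
  rw [← (cyc_isCycle hq.one_lt hm h).orderOf, cyc_order hq hm h]

/-- points of the `g^m`-orbit are not in the same cycle as intermediate ones -/
theorem not_sameCycle_of (h : HasPer g x (q * m)) {i : ℤ} (hi : ¬ (m : ℤ) ∣ i) :
    ¬ (g ^ m).SameCycle x ((g ^ i) x) := by
  rintro ⟨j, hj⟩
  apply hi
  have h1 : (g ^ (-i + m * j)) x = x := by
    rw [zpow_add, mul_apply, zpow_mul, zpow_natCast, hj, ← mul_apply, ← zpow_add, neg_add_cancel,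
      zpow_zero, one_apply]
  have h2 := (h.2 _).1 h1
  have h3 : (m : ℤ) ∣ -i + m * j := dvd_trans ⟨q, by push_cast; ring⟩ h2
  have h4 : (m : ℤ) ∣ -i := (Int.dvd_add_left (Dvd.intro _ rfl)).1 h3
  exact (Int.dvd_neg).1 h4

theorem cut_pow (hm : 0 < m) (h : HasPer g x (q * m)) (i : ℕ) (hi : i < m) :
    (((cyc g m x)⁻¹ * g) ^ i) x = (g ^ i) x := by
  induction i with
  | zero => rfl
  | succ i ih =>
    rw [pow_succ', mul_apply, ih (by omega), mul_apply, ap_pow]
    rw [inv_eq_iff_eq]
    refine (cycleOf_apply_of_not_sameCycle ?_).symm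
    have := not_sameCycle_of h (i := ((i + 1 : ℕ) : ℤ)) (by
      intro h'
      have h'' : m ∣ i + 1 := by exact_mod_cast h'
      exact absurd (Nat.le_of_dvd (by omega) h'') (by omega))
    rwa [zpow_natCast] at this

theorem cut_pow_m (hm : 0 < m) (h : HasPer g x (q * m)) :
    (((cyc g m x)⁻¹ * g) ^ m) x = x := by
  obtain ⟨k, rfl⟩ : ∃ k, m = k + 1 := ⟨m - 1, by omega⟩
  rw [pow_succ', mul_apply, cut_pow hm h k (by omega), mul_apply, ap_pow, inv_eq_iff_eq]
  exact (cycleOf_apply_self _ _).symm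

theorem cut_not_sameCycle (hq : 1 < q) (hm : 0 < m) (h : HasPer g x (q * m)) :
    ¬ ((cyc g m x)⁻¹ * g).SameCycle x ((g ^ m) x) := by
  intro hs
  obtain ⟨i, hi⟩ := hs.exists_nat_pow_eq
  have h1 : (((cyc g m x)⁻¹ * g) ^ i) x = (((cyc g m x)⁻¹ * g) ^ (i % m)) x := by
    conv_lhs => rw [← Nat.mod_add_div i m, pow_add, pow_mul, mul_apply]
    congr 1
    have : ∀ k : ℕ, (((((cyc g m x)⁻¹ * g)) ^ m) ^ k) x = x := by
      intro k
      induction k with
      | zero => rfl
      | succ k ih =>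
        rw [pow_succ', mul_apply, ih, cut_pow_m hm h]
    exact this _
  rw [h1, cut_pow hm h _ (Nat.mod_lt _ hm)] at hi
  have h2 : (g ^ ((m : ℤ) - ((i % m : ℕ) : ℤ))) x = x := by
    rw [sub_eq_neg_add, zpow_add, mul_apply, zpow_natCast, ← hi, ← zpow_natCast, ← mul_apply,
      ← zpow_add, neg_add_cancel, zpow_zero, one_apply]
  have h3 := (h.2 _).1 h2
  have h4 : i % m < m := Nat.mod_lt _ hm
  have h5 : ((m : ℤ) - ((i % m : ℕ) : ℤ)) = ((m - i % m : ℕ) : ℤ) := by
    push_cast [h4.le]
    ring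
  rw [h5] at h3
  have h6 : q * m ∣ m - i % m := by exact_mod_cast h3
  have h7 := Nat.le_of_dvd (by omega) h6
  nlinarith [Nat.sub_le m (i % m)]

theorem cut_N (hq : 1 < q) (hm : 0 < m) (h : HasPer g x (q * m)) :
    N ((cyc g m x)⁻¹ * g) < N g := by
  refine N_lt (a := x) (b := (g ^ m) x) ?_ (sameCycle_pow_right.2 (SameCycle.refl _ _))
    (cut_not_sameCycle hq hm h)
  exact (Stab g).mul_mem ((Stab g).inv_mem (cyc_mem_stab _ _ _)) (self_mem_stab g)

/-- On the whole `g`-orbit of `x`, the `m`-th power of the cut permutation is trivial. -/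
theorem cut_pow_orbit (hm : 0 < m) (h : HasPer g x (q * m)) {y : α} (hy : g.SameCycle x y) :
    (((cyc g m x)⁻¹ * g) ^ m) y = y := by
  obtain ⟨i, rfl⟩ := hy
  -- write i = m * a + b
  have hb : 0 ≤ i % m := Int.emod_nonneg _ (by omega)
  have hb' : i % m < m := Int.emod_lt_of_pos _ (by omega)
  obtain ⟨b, hb2⟩ := Int.eq_ofNat_of_zero_le hb
  let x' : α := (g ^ ((m : ℤ) * (i / m))) x
  have hx' : HasPer g x' (q * m) := by
    refine ⟨h.1, fun j => ?_⟩
    rw [← h.2 j]
    constructor
    · intro h1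
      have h2 : (g ^ j) ((g ^ ((m : ℤ) * (i / m))) x) = (g ^ ((m : ℤ) * (i / m))) ((g ^ j) x) := by
        rw [← mul_apply, ← mul_apply, (Commute.zpow_zpow_self _ _ _).eq]
      have h3 : (g ^ ((m : ℤ) * (i / m))) ((g ^ j) x) = (g ^ ((m : ℤ) * (i / m))) x := by
        rw [← h2]; exact h1
      exact (g ^ ((m : ℤ) * (i / m))).injective h3
    · intro h1
      change (g ^ j) ((g ^ ((m : ℤ) * (i / m))) x) = (g ^ ((m : ℤ) * (i / m))) x
      rw [← mul_apply, (Commute.zpow_zpow_self _ _ _).eq, mul_apply, h1]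
  have hcyc : cyc g m x = cyc g m x' := by
    unfold cyc
    apply SameCycle.cycleOf_eq
    exact ⟨i / m, by rw [← zpow_natCast, ← zpow_mul]⟩
  have h1 : (g ^ i) x = (((cyc g m x)⁻¹ * g) ^ b) x' := by
    rw [hcyc, cut_pow hm hx' b (by omega), ← zpow_natCast, ← mul_apply, ← zpow_add]
    congr 2
    have h9 := Int.emod_add_mul_ediv i m
    rw [hb2] at h9
    exact h9.symm
  rw [h1, ← mul_apply, ← pow_add, add_comm, pow_add, mul_apply, hcyc, cut_pow_m hm hx']

theorem cut_apply_out {y : α} (hy : ¬ g.SameCycle x y) (i : ℕ) :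
    (((cyc g m x)⁻¹ * g) ^ i) y = (g ^ i) y := by
  induction i with
  | zero => rfl
  | succ i ih =>
    rw [pow_succ', mul_apply, ih, mul_apply, ap_pow, inv_eq_iff_eq]
    refine (cycleOf_apply_of_not_sameCycle ?_).symm
    intro h1
    apply hy
    have h2 := h1.of_pow
    exact sameCycle_pow_right.1 h2

theorem cut_pow_eq_one (hm : 0 < m) (h : HasPer g x (q * m)) {u : ℕ} (hu : g ^ u = 1)
    : ((cyc g m x)⁻¹ * g) ^ u = 1 := by
  have hdvd : q * m ∣ u := h.dvd_of_pow hu
  obtain ⟨k, hk⟩ : m ∣ u := dvd_trans (Dvd.intro_left _ rfl) hdvd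
  ext y
  rw [one_apply]
  by_cases hy : g.SameCycle x y
  · rw [hk, pow_mul]
    have : ∀ k : ℕ, (((((cyc g m x)⁻¹ * g)) ^ m) ^ k) y = y := by
      intro k
      induction k with
      | zero => rfl
      | succ k ih =>
        rw [pow_succ', mul_apply, ih, cut_pow_orbit hm h hy]
    exact this _
  · rw [cut_apply_out hy, hu, one_apply]

theorem HasPer.trans_sameCycle {l : ℕ} (h : HasPer g x l) {y : α} (hy : g.SameCycle x y) :
    HasPer g y l := by
  obtain ⟨k, rfl⟩ := hy
  refine ⟨h.1, fun j => ?_⟩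
  rw [← h.2 j]
  have h2 : (g ^ j) ((g ^ k) x) = (g ^ k) ((g ^ j) x) := by
    rw [← mul_apply, ← mul_apply, (Commute.zpow_zpow_self _ _ _).eq]
  rw [h2]
  exact ⟨fun h3 => (g ^ k).injective h3, fun h3 => by rw [h3]⟩

theorem cut_support (hq : 1 < q) (hm : 1 < m) (h : HasPer g x (q * m)) :
    ((cyc g m x)⁻¹ * g).support = g.support := by
  ext y
  rw [mem_support, mem_support, not_iff_not, mul_apply, inv_eq_iff_eq]
  by_cases hy : g.SameCycle x y
  · have hper := h.trans_sameCycle hy
    have h1 : g y ≠ y := hper.ne_one.2 (by nlinarith)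
    refine ⟨fun h2 => ?_, fun h2 => absurd h2 h1⟩
    exfalso
    unfold cyc at h2
    rw [cycleOf_apply] at h2
    split_ifs at h2 with h3
    · -- g y = g^m y
      have h4 : (g ^ ((m : ℤ) - 1)) y = y := by
        rw [sub_eq_neg_add, zpow_add, mul_apply, zpow_natCast, ← h2, zpow_neg_one, inv_ap]
      have h5 := (hper.2 _).1 h4
      have h6 : ((m : ℤ) - 1) = ((m - 1 : ℕ) : ℤ) := by push_cast [hm.le]; ring
      rw [h6] at h5
      have h7 : q * m ∣ m - 1 := by exact_mod_cast h5
      have h8 := Nat.le_of_dvd (by omega) h7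
      have h9 : m ≤ q * m := Nat.le_mul_of_pos_left _ (by omega)
      omega
    · exact h1 h2
  · have h3 : cyc g m x y = y := cycleOf_apply_of_not_sameCycle (fun h' => hy h'.of_pow)
    rw [h3]

end cut

/-- period one step: the cycle through `x` is disjoint from the rest -/
theorem cyc_one_disjoint (g : Perm α) (x : α) : Disjoint (cyc g 1 x) ((cyc g 1 x)⁻¹ * g) := by
  intro y
  unfold cyc
  rw [pow_one]
  by_cases h : g.SameCycle x y
  · right
    rw [mul_apply, inv_eq_iff_eq]
    rw [h.cycleOf_apply]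
  · left
    exact cycleOf_apply_of_not_sameCycle h

end Pool.Agent.H7.HB
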