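import Pool.Agent.H7.Heil.CaseOne

/-!
Multiplicities on products of groups for functions depending on the weight only.
-/

open Finset

namespace Pool.Agent.H7.HB

set_option linter.unusedSectionVars false

section sums

variable {M M' M'' : Type} [CommGroup M] [Fintype M] [CommGroup M'] [Fintype M']
  [CommGroup M''] [Fintype M'']

open Classical in
theorem sum_one_aux (u : M → ℂ) (hu : u 1 = 1) (A B : ℂ) :
    ∑ e : M, (A + B * (if e = 1 then 1 else 0)) * u e = A * ∑ e, u e + B := by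
  simp_rw [add_mul]
  rw [Finset.sum_add_distrib, ← Finset.mul_sum]
  congr 1
  rw [Finset.sum_eq_single (1 : M)]
  · rw [if_pos rfl, hu, mul_one, mul_one]
  · intro b _ hb
    rw [if_neg hb, mul_zero, zero_mul]
  · intro h
    exact absurd (Finset.mem_univ _) h

open Classical in
theorem sum_two_aux (u : M → ℂ) (v : M' → ℂ) (hu : u 1 = 1) (hv : v 1 = 1) (A B B' C : ℂ) :
    ∑ e : M, ∑ e' : M', (A + B * (if e = 1 then 1 else 0) + (B' + C * (if e = 1 then 1 else 0))
      * (if e' = 1 then 1 else 0)) * (u e * v e')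
      = A * (∑ e, u e) * (∑ e', v e') + B * (∑ e', v e') + B' * (∑ e, u e) + C := by
  have h1 : ∀ e : M, ∑ e' : M', (A + B * (if e = 1 then 1 else 0) +
      (B' + C * (if e = 1 then 1 else 0)) * (if e' = 1 then 1 else 0)) * (u e * v e')
      = ((A * (∑ e', v e') + B') + (B * (∑ e', v e') + C) * (if e = 1 then 1 else 0)) * u e := by
    intro e
    have h2 := sum_one_aux v hv (A + B * (if e = 1 then 1 else 0))
      (B' + C * (if e = 1 then 1 else 0))
    calc _ = (∑ e' : M', (A + B * (if e = 1 then 1 else 0) +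
          (B' + C * (if e = 1 then 1 else 0)) * (if e' = 1 then 1 else 0)) * v e') * u e := by
          rw [Finset.sum_mul]
          refine Finset.sum_congr rfl fun e' _ => ?_
          ring
      _ = _ := by
          rw [h2]
          ring
  simp_rw [h1]
  rw [sum_one_aux u hu]
  ring

open Classical in
theorem sum_three_aux (u : M → ℂ) (v : M' → ℂ) (w : M'' → ℂ) (hu : u 1 = 1) (hv : v 1 = 1)
    (hw : w 1 = 1) (A B C D : ℂ) :
    ∑ e : M, ∑ e' : M', ∑ e'' : M'', (A + B * ((if e = 1 then 1 else 0) + (if e' = 1 then 1 else 0)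
      + (if e'' = 1 then 1 else 0)) + C * ((if e = 1 then 1 else 0) * (if e' = 1 then 1 else 0)
      + (if e = 1 then 1 else 0) * (if e'' = 1 then 1 else 0)
      + (if e' = 1 then 1 else 0) * (if e'' = 1 then 1 else 0))
      + D * ((if e = 1 then 1 else 0) * (if e' = 1 then 1 else 0) * (if e'' = 1 then 1 else 0)))
      * (u e * (v e' * w e''))
      = A * (∑ e, u e) * (∑ e', v e') * (∑ e'', w e'')
        + B * ((∑ e, u e) * (∑ e', v e') + (∑ e, u e) * (∑ e'', w e'')
          + (∑ e', v e') * (∑ e'', w e''))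
        + C * ((∑ e, u e) + (∑ e', v e') + (∑ e'', w e'')) + D := by
  have h1 : ∀ e : M, ∑ e' : M', ∑ e'' : M'', (A + B * ((if e = 1 then 1 else 0)
      + (if e' = 1 then 1 else 0)
      + (if e'' = 1 then 1 else 0)) + C * ((if e = 1 then 1 else 0) * (if e' = 1 then 1 else 0)
      + (if e = 1 then 1 else 0) * (if e'' = 1 then 1 else 0)
      + (if e' = 1 then 1 else 0) * (if e'' = 1 then 1 else 0))
      + D * ((if e = 1 then 1 else 0) * (if e' = 1 then 1 else 0) * (if e'' = 1 then 1 else 0)))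
      * (u e * (v e' * w e''))
      = ((A * (∑ e', v e') * (∑ e'', w e'') + B * (∑ e', v e') + B * (∑ e'', w e'') + C)
        + (B * (∑ e', v e') * (∑ e'', w e'') + C * (∑ e', v e') + C * (∑ e'', w e'') + D)
          * (if e = 1 then 1 else 0)) * u e := by
    intro e
    have h2 := sum_two_aux v w hv hw (A + B * (if e = 1 then 1 else 0))
      (B + C * (if e = 1 then 1 else 0)) (B + C * (if e = 1 then 1 else 0))
      (C + D * (if e = 1 then 1 else 0))
    calc _ = (∑ e' : M', ∑ e'' : M'', (A + B * (if e = 1 then 1 else 0)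
          + (B + C * (if e = 1 then 1 else 0)) * (if e' = 1 then 1 else 0)
          + ((B + C * (if e = 1 then 1 else 0)) + (C + D * (if e = 1 then 1 else 0))
            * (if e' = 1 then 1 else 0)) * (if e'' = 1 then 1 else 0)) * (v e' * w e'')) * u e := by
          rw [Finset.sum_mul]
          refine Finset.sum_congr rfl fun e' _ => ?_
          rw [Finset.sum_mul]
          refine Finset.sum_congr rfl fun e'' _ => ?_
          ring
      _ = _ := by
          rw [h2]
          ring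
  simp_rw [h1]
  rw [sum_one_aux u hu]
  ring

open Classical in
theorem sum_inv_char (κ : M →* ℂˣ) :
    ∑ e : M, (((κ e)⁻¹ : ℂˣ) : ℂ) = if κ = 1 then (Fintype.card M : ℂ) else 0 := by
  have h1 := sum_elt κ⁻¹
  by_cases h : κ = 1
  · subst h
    simp
  · have h' : κ⁻¹ ≠ 1 := fun h' => h (MonoidHom.ext fun v => by
      have h'' := DFunLike.congr_fun h' v
      simpa using h'')
    rw [if_neg h'] at h1
    rw [if_neg h]
    exact h1

end sums

section mults

variable {G : Type} [Group G] {θ : G → ℂ}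
variable {M M' M'' : Type} [CommGroup M] [Fintype M] [CommGroup M'] [Fintype M']
  [CommGroup M''] [Fintype M'']

open Classical in
theorem mult_pair (h : Heil θ) (Φ : M × M' →* G) {r a a' b : ℂ} (hr : θ 1 = r)
    (ha : ∀ e, e ≠ 1 → θ (Φ (e, 1)) = a) (ha' : ∀ e, e ≠ 1 → θ (Φ (1, e)) = a')
    (hb : ∀ e e', e ≠ 1 → e' ≠ 1 → θ (Φ (e, e')) = b) (κ : M × M' →* ℂˣ) :
    (mult h Φ κ : ℂ) * (Fintype.card M * Fintype.card M')
      = b * (if κ.comp (MonoidHom.inl M M') = 1 then (Fintype.card M : ℂ) else 0)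
          * (if κ.comp (MonoidHom.inr M M') = 1 then (Fintype.card M' : ℂ) else 0)
        + (a' - b) * (if κ.comp (MonoidHom.inr M M') = 1 then (Fintype.card M' : ℂ) else 0)
        + (a - b) * (if κ.comp (MonoidHom.inl M M') = 1 then (Fintype.card M : ℂ) else 0)
        + (r - a - a' + b) := by
  have h1 := mult_sum h Φ κ
  rw [Fintype.card_prod, Nat.cast_mul] at h1
  rw [← h1, Fintype.sum_prod_type, ← sum_inv_char, ← sum_inv_char]
  have h2 := sum_two_aux (fun e : M => ((((κ.comp (MonoidHom.inl M M')) e)⁻¹ : ℂˣ) : ℂ))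
    (fun e : M' => ((((κ.comp (MonoidHom.inr M M')) e)⁻¹ : ℂˣ) : ℂ))
    (by rw [map_one]; simp) (by rw [map_one]; simp)
    b (a' - b) (a - b) (r - a - a' + b)
  rw [← h2]
  refine Finset.sum_congr rfl fun e _ => Finset.sum_congr rfl fun e' _ => ?_
  have h3 : κ (e, e') = κ (e, 1) * κ (1, e') := by
    rw [← map_mul]
    simp
  rw [h3, mul_inv, Units.val_mul]
  simp only [MonoidHom.comp_apply, MonoidHom.inl_apply, MonoidHom.inr_apply]
  congr 1
  by_cases he : e = 1
  · subst he
    by_cases he' : e' = 1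
    · subst he'
      have : Φ ((1 : M), (1 : M')) = 1 := map_one Φ
      rw [this, hr, if_pos rfl, if_pos rfl]
      ring
    · rw [ha' _ he', if_pos rfl, if_neg he']
      ring
  · by_cases he' : e' = 1
    · subst he'
      rw [ha _ he, if_neg he, if_pos rfl]
      ring
    · rw [hb _ _ he he', if_neg he, if_neg he']
      ring

open Classical in
theorem mult_triple (h : Heil θ) (Φ : M × (M' × M'') →* G) {r a b c : ℂ} (hr : θ 1 = r)
    (ha1 : ∀ e, e ≠ 1 → θ (Φ (e, 1, 1)) = a) (ha2 : ∀ e, e ≠ 1 → θ (Φ (1, e, 1)) = a)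
    (ha3 : ∀ e, e ≠ 1 → θ (Φ (1, 1, e)) = a)
    (hb1 : ∀ e e', e ≠ 1 → e' ≠ 1 → θ (Φ (1, e, e')) = b)
    (hb2 : ∀ e e', e ≠ 1 → e' ≠ 1 → θ (Φ (e, 1, e')) = b)
    (hb3 : ∀ e e', e ≠ 1 → e' ≠ 1 → θ (Φ (e, e', 1)) = b)
    (hc : ∀ e e' e'', e ≠ 1 → e' ≠ 1 → e'' ≠ 1 → θ (Φ (e, e', e'')) = c)
    (κ : M × (M' × M'') →* ℂˣ) (s1 s2 s3 : ℂ)
    (hs1 : ∑ e : M, (((κ (e, 1, 1))⁻¹ : ℂˣ) : ℂ) = s1)
    (hs2 : ∑ e : M', (((κ (1, e, 1))⁻¹ : ℂˣ) : ℂ) = s2)
    (hs3 : ∑ e : M'', (((κ (1, 1, e))⁻¹ : ℂˣ) : ℂ) = s3) :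
    (mult h Φ κ : ℂ) * (Fintype.card M * (Fintype.card M' * Fintype.card M''))
      = c * s1 * s2 * s3 + (b - c) * (s1 * s2 + s1 * s3 + s2 * s3)
        + (a - 2 * b + c) * (s1 + s2 + s3) + (r - 3 * a + 3 * b - c) := by
  have h1 := mult_sum h Φ κ
  rw [Fintype.card_prod, Fintype.card_prod, Nat.cast_mul, Nat.cast_mul] at h1
  rw [← h1, Fintype.sum_prod_type, ← hs1, ← hs2, ← hs3]
  have h2 := sum_three_aux (fun e : M => (((κ (e, 1, 1))⁻¹ : ℂˣ) : ℂ))
    (fun e : M' => (((κ (1, e, 1))⁻¹ : ℂˣ) : ℂ)) (fun e : M'' => (((κ (1, 1, e))⁻¹ : ℂˣ) : ℂ))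
    (by
      have : κ ((1 : M), (1 : M'), (1 : M'')) = 1 := map_one κ
      simp [this]) (by
      have : κ ((1 : M), (1 : M'), (1 : M'')) = 1 := map_one κ
      simp [this]) (by
      have : κ ((1 : M), (1 : M'), (1 : M'')) = 1 := map_one κ
      simp [this])
    c (b - c) (a - 2 * b + c) (r - 3 * a + 3 * b - c)
  rw [← h2]
  refine Finset.sum_congr rfl fun e _ => ?_
  rw [Fintype.sum_prod_type]
  refine Finset.sum_congr rfl fun e' _ => Finset.sum_congr rfl fun e'' _ => ?_
  have h3 : κ (e, e', e'') = κ (e, 1, 1) * (κ (1, e', 1) * κ (1, 1, e'')) := by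
    rw [← map_mul, ← map_mul]
    simp
  rw [h3, mul_inv, mul_inv, Units.val_mul, Units.val_mul]
  congr 1
  by_cases he : e = 1
  · subst he
    by_cases he' : e' = 1
    · subst he'
      by_cases he'' : e'' = 1
      · subst he''
        have : Φ ((1 : M), (1 : M'), (1 : M'')) = 1 := map_one Φ
        rw [this, hr]
        simp
        ring
      · rw [ha3 _ he'', if_pos rfl, if_pos rfl, if_neg he'']
        ring
    · by_cases he'' : e'' = 1
      · subst he''
        rw [ha2 _ he', if_pos rfl, if_pos rfl, if_neg he']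
        ring
      · rw [hb1 _ _ he' he'', if_pos rfl, if_neg he', if_neg he'']
        ring
  · by_cases he' : e' = 1
    · subst he'
      by_cases he'' : e'' = 1
      · subst he''
        rw [ha1 _ he, if_neg he, if_pos rfl, if_pos rfl]
        ring
      · rw [hb2 _ _ he he'', if_neg he, if_pos rfl, if_neg he'']
        ring
    · by_cases he'' : e'' = 1
      · subst he''
        rw [hb3 _ _ he he', if_neg he, if_neg he', if_pos rfl]
        ring
      · rw [hc _ _ _ he he' he'', if_neg he, if_neg he', if_neg he'']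
        ring

end mults

end Pool.Agent.H7.HB
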